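import Pool.Agent.H6.LW.NearOf

open Real Matrix

namespace Pool.Agent.H6.LW

/-- in the frame where `γ` is nearly diagonal, everything commuting with `γ` is nearly diagonal -/
lemma off_small {α β E : ℝ} {z : ℝ × ℝ} {γ γ₀ : Matrix (Fin 3) (Fin 3) ℤ} (hE : 1000 ≤ E)
    (h : NearRet α β ((E ^ 21)⁻¹) (E ^ 4) z γ) (hd : ∀ i, |fr α β z (rm γ₀) i i| ≤ E ^ 4)
    (hcomm : γ₀ * γ = γ * γ₀) (i j : Fin 3) (hij : i ≠ j) :
    |fr α β z (rm γ₀) i j| ≤ 32 / E ^ 9 := by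
  have hE0 : 0 < E := by linarith
  have hE1 : 1 ≤ E := by linarith
  have hη0 : 0 ≤ (E ^ 21)⁻¹ := by positivity
  have hη1 : (E ^ 21)⁻¹ ≤ 1 := inv_le_one_of_one_le₀ (one_le_pow₀ hE1)
  have hD1 : 1 ≤ E ^ 4 := one_le_pow₀ hE1
  have hsm : 20000 * (E ^ 4) ^ 7 * ((E ^ 21)⁻¹) ^ 2 ≤ 1 := by
    have e : 20000 * (E ^ 4) ^ 7 * ((E ^ 21)⁻¹) ^ 2 = 20000 / E ^ 14 := by
      field_simp
    rw [e, div_le_one (by positivity)]
    calc (20000 : ℝ) ≤ 1000 ^ 2 := by norm_num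
      _ ≤ E ^ 2 := pow_le_pow_left₀ (by norm_num) hE 2
      _ ≤ E ^ 14 := pow_le_pow_right₀ hE1 (by norm_num)
  have hsep := h.sep hη0 hD1 hη1 hsm
  have hc : fr α β z (rm γ₀) * fr α β z (rm γ) = fr α β z (rm γ) * fr α β z (rm γ₀) := by
    rw [← fr_mul, ← fr_mul, ← rm_mul, ← rm_mul, hcomm]
  obtain ⟨p, hp⟩ := Finite.exists_max (fun p : Fin 3 × Fin 3 => |fr α β z (rm γ₀) p.1 p.2|)
  set m := |fr α β z (rm γ₀) p.1 p.2| with hm
  have hX : ∀ i j, |fr α β z (rm γ₀) i j| ≤ m := fun i j => hp (i, j)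
  have hm0 : 0 ≤ m := abs_nonneg _
  have key : ∀ i j, i ≠ j → |fr α β z (rm γ₀) i j| ≤ 32 / E ^ 13 * m := by
    intro i j hij
    have := offdiag_of_comm hη0 h.off hsep hc hX i j hij
    rw [mul_one_div, div_le_iff₀ (by positivity)] at this
    calc _ ≤ _ := this
      _ = _ := by field_simp; ring
  have hmD : m ≤ E ^ 4 := by
    by_cases hpp : p.1 = p.2
    · rw [hm, ← hpp]; exact hd _
    · have h1 := key p.1 p.2 hpp
      rw [← hm] at h1
      have h2 : 32 / E ^ 13 ≤ 1 / 2 := by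
        rw [div_le_iff₀ (by positivity)]
        have : E ^ 1 ≤ E ^ 13 := pow_le_pow_right₀ hE1 (by norm_num)
        linarith
      have h3 : m ≤ 1 / 2 * m := h1.trans (mul_le_mul_of_nonneg_right h2 hm0)
      linarith
  calc _ ≤ _ := key i j hij
    _ ≤ 32 / E ^ 13 * E ^ 4 := mul_le_mul_of_nonneg_left hmD (by positivity)
    _ = 32 / E ^ 9 := by field_simp

lemma commutator_small {X Y : Matrix (Fin 3) (Fin 3) ℝ} {D ε : ℝ} (hε : 0 ≤ ε) (hεD : ε ≤ D)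
    (hX : ∀ i, |X i i| ≤ D) (hY : ∀ i, |Y i i| ≤ D) (hX' : ∀ i j, i ≠ j → |X i j| ≤ ε)
    (hY' : ∀ i j, i ≠ j → |Y i j| ≤ ε) (i j : Fin 3) : |(X * Y - Y * X) i j| ≤ 6 * D * ε := by
  have hD : 0 ≤ D := hε.trans hεD
  have aX : ∀ i j, |X i j| ≤ D := fun i j => by
    by_cases h : i = j
    · rw [h]; exact hX _
    · exact (hX' i j h).trans hεD
  have aY : ∀ i j, |Y i j| ≤ D := fun i j => by
    by_cases h : i = j
    · rw [h]; exact hY _
    · exact (hY' i j h).trans hεD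
  have term : ∀ k, |X i k * Y k j - Y i k * X k j| ≤ 2 * (D * ε) := by
    intro k
    by_cases h1 : i = k
    · by_cases h2 : k = j
      · rw [h1, h2]
        have : X j j * Y j j - Y j j * X j j = 0 := by ring
        rw [this, abs_zero]
        positivity
      · calc _ ≤ |X i k * Y k j| + |Y i k * X k j| := abs_sub _ _
          _ ≤ D * ε + D * ε := by
              rw [abs_mul, abs_mul]
              exact add_le_add (mul_le_mul (aX _ _) (hY' _ _ h2) (abs_nonneg _) hD)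
                (mul_le_mul (aY _ _) (hX' _ _ h2) (abs_nonneg _) hD)
          _ = _ := by ring
    · calc _ ≤ |X i k * Y k j| + |Y i k * X k j| := abs_sub _ _
        _ ≤ ε * D + ε * D := by
            rw [abs_mul, abs_mul]
            exact add_le_add (mul_le_mul (hX' _ _ h1) (aY _ _) (abs_nonneg _) hε)
              (mul_le_mul (hY' _ _ h1) (aX _ _) (abs_nonneg _) hε)
        _ = _ := by ring
  rw [Matrix.sub_apply, Matrix.mul_apply, Matrix.mul_apply, ← Finset.sum_sub_distrib]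
  calc |∑ k, (X i k * Y k j - Y i k * X k j)| ≤ ∑ k, |X i k * Y k j - Y i k * X k j| :=
        Finset.abs_sum_le_sum_abs _ _
    _ ≤ ∑ _k : Fin 3, 2 * (D * ε) := Finset.sum_le_sum fun k _ => term k
    _ = 6 * D * ε := by simp; ring

lemma comm_step {α β δ C E : ℝ} {z : ℝ × ℝ} {γ γ' γ₀ : Matrix (Fin 3) (Fin 3) ℤ}
    (hloc : Loc α β δ C z)
    (hE : 1000 ≤ E) (hsmall : 3 * (192 / E ^ 5) * C < δ)
    (h : NearRet α β ((E ^ 21)⁻¹) (E ^ 4) z γ) (h' : NearRet α β ((E ^ 21)⁻¹) (E ^ 4) z γ')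
    (hd : ∀ i, |fr α β z (rm γ₀) i i| ≤ E ^ 4)
    (hcomm : γ₀ * γ = γ * γ₀) : γ₀ * γ' = γ' * γ₀ := by
  have hE0 : 0 < E := by linarith
  have hE1 : 1 ≤ E := by linarith
  have hoff := off_small hE h hd hcomm
  have hη : (E ^ 21)⁻¹ ≤ 32 / E ^ 9 := by
    rw [inv_eq_one_div]
    apply div_le_div₀ (by norm_num) (by norm_num) (by positivity)
    exact pow_le_pow_right₀ hE1 (by norm_num)
  have hεD : 32 / E ^ 9 ≤ E ^ 4 := by
    rw [div_le_iff₀ (by positivity), ← pow_add]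
    calc (32 : ℝ) ≤ E ^ 1 := by linarith
      _ ≤ E ^ (4 + 9) := pow_le_pow_right₀ hE1 (by norm_num)
  have hM : γ₀ * γ' - γ' * γ₀ = 0 := by
    refine eq_zero_of_small hloc hsmall _ fun i j => ?_
    rw [rm_sub, rm_mul, rm_mul, fr_sub, fr_mul, fr_mul]
    refine (commutator_small (by positivity) hεD hd h'.diag hoff
      (fun i j hij => (h'.off i j hij).trans hη) i j).trans (le_of_eq ?_)
    field_simp
    ring
  exact sub_eq_zero.1 hM

lemma comm_all {α β δ C E : ℝ} {z : ℕ → ℝ × ℝ} {γ : ℕ → Matrix (Fin 3) (Fin 3) ℤ} {n₀ : ℕ}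
    (hz : ∀ n, n ≤ n₀ → Loc α β δ C (z n))
    (hE : 1000 ≤ E) (hsmall : 3 * (192 / E ^ 5) * C < δ)
    (h : ∀ n, n ≤ n₀ → NearRet α β ((E ^ 21)⁻¹) (E ^ 4) (z n) (γ n))
    (h' : ∀ n, n < n₀ → NearRet α β ((E ^ 21)⁻¹) (E ^ 4) (z (n + 1)) (γ n)) :
    ∀ n, n ≤ n₀ → γ 0 * γ n = γ n * γ 0 := by
  have hd : ∀ w i, |fr α β w (rm (γ 0)) i i| ≤ E ^ 4 := by
    intro w i
    have := (h 0 (Nat.zero_le _)).diag i
    rw [fr_diag] at this ⊢
    exact this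
  intro n
  induction n with
  | zero => intro _; rfl
  | succ n ih =>
    intro hn
    exact comm_step (hz (n + 1) hn) hE hsmall (h' n (by omega))
      (h (n + 1) hn) (hd _) (ih (by omega))

lemma off_all {α β δ C E : ℝ} {z : ℕ → ℝ × ℝ} {γ : ℕ → Matrix (Fin 3) (Fin 3) ℤ} {n₀ : ℕ}
    (hz : ∀ n, n ≤ n₀ → Loc α β δ C (z n))
    (hE : 1000 ≤ E) (hsmall : 3 * (192 / E ^ 5) * C < δ)
    (h : ∀ n, n ≤ n₀ → NearRet α β ((E ^ 21)⁻¹) (E ^ 4) (z n) (γ n))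
    (h' : ∀ n, n < n₀ → NearRet α β ((E ^ 21)⁻¹) (E ^ 4) (z (n + 1)) (γ n)) :
    ∀ n, n ≤ n₀ → ∀ i j, i ≠ j → |fr α β (z n) (rm (γ 0)) i j| ≤ 1 := by
  intro n hn i j hij
  have hE0 : 0 < E := by linarith
  have hE1 : 1 ≤ E := by linarith
  have hd : ∀ i, |fr α β (z n) (rm (γ 0)) i i| ≤ E ^ 4 := by
    intro i
    have := (h 0 (Nat.zero_le _)).diag i
    rw [fr_diag] at this ⊢
    exact this
  refine (off_small hE (h n hn) hd (comm_all hz hE hsmall h h' n hn) i j hij).trans ?_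
  rw [div_le_one (by positivity)]
  calc (32 : ℝ) ≤ E ^ 1 := by linarith
    _ ≤ E ^ 9 := pow_le_pow_right₀ hE1 (by norm_num)

end Pool.Agent.H6.LW
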