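import Pool.Agent.H6.LW.Irr
import Pool.Agent.H6.LW.Chain

open Real Matrix Polynomial

namespace Pool.Agent.H6.LW

lemma prod_crd (α β : ℝ) (u : ℝ × ℝ) (x : Fin 3 → ℝ) :
    crd α β u x 0 * crd α β u x 1 * crd α β u x 2 = x 0 * (x 0 * α - x 1) * (x 0 * β - x 2) := by
  rw [crd_zero, crd_one, crd_two]
  have hE : exp (-(u.1 + u.2)) * exp u.1 * exp u.2 = 1 := by
    rw [← exp_add, ← exp_add]
    simp
  linear_combination (x 0 * (x 0 * α - x 1) * (x 0 * β - x 2)) * hE

lemma prod_lower_int {α β c Q : ℝ} (h : LowUpTo α β c Q)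
    (v : Fin 3 → ℤ) (hv : v 0 ≠ 0) (hvQ : |((v 0 : ℤ) : ℝ)| ≤ Q) :
    c ≤ |cv v 0 * (cv v 0 * α - cv v 1) * (cv v 0 * β - cv v 2)| := by
  have key : ∀ w : Fin 3 → ℤ, 0 < w 0 → |((w 0 : ℤ) : ℝ)| ≤ Q →
      c ≤ |cv w 0 * (cv w 0 * α - cv w 1) * (cv w 0 * β - cv w 2)| := by
    intro w hw hwQ
    obtain ⟨n, hn⟩ := Int.eq_ofNat_of_zero_le hw.le
    have hn0 : 0 < n := by omega
    have hnQ : (n : ℝ) ≤ Q := by
      rw [hn] at hwQ
      push_cast at hwQ
      rwa [abs_of_nonneg (Nat.cast_nonneg n)] at hwQ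
    have h1 := h n hn0 hnQ (w 1) (w 2)
    have e : cv w 0 = (n : ℝ) := by simp [cv, hn]
    rw [e, abs_mul, abs_mul, abs_of_nonneg (Nat.cast_nonneg n)]
    exact h1
  rcases lt_or_gt_of_ne hv with h0 | h0
  · have := key (-v) (by simpa using h0) (by
      simp only [Pi.neg_apply, Int.cast_neg, abs_neg]; exact hvQ)
    rw [cv_neg] at this
    simp only [Pi.neg_apply] at this
    refine this.trans (le_of_eq ?_)
    rw [← abs_neg]
    congr 1
    ring
  · exact key v h0 hvQ

lemma crd_zero_vec (α β : ℝ) (u : ℝ × ℝ) (i : Fin 3) : crd α β u (cv 0) i = 0 := by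
  have : cv (0 : Fin 3 → ℤ) = 0 := by ext i; simp [cv]
  rw [this, crd, Matrix.mulVec_zero]; simp

lemma abs_prod_cyc (y : Fin 3 → ℝ) (i : Fin 3) :
    |y 0 * y 1 * y 2| = |y i| * |y (i + 1)| * |y (i + 2)| := by
  fin_cases i
  · simp [abs_mul]
  · simp [abs_mul]; ring
  · simp [abs_mul]; ring

/-- a near return has no eigenvalue `±1` -/
lemma no_unit_eigen {α β c δ C₁ E Q : ℝ} {z : ℝ × ℝ} {γ : Matrix (Fin 3) (Fin 3) ℤ} {ν : ℤ}
    (hc : LowUpTo α β c Q) (hC1 : 1 ≤ C₁) (hloc : Loc α β δ C₁ z)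
    (hQ : E ^ 9 * exp (z.1 + z.2) ≤ Q)
    (hE : 1000 ≤ E) (hEC : 144 * C₁ < E) (hEc : 4000000000 * C₁ ^ 3 < c * E ^ 2)
    (hz1' : E ^ 9 ≤ exp z.1) (hz2' : E ^ 9 ≤ exp z.2)
    (h : NearRet α β ((E ^ 21)⁻¹) (E ^ 4) z γ) (hν : ν = 1 ∨ ν = -1)
    (hdet : (γ - ν • (1 : Matrix (Fin 3) (Fin 3) ℤ)).det = 0) : False := by
  have hE0 : 0 < E := by linarith
  have hE1 : 1 ≤ E := by linarith
  set η := (E ^ 21)⁻¹ with hη
  set D := E ^ 4 with hD
  have hη0 : 0 ≤ η := by positivity
  have hD1 : 1 ≤ D := one_le_pow₀ hE1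
  have hη1 : η ≤ 1 := inv_le_one_of_one_le₀ (one_le_pow₀ hE1)
  have hsm : 20000 * D ^ 7 * η ^ 2 ≤ 1 := by
    have e : 20000 * D ^ 7 * η ^ 2 = 20000 / E ^ 14 := by
      rw [hη, hD]; field_simp
    rw [e, div_le_one (by positivity)]
    calc (20000 : ℝ) ≤ 1000 ^ 2 := by norm_num
      _ ≤ E ^ 2 := pow_le_pow_left₀ (by norm_num) hE 2
      _ ≤ E ^ 14 := pow_le_pow_right₀ hE1 (by norm_num)
  have hsep := h.sep hη0 hD1 hη1 hsm
  set σ := 1 / (8 * D ^ 2) with hσ
  have hσ0 : 0 < σ := by positivity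
  have hνabs : |(ν : ℝ)| = 1 := by
    rcases hν with h | h <;> rw [h] <;> norm_num
  set B := γ - ν • (1 : Matrix (Fin 3) (Fin 3) ℤ) with hB
  set G := fr α β z (rm B) with hG
  have hrmB : rm B = rm γ - (ν : ℝ) • (1 : Matrix (Fin 3) (Fin 3) ℝ) := by
    ext i j
    rw [hB, rm_apply, Matrix.sub_apply, Matrix.sub_apply, Matrix.smul_apply, Matrix.smul_apply,
      smul_eq_mul, smul_eq_mul, rm_apply, Matrix.one_apply, Matrix.one_apply]
    push_cast
    ring
  have hGe : G = fr α β z (rm γ) - (ν : ℝ) • (1 : Matrix (Fin 3) (Fin 3) ℝ) := by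
    rw [hG, hrmB, fr_sub, fr_smul, fr_one]
  have hGoff : ∀ i j, i ≠ j → G i j = fr α β z (rm γ) i j := by
    intro i j hij
    rw [hGe]; simp [Matrix.one_apply_ne hij]
  have hGdiag : ∀ i, G i i = fr α β z (rm γ) i i - ν := by
    intro i
    rw [hGe]; simp
  have hoff : ∀ i j, i ≠ j → |G i j| ≤ η := by
    intro i j hij
    rw [hGoff i j hij]; exact h.off i j hij
  have hall : ∀ i j, |G i j| ≤ 2 * D := by
    intro i j
    by_cases hij : i = j
    · rw [hij, hGdiag]
      refine (abs_sub _ _).trans ?_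
      have := h.diag j
      linarith
    · exact (hoff i j hij).trans (by linarith)
  obtain ⟨i, hi⟩ := Finite.exists_min (fun i : Fin 3 => |G i i|)
  have hother : ∀ j, j ≠ i → σ / 2 ≤ |G j j| := by
    intro j hj
    have h1 := hsep i j (Ne.symm hj)
    have h2 : |fr α β z (rm γ) i i - fr α β z (rm γ) j j| ≤ |G i i| + |G j j| := by
      have e : fr α β z (rm γ) i i - fr α β z (rm γ) j j = G i i - G j j := by
        rw [hGdiag, hGdiag]; ring
      rw [e]; exact abs_sub _ _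
    have h3 := hi j
    linarith
  have n1 : i + 1 ≠ i := by fin_cases i <;> decide
  have n2 : i + 2 ≠ i := by fin_cases i <;> decide
  have n12 : i + 1 ≠ i + 2 := by fin_cases i <;> decide
  -- the adjugate does not vanish
  have hcm : cm G i i ≠ 0 := by
    rw [cm_diag]
    intro h0
    have h1 : |G (i + 1) (i + 1) * G (i + 2) (i + 2)| ≤ η ^ 2 := by
      have e : G (i + 1) (i + 1) * G (i + 2) (i + 2) =
        G (i + 1) (i + 2) * G (i + 2) (i + 1) := by linarith
      rw [e]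
      exact prod2 hη0 (hoff _ _ n12) (hoff _ _ n12.symm)
    rw [abs_mul] at h1
    have h2 : σ / 2 * (σ / 2) ≤ |G (i + 1) (i + 1)| * |G (i + 2) (i + 2)| :=
      mul_le_mul (hother _ n1) (hother _ n2) (by positivity) (abs_nonneg _)
    have h3 : η ^ 2 < σ / 2 * (σ / 2) := by
      have e1 : η ^ 2 = 1 / E ^ 42 := by rw [hη]; field_simp
      have e2 : σ / 2 * (σ / 2) = 1 / (256 * E ^ 16) := by
        rw [hσ, hD]; field_simp; norm_num
      rw [e1, e2]
      apply one_div_lt_one_div_of_lt (by positivity)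
      calc 256 * E ^ 16 < E * E ^ 16 := by
            apply mul_lt_mul_of_pos_right (by linarith) (by positivity)
        _ = E ^ 17 := by ring
        _ ≤ E ^ 42 := pow_le_pow_right₀ hE1 (by norm_num)
    linarith
  have hcmB : cm B ≠ 0 := by
    intro h0
    apply hcm
    rw [hG, ← fr_cm, ← rm_cm, h0]
    have : rm (0 : Matrix (Fin 3) (Fin 3) ℤ) = 0 := by ext i j; simp [rm]
    rw [this, fr_apply]
    simp
  have : ∃ r, cm B r ≠ 0 := by
    by_contra hall
    push Not at hall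
    exact hcmB (funext hall)
  obtain ⟨r, hr⟩ := this
  have ha : (fun j => ((cm B r j : ℤ) : ℝ)) ≠ 0 := by
    intro h0
    apply hr
    ext j
    have := congrFun h0 j
    simpa using this
  obtain ⟨v', hv', hva⟩ := hloc.short _ ha
  set v := (cm B).mulVec v' with hv
  have hvne : v ≠ 0 := by
    intro h0
    apply hva
    have := congrFun h0 r
    simp only [hv, Matrix.mulVec, dotProduct, Pi.zero_apply] at this
    exact_mod_cast this
  have hBv : B.mulVec v = 0 := by
    rw [hv, Matrix.mulVec_mulVec, mul_cm, hdet, zero_smul, Matrix.zero_mulVec]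
  set Y := size α β z (cv v) with hY
  have hYle : Y ≤ 144 * D ^ 2 * C₁ := by
    have h1 : ∀ i j, |fr α β z (rm (cm B)) i j| ≤ 12 * (2 * D) ^ 2 := by
      intro i j
      rw [rm_cm, fr_cm]
      exact cm_bound hall i j
    have h2 := size_mulVec_le α β z (rm (cm B)) (cv v') h1
    rw [rm_mulVec] at h2
    calc Y ≤ 3 * (12 * (2 * D) ^ 2) * size α β z (cv v') := h2
      _ ≤ 3 * (12 * (2 * D) ^ 2) * C₁ := mul_le_mul_of_nonneg_left hv' (by positivity)
      _ = 144 * D ^ 2 * C₁ := by ring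
  have hY0 : 0 ≤ Y := size_nonneg _ _ _ _
  have hyY : ∀ i, |crd α β z (cv v) i| ≤ Y := fun i => crd_le_size α β z (cv v) i
  have hker : ∀ i, ∑ j, G i j * crd α β z (cv v) j = 0 := by
    intro i
    rw [hG, ← crd_mulVec, rm_mulVec, hBv]
    exact crd_zero_vec α β z i
  have hsmall : ∀ j, j ≠ i → |crd α β z (cv v) j| ≤ 32 / E ^ 13 * Y := by
    intro j hj
    have h1 := hker j
    rw [sum_cyc _ j] at h1
    have m1 : j ≠ j + 1 := by fin_cases j <;> decide
    have m2 : j ≠ j + 2 := by fin_cases j <;> decide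
    have p1 : |G j (j + 1) * crd α β z (cv v) (j + 1)| ≤ η * Y := by
      rw [abs_mul]; exact mul_le_mul (hoff _ _ m1) (hyY _) (abs_nonneg _) hη0
    have p2 : |G j (j + 2) * crd α β z (cv v) (j + 2)| ≤ η * Y := by
      rw [abs_mul]; exact mul_le_mul (hoff _ _ m2) (hyY _) (abs_nonneg _) hη0
    have p3 : |G j j * crd α β z (cv v) j| ≤ 2 * (η * Y) := by
      have e : G j j * crd α β z (cv v) j = -(G j (j + 1) * crd α β z (cv v) (j + 1) +
        G j (j + 2) * crd α β z (cv v) (j + 2)) := by linarith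
      rw [e, abs_neg]
      exact (abs_add_le _ _).trans (by linarith)
    rw [abs_mul] at p3
    have p4 : σ / 2 * |crd α β z (cv v) j| ≤ 2 * (η * Y) :=
      (mul_le_mul_of_nonneg_right (hother j hj) (abs_nonneg _)).trans p3
    have e5 : |crd α β z (cv v) j| = (σ / 2 * |crd α β z (cv v) j|) * (2 / σ) := by
      field_simp
    rw [e5]
    calc σ / 2 * |crd α β z (cv v) j| * (2 / σ) ≤ 2 * (η * Y) * (2 / σ) :=
          mul_le_mul_of_nonneg_right p4 (by positivity)
      _ = 32 / E ^ 13 * Y := by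
          rw [hσ, hη, hD]; field_simp; ring
  have hYE : 144 * D ^ 2 * C₁ < E ^ 9 := by
    rw [hD]
    calc 144 * (E ^ 4) ^ 2 * C₁ = (144 * C₁) * E ^ 8 := by ring
      _ < E * E ^ 8 := mul_lt_mul_of_pos_right hEC (by positivity)
      _ = E ^ 9 := by ring
  by_cases hv0 : v 0 = 0
  · -- first coordinate zero
    have hbig : E ^ 9 ≤ Y := by
      by_cases h1 : v 1 = 0
      · have h2 : v 2 ≠ 0 := by
          intro h2
          apply hvne
          ext k
          fin_cases k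
          · exact hv0
          · exact h1
          · exact h2
        have h3 := hyY 2
        rw [crd_two, abs_mul, abs_of_pos (exp_pos _)] at h3
        have e : |cv v 0 * β - cv v 2| = |((v 2 : ℤ) : ℝ)| := by
          simp [cv, hv0]
        rw [e] at h3
        have h4 : (1 : ℝ) ≤ |((v 2 : ℤ) : ℝ)| := by
          rw [← Int.cast_abs]
          exact_mod_cast Int.one_le_abs h2
        have h5 := exp_pos z.2
        nlinarith
      · have h3 := hyY 1
        rw [crd_one, abs_mul, abs_of_pos (exp_pos _)] at h3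
        have e : |cv v 0 * α - cv v 1| = |((v 1 : ℤ) : ℝ)| := by
          simp [cv, hv0]
        rw [e] at h3
        have h4 : (1 : ℝ) ≤ |((v 1 : ℤ) : ℝ)| := by
          rw [← Int.cast_abs]
          exact_mod_cast Int.one_le_abs h1
        have h5 := exp_pos z.1
        nlinarith
    linarith
  · have hvQ : |((v 0 : ℤ) : ℝ)| ≤ Q := by
      have h3 := (hyY 0).trans (hYle.trans hYE.le)
      rw [crd_zero, abs_mul, abs_of_pos (exp_pos _), exp_neg, inv_mul_eq_div,
        div_le_iff₀ (exp_pos _)] at h3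
      exact h3.trans hQ
    have h1 := prod_lower_int hc v hv0 hvQ
    rw [← prod_crd α β z, abs_prod_cyc (crd α β z (cv v)) i] at h1
    have h2 : |crd α β z (cv v) i| * |crd α β z (cv v) (i + 1)| * |crd α β z (cv v) (i + 2)| ≤
        Y * (32 / E ^ 13 * Y) * (32 / E ^ 13 * Y) :=
      mul_le_mul (mul_le_mul (hyY i) (hsmall _ n1) (abs_nonneg _) hY0) (hsmall _ n2)
        (abs_nonneg _) (by positivity)
    have h3 : Y * (32 / E ^ 13 * Y) * (32 / E ^ 13 * Y) = 1024 / E ^ 26 * Y ^ 3 := by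
      field_simp; ring
    have h4 : Y ^ 3 ≤ (144 * D ^ 2 * C₁) ^ 3 := pow_le_pow_left₀ hY0 hYle 3
    have h5 : 1024 / E ^ 26 * (144 * D ^ 2 * C₁) ^ 3 = 3057647616 * C₁ ^ 3 / E ^ 2 := by
      rw [hD]; field_simp; ring
    have h6 : 1024 / E ^ 26 * Y ^ 3 ≤ 1024 / E ^ 26 * (144 * D ^ 2 * C₁) ^ 3 :=
      mul_le_mul_of_nonneg_left h4 (by positivity)
    have h7 : 3057647616 * C₁ ^ 3 / E ^ 2 < c := by
      rw [div_lt_iff₀ (by positivity)]
      have : 0 < C₁ ^ 3 := by positivity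
      linarith
    linarith

/-- the characteristic polynomial of a unimodular matrix without eigenvalue `±1` -/
lemma irreducible_charpoly {γ : Matrix (Fin 3) (Fin 3) ℤ} (hu : IsUnit γ.det)
    (h : ∀ ν : ℤ, (ν = 1 ∨ ν = -1) → (γ - ν • (1 : Matrix (Fin 3) (Fin 3) ℤ)).det ≠ 0) :
    Irreducible (γ.charpoly.map (Int.castRingHom ℚ)) := by
  have hmon := γ.charpoly_monic
  have hdeg : γ.charpoly.natDegree = 3 := by
    rw [Matrix.charpoly_natDegree_eq_dim]; simp
  apply irreducible_of_degree_le_three_of_not_isRoot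
  · rw [hmon.natDegree_map, hdeg]; simp
  · intro x hx
    have hx' : aeval x γ.charpoly = 0 := by
      rw [Polynomial.IsRoot, Polynomial.eval_map] at hx
      rw [Polynomial.aeval_def]
      exact hx
    obtain ⟨r, hr, hdvd⟩ := exists_integer_of_is_root_of_monic hmon hx'
    have hc0 : γ.charpoly.coeff 0 = -γ.det := by
      rw [charpoly_three]; simp
    have hr1 : r = 1 ∨ r = -1 := by
      rw [hc0, dvd_neg] at hdvd
      exact Int.isUnit_iff.1 (isUnit_of_dvd_unit hdvd hu)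
    apply h r hr1
    have h0 : γ.charpoly.eval r = 0 := by
      have : ((γ.charpoly.eval r : ℤ) : ℚ) = 0 := by
        rw [hr, Polynomial.aeval_algebraMap_apply] at hx'
        simpa using hx'
      exact_mod_cast this
    rw [Matrix.eval_charpoly] at h0
    have e : γ - r • (1 : Matrix (Fin 3) (Fin 3) ℤ) = -(Matrix.scalar (Fin 3) r - γ) := by
      rw [neg_sub, Matrix.smul_one_eq_diagonal]
      rfl
    rw [e, Matrix.det_neg, h0, mul_zero]

lemma discr_three (γ : Matrix (Fin 3) (Fin 3) ℤ) : γ.discr = disc (trI γ) (secI γ) γ.det := by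
  have hdeg : γ.charpoly.degree = 3 := by
    rw [Matrix.charpoly_degree_eq_dim]; rfl
  rw [Matrix.discr, Polynomial.discr_of_degree_eq_three hdeg, charpoly_three]
  have e1 : (X ^ 3 - C (trM γ) * X ^ 2 + C (secM γ) * X - C γ.det : ℤ[X]).coeff 0 = -γ.det := by
    simp only [coeff_sub, coeff_add, coeff_C_mul, coeff_X_pow, coeff_X, coeff_C]; norm_num
  have e2 : (X ^ 3 - C (trM γ) * X ^ 2 + C (secM γ) * X - C γ.det : ℤ[X]).coeff 1 = secM γ := by
    simp only [coeff_sub, coeff_add, coeff_C_mul, coeff_X_pow, coeff_X, coeff_C]; norm_num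
  have e3 : (X ^ 3 - C (trM γ) * X ^ 2 + C (secM γ) * X - C γ.det : ℤ[X]).coeff 2 = -trM γ := by
    simp only [coeff_sub, coeff_add, coeff_C_mul, coeff_X_pow, coeff_X, coeff_C]; norm_num
  have e4 : (X ^ 3 - C (trM γ) * X ^ 2 + C (secM γ) * X - C γ.det : ℤ[X]).coeff 3 = 1 := by
    simp only [coeff_sub, coeff_add, coeff_C_mul, coeff_X_pow, coeff_X, coeff_C]; norm_num
  rw [e1, e2, e3, e4]
  unfold disc trM secM trI secI
  ring

end Pool.Agent.H6.LW
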