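import Pool.Agent.H6.LW.Cubic

open Real Matrix Polynomial

namespace Pool.Agent.H6.LW

/-- a zero of the characteristic polynomial close to the first diagonal entry -/
lemma exists_root_near {Γ : Matrix (Fin 3) (Fin 3) ℝ} {η D σ τ : ℝ} (hη : 0 ≤ η) (hη1 : η ≤ 1)
    (hD : 1 ≤ D) (hτ : 0 < τ) (hτ1 : τ ≤ 1) (hτσ : τ ≤ σ / 2) (hoff : ∀ i j, i ≠ j → |Γ i j| ≤ η)
    (hdiag : ∀ i, |Γ i i| ≤ D) (h1 : σ ≤ |Γ 0 0 - Γ 1 1|) (h2 : σ ≤ |Γ 0 0 - Γ 2 2|)
    (hbig : 11 * D * η ^ 2 < τ * (σ / 2) ^ 2) :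
    ∃ ν : ℝ, |ν - Γ 0 0| ≤ τ ∧ (Γ - ν • (1 : Matrix (Fin 3) (Fin 3) ℝ)).det = 0 := by
  have hσ : 0 < σ := by linarith
  set a := Γ 0 0
  set b := Γ 1 1
  set c := Γ 2 2
  set f : ℝ → ℝ := fun x => (a - x) * (b - x) * (c - x) - (a - x) * Γ 1 2 * Γ 2 1
    - (b - x) * Γ 0 2 * Γ 2 0 - (c - x) * Γ 0 1 * Γ 1 0 + Γ 0 1 * Γ 1 2 * Γ 2 0
    + Γ 0 2 * Γ 1 0 * Γ 2 1 with hf
  have hdet : ∀ x : ℝ, (Γ - x • (1 : Matrix (Fin 3) (Fin 3) ℝ)).det = f x := by
    intro x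
    rw [Matrix.det_fin_three]
    simp only [Matrix.sub_apply, Matrix.smul_apply, smul_eq_mul, Matrix.one_apply, hf]
    simp
    ring
  have hcont : Continuous f := by
    rw [hf]; fun_prop
  have herr : ∀ x, |x - a| ≤ τ → |f x - (a - x) * (b - x) * (c - x)| ≤ 11 * D * η ^ 2 := by
    intro x hx
    have o01 := hoff 0 1 (by decide)
    have o10 := hoff 1 0 (by decide)
    have o02 := hoff 0 2 (by decide)
    have o20 := hoff 2 0 (by decide)
    have o12 := hoff 1 2 (by decide)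
    have o21 := hoff 2 1 (by decide)
    have hx' : |x| ≤ D + 1 := by
      have : |x| ≤ |x - a| + |a| := by
        have := abs_add_le (x - a) a
        rwa [sub_add_cancel] at this
      have h3 := hdiag 0
      linarith
    have q : ∀ y, |y| ≤ D → |y - x| ≤ 3 * D := fun y hy => (abs_sub _ _).trans (by linarith)
    have r1 := prod3 hη (by linarith : (0:ℝ) ≤ 3 * D) o12 o21 (q a (hdiag 0))
    have r2 := prod3 hη (by linarith : (0:ℝ) ≤ 3 * D) o02 o20 (q b (hdiag 1))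
    have r3 := prod3 hη (by linarith : (0:ℝ) ≤ 3 * D) o01 o10 (q c (hdiag 2))
    have r4 := prod3 hη (by linarith : (0:ℝ) ≤ 1) o12 o20 (o01.trans hη1)
    have r5 := prod3 hη (by linarith : (0:ℝ) ≤ 1) o10 o21 (o02.trans hη1)
    have hη2 : η ^ 2 ≤ D * η ^ 2 := by nlinarith [sq_nonneg η]
    have e : f x - (a - x) * (b - x) * (c - x) = -((a - x) * Γ 1 2 * Γ 2 1)
      - (b - x) * Γ 0 2 * Γ 2 0 - (c - x) * Γ 0 1 * Γ 1 0 + Γ 0 1 * Γ 1 2 * Γ 2 0
      + Γ 0 2 * Γ 1 0 * Γ 2 1 := by rw [hf]; ring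
    rw [e]
    rw [abs_le] at r1 r2 r3 r4 r5 ⊢
    constructor
    · linarith [r1.1, r1.2, r2.1, r2.2, r3.1, r3.2, r4.1, r4.2, r5.1, r5.2]
    · linarith [r1.1, r1.2, r2.1, r2.2, r3.1, r3.2, r4.1, r4.2, r5.1, r5.2]
  -- the product of the two other factors does not change sign
  have hfac : ∀ b : ℝ, σ ≤ |a - b| → (∀ x, |x - a| ≤ τ → σ / 2 ≤ b - x) ∨
      (∀ x, |x - a| ≤ τ → b - x ≤ -(σ / 2)) := by
    intro b hb
    rcases le_total 0 (a - b) with h | h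
    · right
      rw [abs_of_nonneg h] at hb
      intro x hx
      rw [abs_le] at hx
      linarith [hx.1, hx.2]
    · left
      rw [abs_of_nonpos h] at hb
      intro x hx
      rw [abs_le] at hx
      linarith [hx.1, hx.2]
  have hsign : (∀ x, |x - a| ≤ τ → (σ / 2) ^ 2 ≤ (b - x) * (c - x)) ∨
      (∀ x, |x - a| ≤ τ → (b - x) * (c - x) ≤ -(σ / 2) ^ 2) := by
    rcases hfac b h1 with hb | hb <;> rcases hfac c h2 with hc | hc
    · left; intro x hx; nlinarith [hb x hx, hc x hx]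
    · right; intro x hx; nlinarith [hb x hx, hc x hx]
    · right; intro x hx; nlinarith [hb x hx, hc x hx]
    · left; intro x hx; nlinarith [hb x hx, hc x hx]
  have hm : |(a - τ) - a| ≤ τ := by
    rw [show (a - τ) - a = -τ by ring, abs_neg, abs_of_pos hτ]
  have hp : |(a + τ) - a| ≤ τ := by
    rw [show (a + τ) - a = τ by ring, abs_of_pos hτ]
  have em := herr _ hm
  have ep := herr _ hp
  have e1 : (a - (a - τ)) * (b - (a - τ)) * (c - (a - τ)) =
    τ * ((b - (a - τ)) * (c - (a - τ))) := by ring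
  have e2 : (a - (a + τ)) * (b - (a + τ)) * (c - (a + τ)) =
    -(τ * ((b - (a + τ)) * (c - (a + τ)))) := by ring
  rw [e1, abs_le] at em
  rw [e2, abs_le] at ep
  have hle : a - τ ≤ a + τ := by linarith
  rcases hsign with hs | hs
  · have s1 := mul_le_mul_of_nonneg_left (hs _ hm) hτ.le
    have s2 := mul_le_mul_of_nonneg_left (hs _ hp) hτ.le
    have f1 : 0 ≤ f (a - τ) := by linarith [em.1]
    have f2 : f (a + τ) ≤ 0 := by linarith [ep.2]
    obtain ⟨x, hx, hfx⟩ := intermediate_value_Icc' hle hcont.continuousOn ⟨f2, f1⟩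
    refine ⟨x, ?_, by rw [hdet, hfx]⟩
    rw [abs_le]; constructor <;> linarith [hx.1, hx.2]
  · have s1 := mul_le_mul_of_nonneg_left (hs _ hm) hτ.le
    have s2 := mul_le_mul_of_nonneg_left (hs _ hp) hτ.le
    have f1 : f (a - τ) ≤ 0 := by linarith [em.2]
    have f2 : 0 ≤ f (a + τ) := by linarith [ep.1]
    obtain ⟨x, hx, hfx⟩ := intermediate_value_Icc hle hcont.continuousOn ⟨f1, f2⟩
    refine ⟨x, ?_, by rw [hdet, hfx]⟩
    rw [abs_le]; constructor <;> linarith [hx.1, hx.2]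

/-- the eigenvector is close to the first axis -/
lemma eigenvector_near {Γ : Matrix (Fin 3) (Fin 3) ℝ} {η σ τ ν κ : ℝ} (hη : 0 ≤ η)
    (hτσ : τ ≤ σ / 2) (hoff : ∀ i j, i ≠ j → |Γ i j| ≤ η)
    (h1 : σ ≤ |Γ 0 0 - Γ 1 1|) (h2 : σ ≤ |Γ 0 0 - Γ 2 2|) (hν : |ν - Γ 0 0| ≤ τ)
    (hησ : η ≤ σ / 4) (hκ : 4 * η ≤ κ * σ) (hσ : 0 < σ)
    (hdet : (Γ - ν • (1 : Matrix (Fin 3) (Fin 3) ℝ)).det = 0) :
    ∃ y : Fin 3 → ℝ, y 0 = 1 ∧ |y 1| ≤ κ ∧ |y 2| ≤ κ ∧ Γ.mulVec y = ν • y := by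
  obtain ⟨y, hy0, hy⟩ := Matrix.exists_mulVec_eq_zero_iff.2 hdet
  have hyΓ : Γ.mulVec y = ν • y := by
    rw [Matrix.sub_mulVec, Matrix.smul_mulVec, Matrix.one_mulVec, sub_eq_zero] at hy
    exact hy
  have r1 := congrFun hyΓ 1
  have r2 := congrFun hyΓ 2
  simp only [Matrix.mulVec, dotProduct, Fin.sum_univ_three, Pi.smul_apply, smul_eq_mul] at r1 r2
  have o10 := hoff 1 0 (by decide)
  have o12 := hoff 1 2 (by decide)
  have o20 := hoff 2 0 (by decide)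
  have o21 := hoff 2 1 (by decide)
  have d1 : σ / 2 ≤ |Γ 1 1 - ν| := by
    have : |Γ 0 0 - Γ 1 1| ≤ |Γ 1 1 - ν| + |ν - Γ 0 0| := by
      rw [← abs_neg (Γ 1 1 - ν), ← abs_neg (ν - Γ 0 0)]
      have := abs_add_le (-(Γ 1 1 - ν)) (-(ν - Γ 0 0))
      rwa [show -(Γ 1 1 - ν) + -(ν - Γ 0 0) = Γ 0 0 - Γ 1 1 by ring] at this
    linarith
  have d2 : σ / 2 ≤ |Γ 2 2 - ν| := by
    have : |Γ 0 0 - Γ 2 2| ≤ |Γ 2 2 - ν| + |ν - Γ 0 0| := by
      rw [← abs_neg (Γ 2 2 - ν), ← abs_neg (ν - Γ 0 0)]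
      have := abs_add_le (-(Γ 2 2 - ν)) (-(ν - Γ 0 0))
      rwa [show -(Γ 2 2 - ν) + -(ν - Γ 0 0) = Γ 0 0 - Γ 2 2 by ring] at this
    linarith
  set m := max |y 1| |y 2| with hm
  have hm1 : |y 1| ≤ m := le_max_left _ _
  have hm2 : |y 2| ≤ m := le_max_right _ _
  have hm0 : 0 ≤ m := (abs_nonneg _).trans hm1
  have k1 : σ / 2 * |y 1| ≤ η * |y 0| + η * m := by
    have e : (Γ 1 1 - ν) * y 1 = -(Γ 1 0 * y 0) - Γ 1 2 * y 2 := by linarith
    calc σ / 2 * |y 1| ≤ |Γ 1 1 - ν| * |y 1| := mul_le_mul_of_nonneg_right d1 (abs_nonneg _)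
      _ = |-(Γ 1 0 * y 0) - Γ 1 2 * y 2| := by rw [← abs_mul, e]
      _ ≤ |-(Γ 1 0 * y 0)| + |Γ 1 2 * y 2| := abs_sub _ _
      _ ≤ η * |y 0| + η * m := by
          rw [abs_neg, abs_mul, abs_mul]
          exact add_le_add (mul_le_mul_of_nonneg_right o10 (abs_nonneg _))
            (mul_le_mul o12 hm2 (abs_nonneg _) hη)
  have k2 : σ / 2 * |y 2| ≤ η * |y 0| + η * m := by
    have e : (Γ 2 2 - ν) * y 2 = -(Γ 2 0 * y 0) - Γ 2 1 * y 1 := by linarith
    calc σ / 2 * |y 2| ≤ |Γ 2 2 - ν| * |y 2| := mul_le_mul_of_nonneg_right d2 (abs_nonneg _)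
      _ = |-(Γ 2 0 * y 0) - Γ 2 1 * y 1| := by rw [← abs_mul, e]
      _ ≤ |-(Γ 2 0 * y 0)| + |Γ 2 1 * y 1| := abs_sub _ _
      _ ≤ η * |y 0| + η * m := by
          rw [abs_neg, abs_mul, abs_mul]
          exact add_le_add (mul_le_mul_of_nonneg_right o20 (abs_nonneg _))
            (mul_le_mul o21 hm1 (abs_nonneg _) hη)
  have k3 : σ / 2 * m ≤ η * |y 0| + η * m := by
    rcases max_choice |y 1| |y 2| with h | h
    · rw [← hm] at h; rw [h] at k1 ⊢; exact k1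
    · rw [← hm] at h; rw [h] at k2 ⊢; exact k2
  have k4 : σ / 4 * m ≤ η * |y 0| := by
    have : η * m ≤ σ / 4 * m := mul_le_mul_of_nonneg_right hησ hm0
    linarith
  have hy00 : y 0 ≠ 0 := by
    intro h0
    rw [h0, abs_zero, mul_zero] at k4
    have hm00 : m = 0 := by
      by_contra hne
      have : 0 < m := lt_of_le_of_ne hm0 (Ne.symm hne)
      have : 0 < σ / 4 * m := by positivity
      linarith
    apply hy0
    ext i
    have hcases : ∀ i : Fin 3, i = 0 ∨ i = 1 ∨ i = 2 := by decide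
    rcases hcases i with h | h | h <;> rw [h]
    · exact h0
    · have : |y 1| ≤ 0 := hm1.trans hm00.le
      exact abs_nonpos_iff.1 this
    · have : |y 2| ≤ 0 := hm2.trans hm00.le
      exact abs_nonpos_iff.1 this
  have hy0p : 0 < |y 0| := abs_pos.2 hy00
  have hmκ : m ≤ κ * |y 0| := by
    have h5 : 4 * η * |y 0| ≤ κ * σ * |y 0| := mul_le_mul_of_nonneg_right hκ hy0p.le
    have h6 : σ * m ≤ σ * (κ * |y 0|) := by
      have : σ * m = 4 * (σ / 4 * m) := by ring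
      have h8 : σ * (κ * |y 0|) = κ * σ * |y 0| := by ring
      linarith
    exact le_of_mul_le_mul_left h6 hσ
  refine ⟨(y 0)⁻¹ • y, by simp [hy00], ?_, ?_, ?_⟩
  · rw [Pi.smul_apply, smul_eq_mul, abs_mul, abs_inv, inv_mul_le_iff₀ hy0p]
    linarith
  · rw [Pi.smul_apply, smul_eq_mul, abs_mul, abs_inv, inv_mul_le_iff₀ hy0p]
    linarith
  · rw [Matrix.mulVec_smul, hyΓ, smul_comm]

lemma crd_inj {α β : ℝ} {z : ℝ × ℝ} {x x' : Fin 3 → ℝ}
    (h : ∀ i, crd α β z x i = crd α β z x' i) : x = x' := by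
  have h1 : (H α β).mulVec x = (H α β).mulVec x' := by
    ext i
    have := h i
    rw [crd, crd] at this
    exact mul_left_cancel₀ (exp_ne_zero _) this
  have h2 : (H α β).mulVec ((H α β).mulVec x) = (H α β).mulVec ((H α β).mulVec x') := by rw [h1]
  rwa [Matrix.mulVec_mulVec, Matrix.mulVec_mulVec, H_mul_H, Matrix.one_mulVec,
    Matrix.one_mulVec] at h2

/-- a near return gives an approximation by a pair in a cubic field -/
theorem near_approx {α β N M δ C c : ℝ} (S : Setup α β N M δ C c) {u₀ : ℝ × ℝ}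
    {γ : Matrix (Fin 3) (Fin 3) ℤ} (h : NearReturn α β N u₀ γ) :
    ∃ α' β' ν : ℝ, act γ ![1, α', β'] = ν • ![1, α', β'] ∧
      |α - α'| ≤ exp (-(2 * u₀.1 + u₀.2 + 3 * N / 2)) ∧
      |β - β'| ≤ exp (-(u₀.1 + 2 * u₀.2 + 3 * N / 2)) := by
  have hN := S.Npos
  have hnear := h.near S.Npos S.E1000 (z := mid N u₀) (by simp only [mid]; linarith)
    (by simp only [mid]; linarith) (by simp only [mid]; linarith) (by simp only [mid]; linarith)
  set E := exp (N / 36) with hE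
  have hE1000 : 1000 ≤ E := S.E1000
  have hE0 : 0 < E := exp_pos _
  have hE1 : 1 ≤ E := by linarith
  have hη0 : 0 ≤ (E ^ 21)⁻¹ := by positivity
  have hη1 : (E ^ 21)⁻¹ ≤ 1 := inv_le_one_of_one_le₀ (one_le_pow₀ hE1)
  have hD1 : 1 ≤ E ^ 4 := one_le_pow₀ hE1
  have hsep := hnear.sep hη0 hD1 hη1 (small_sep hE1000)
  set σ := 1 / (8 * (E ^ 4) ^ 2) with hσ
  have hσ0 : 0 < σ := by positivity
  set τ := (E ^ 20)⁻¹ with hτ
  have hτ0 : 0 < τ := by positivity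
  have hτσ : τ ≤ σ / 2 := by
    rw [hτ, hσ, div_div, inv_eq_one_div]
    apply one_div_le_one_div_of_le (by positivity)
    calc 8 * (E ^ 4) ^ 2 * 2 = 16 * E ^ 8 := by ring
      _ ≤ E * E ^ 8 := mul_le_mul_of_nonneg_right (by linarith) (by positivity)
      _ = E ^ 9 := by ring
      _ ≤ E ^ 20 := pow_le_pow_right₀ hE1 (by norm_num)
  have hbig : 11 * E ^ 4 * ((E ^ 21)⁻¹) ^ 2 < τ * (σ / 2) ^ 2 := by
    have e1 : 11 * E ^ 4 * ((E ^ 21)⁻¹) ^ 2 = 11 / E ^ 38 := by field_simp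
    have e2 : τ * (σ / 2) ^ 2 = 1 / (256 * E ^ 36) := by
      rw [hτ, hσ]; field_simp; norm_num
    rw [e1, e2, div_lt_div_iff₀ (by positivity) (by positivity)]
    have h4 : 2816 < E ^ 2 := by nlinarith
    calc 11 * (256 * E ^ 36) = 2816 * E ^ 36 := by ring
      _ < E ^ 2 * E ^ 36 := mul_lt_mul_of_pos_right h4 (by positivity)
      _ = 1 * E ^ 38 := by ring
  have hησ : (E ^ 21)⁻¹ ≤ σ / 4 := by
    rw [hσ, div_div, inv_eq_one_div]
    apply one_div_le_one_div_of_le (by positivity)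
    calc 8 * (E ^ 4) ^ 2 * 4 = 32 * E ^ 8 := by ring
      _ ≤ E * E ^ 8 := mul_le_mul_of_nonneg_right (by linarith) (by positivity)
      _ = E ^ 9 := by ring
      _ ≤ E ^ 21 := pow_le_pow_right₀ hE1 (by norm_num)
  have hκ : 4 * (E ^ 21)⁻¹ ≤ 1 * σ := by linarith
  obtain ⟨ν, hν, hdet⟩ := exists_root_near hη0 hη1 hD1 hτ0
    (inv_le_one_of_one_le₀ (one_le_pow₀ hE1)) hτσ hnear.off hnear.diag (hsep 0 1 (by decide))
    (hsep 0 2 (by decide)) hbig
  obtain ⟨y, hy0, hy1, hy2, hy⟩ := eigenvector_near hη0 hτσ hnear.off (hsep 0 1 (by decide))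
    (hsep 0 2 (by decide)) hν hησ hκ hσ0 hdet
  set z := mid N u₀ with hz
  refine ⟨α - exp (wt z 0 - wt z 1) * y 1, β - exp (wt z 0 - wt z 2) * y 2, ν, ?_, ?_, ?_⟩
  · set w : Fin 3 → ℝ := ![1, α - exp (wt z 0 - wt z 1) * y 1,
      β - exp (wt z 0 - wt z 2) * y 2] with hw
    have w0 : w 0 = 1 := rfl
    have w1 : w 1 = α - exp (wt z 0 - wt z 1) * y 1 := rfl
    have w2 : w 2 = β - exp (wt z 0 - wt z 2) * y 2 := rfl
    have hcw : ∀ i, crd α β z w i = exp (wt z 0) * y i := by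
      intro i
      have hcases : ∀ i : Fin 3, i = 0 ∨ i = 1 ∨ i = 2 := by decide
      rcases hcases i with h | h | h <;> rw [h]
      · rw [crd_zero, hy0, w0, wt_zero]
      · rw [crd_one, w0, w1]
        have e1 : exp z.1 * exp (wt z 0 - wt z 1) = exp (wt z 0) := by
          rw [← exp_add, wt_one]; congr 1; ring
        linear_combination (y 1) * e1
      · rw [crd_two, w0, w2]
        have e1 : exp z.2 * exp (wt z 0 - wt z 2) = exp (wt z 0) := by
          rw [← exp_add, wt_two]; congr 1; ring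
        linear_combination (y 2) * e1
    rw [act_eq]
    apply crd_inj (α := α) (β := β) (z := z)
    intro i
    rw [crd_mulVec]
    have e2 : ∀ j, fr α β z (rm γ) i j * crd α β z w j =
        exp (wt z 0) * (fr α β z (rm γ) i j * y j) := fun j => by rw [hcw]; ring
    rw [Finset.sum_congr rfl fun j _ => e2 j, ← Finset.mul_sum]
    have e3 := congrFun hy i
    simp only [Matrix.mulVec, dotProduct, Pi.smul_apply, smul_eq_mul] at e3
    rw [e3]
    have e4 : crd α β z (ν • w) i = ν * crd α β z w i := by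
      rw [crd, crd, Matrix.mulVec_smul, Pi.smul_apply, smul_eq_mul]; ring
    rw [e4, hcw]
    ring
  · rw [show α - (α - exp (wt z 0 - wt z 1) * y 1) = exp (wt z 0 - wt z 1) * y 1 by ring, abs_mul,
      abs_of_pos (exp_pos _)]
    calc exp (wt z 0 - wt z 1) * |y 1| ≤ exp (wt z 0 - wt z 1) * 1 :=
          mul_le_mul_of_nonneg_left hy1 (exp_pos _).le
      _ ≤ _ := by
          rw [mul_one, wt_zero, wt_one]
          apply exp_le_exp.2
          simp only [hz, mid]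
          linarith
  · rw [show β - (β - exp (wt z 0 - wt z 2) * y 2) = exp (wt z 0 - wt z 2) * y 2 by ring, abs_mul,
      abs_of_pos (exp_pos _)]
    calc exp (wt z 0 - wt z 2) * |y 2| ≤ exp (wt z 0 - wt z 2) * 1 :=
          mul_le_mul_of_nonneg_left hy2 (exp_pos _).le
      _ ≤ _ := by
          rw [mul_one, wt_zero, wt_two]
          apply exp_le_exp.2
          simp only [hz, mid]
          linarith

theorem near_cubic {α β N M δ C c : ℝ} (S : Setup α β N M δ C c) {u₀ : ℝ × ℝ}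
    (hu : InRegion N M u₀) {γ : Matrix (Fin 3) (Fin 3) ℤ} (h : NearReturn α β N u₀ γ) :
    Irreducible (γ.charpoly.map (Int.castRingHom ℚ)) ∧ 0 < γ.discr ∧
    ∃ α' β' ν : ℝ, CommonCubic α' β' ∧ act γ ![1, α', β'] = ν • ![1, α', β'] ∧
      |α - α'| ≤ exp (-(2 * u₀.1 + u₀.2 + 3 * N / 2)) ∧
      |β - β'| ≤ exp (-(u₀.1 + 2 * u₀.2 + 3 * N / 2)) := by
  obtain ⟨hirr, hdis⟩ := near_irreducible S hu h
  obtain ⟨α', β', ν, he, h1, h2⟩ := near_approx S h
  refine ⟨hirr, hdis, α', β', ν, ?_, he, h1, h2⟩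
  have e0 := congrFun he 0
  have e1 := congrFun he 1
  have e2 := congrFun he 2
  simp only [act, Matrix.mulVec, dotProduct, Fin.sum_univ_three, Matrix.map_apply,
    Matrix.cons_val_zero, Matrix.cons_val_one, Pi.smul_apply, smul_eq_mul] at e0 e1 e2
  have a2 : (![1, α', β'] : Fin 3 → ℝ) 2 = β' := rfl
  rw [a2] at e0 e1 e2
  refine commonCubic_of_eigen (μ := ν) hirr ?_ ?_ ?_
  · linarith
  · linarith
  · linarith

end Pool.Agent.H6.LW
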