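import Pool.Agent.H6.LW.Frame

open Real Matrix

namespace Pool.Agent.H6.LW

/-- integer vector as a real vector -/
def cv (v : Fin 3 → ℤ) : Fin 3 → ℝ := fun i => (v i : ℝ)

lemma cv_sub (v w : Fin 3 → ℤ) : cv (v - w) = cv v - cv w := by
  ext i; simp [cv]

lemma cv_neg (v : Fin 3 → ℤ) : cv (-v) = -cv v := by
  ext i; simp [cv]

lemma prod_lower {α β : ℝ} (h : ¬ LittlewoodFor α β) :
    ∃ c : ℝ, 0 < c ∧ ∀ Q : ℝ, LowUpTo α β c Q := by
  unfold LittlewoodFor at h
  push Not at h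
  obtain ⟨ε, hε, N, hN⟩ := h
  set m : ℕ := N + 1 with hm
  have hm0 : (0 : ℝ) < m := by positivity
  refine ⟨ε / (m : ℝ) ^ 3, by positivity, ?_⟩
  intro Q q hq _ p r
  have h1 := hN (m * q) (by nlinarith) (Nat.mul_pos (by omega) hq)
  have h2 := round_le (((m * q : ℕ) : ℝ) * α) (m * p)
  have h3 := round_le (((m * q : ℕ) : ℝ) * β) (m * r)
  have e2 : |((m * q : ℕ) : ℝ) * α - ((m * p : ℤ) : ℝ)| = m * |(q : ℝ) * α - p| := by
    have e : ((m * q : ℕ) : ℝ) * α - ((m * p : ℤ) : ℝ) = m * ((q : ℝ) * α - p) := by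
      push_cast; ring
    rw [e, abs_mul, abs_of_pos hm0]
  have e3 : |((m * q : ℕ) : ℝ) * β - ((m * r : ℤ) : ℝ)| = m * |(q : ℝ) * β - r| := by
    have e : ((m * q : ℕ) : ℝ) * β - ((m * r : ℤ) : ℝ) = m * ((q : ℝ) * β - r) := by
      push_cast; ring
    rw [e, abs_mul, abs_of_pos hm0]
  rw [e2] at h2
  rw [e3] at h3
  rw [div_le_iff₀ (by positivity)]
  calc ε ≤ _ := h1
    _ ≤ ((m * q : ℕ) : ℝ) * (m * |(q : ℝ) * α - p|) * (m * |(q : ℝ) * β - r|) := by
        apply mul_le_mul _ h3 (abs_nonneg _) (by positivity)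
        exact mul_le_mul_of_nonneg_left h2 (Nat.cast_nonneg _)
    _ = _ := by push_cast; ring

lemma size_neg (α β : ℝ) (u : ℝ × ℝ) (x : Fin 3 → ℝ) : size α β u (-x) = size α β u x := by
  rw [size, size]
  congr 2
  · simp
  · rw [show (-x) 0 * α - (-x) 1 = -(x 0 * α - x 1) by simp [Pi.neg_apply]; ring, abs_neg]
  · rw [show (-x) 0 * β - (-x) 2 = -(x 0 * β - x 2) by simp [Pi.neg_apply]; ring, abs_neg]

lemma delta_low {α β c Q : ℝ} (hc : 0 < c) (hcq : LowUpTo α β c Q) :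
    ∀ v : Fin 3 → ℤ, v ≠ 0 → ∀ u : ℝ × ℝ, 0 ≤ u.1 → 0 ≤ u.2 → exp (u.1 + u.2) ≤ Q →
      min 1 c ≤ size α β u (cv v) := by
  -- positive first coordinate
  have key : ∀ v : Fin 3 → ℤ, 0 < v 0 → ∀ u : ℝ × ℝ, exp (u.1 + u.2) ≤ Q →
      min 1 c ≤ size α β u (cv v) := by
    intro v hv u huQ
    by_contra hlt
    push Not at hlt
    set d := min 1 c with hd
    have hd0 : 0 < d := by positivity
    have hd1 : d ≤ 1 := min_le_left _ _
    have hdc : d ≤ c := min_le_right _ _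
    obtain ⟨q, hq⟩ := Int.eq_ofNat_of_zero_le hv.le
    have hq0 : 0 < q := by omega
    have s0 := (crd_le_size α β u (cv v) 0).trans_lt hlt
    have s1 := (crd_le_size α β u (cv v) 1).trans_lt hlt
    have s2 := (crd_le_size α β u (cv v) 2).trans_lt hlt
    rw [crd_zero, abs_mul, abs_of_pos (exp_pos _)] at s0
    rw [crd_one, abs_mul, abs_of_pos (exp_pos _)] at s1
    rw [crd_two, abs_mul, abs_of_pos (exp_pos _)] at s2
    have e0 : (cv v) 0 = (q : ℝ) := by simp [cv, hq]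
    rw [e0] at s0 s1 s2
    have e1 : (cv v) 1 = ((v 1 : ℤ) : ℝ) := rfl
    have e2 : (cv v) 2 = ((v 2 : ℤ) : ℝ) := rfl
    rw [e1] at s1
    rw [e2] at s2
    have hqQ : (q : ℝ) ≤ Q := by
      rw [abs_of_nonneg (show (0:ℝ) ≤ (q : ℝ) from Nat.cast_nonneg q), exp_neg, inv_mul_eq_div,
        div_lt_iff₀ (exp_pos _)] at s0
      have := exp_pos (u.1 + u.2)
      nlinarith
    have h1 := hcq q hq0 hqQ (v 1) (v 2)
    have hE : exp (-(u.1 + u.2)) * exp u.1 * exp u.2 = 1 := by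
      rw [← exp_add, ← exp_add]
      simp
    have hprod : (q : ℝ) * |(q : ℝ) * α - (v 1 : ℤ)| * |(q : ℝ) * β - (v 2 : ℤ)|
        = (exp (-(u.1 + u.2)) * |(q : ℝ)|) * (exp u.1 * |(q : ℝ) * α - (v 1 : ℤ)|) *
          (exp u.2 * |(q : ℝ) * β - (v 2 : ℤ)|) := by
      rw [abs_of_nonneg (show (0:ℝ) ≤ (q : ℝ) from Nat.cast_nonneg q)]
      linear_combination (-((q : ℝ) * |(q : ℝ) * α - (v 1 : ℤ)| * |(q : ℝ) * β - (v 2 : ℤ)|)) * hE
    have hlt3 : (exp (-(u.1 + u.2)) * |(q : ℝ)|) * (exp u.1 * |(q : ℝ) * α - (v 1 : ℤ)|) *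
          (exp u.2 * |(q : ℝ) * β - (v 2 : ℤ)|) < d * d * d := by
      apply mul_lt_mul'' _ s2 (by positivity) (by positivity)
      exact mul_lt_mul'' s0 s1 (by positivity) (by positivity)
    rw [hprod] at h1
    have : d * d * d ≤ d := by
      have : d * d ≤ 1 := by nlinarith
      nlinarith
    linarith
  intro v hv u hu1 hu2 huQ
  rcases lt_trichotomy (v 0) 0 with h0 | h0 | h0
  · have := key (-v) (by simpa using h0) u huQ
    rwa [cv_neg, size_neg] at this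
  · refine (min_le_left _ _).trans ?_
    by_cases h1 : v 1 = 0
    · have h2 : v 2 ≠ 0 := by
        intro h2
        apply hv
        ext i
        fin_cases i
        · exact h0
        · exact h1
        · exact h2
      have hc := crd_le_size α β u (cv v) 2
      rw [crd_two, abs_mul, abs_of_pos (exp_pos _)] at hc
      have e : |cv v 0 * β - cv v 2| = |((v 2 : ℤ) : ℝ)| := by
        simp [cv, h0]
      rw [e] at hc
      have h3 : (1 : ℝ) ≤ |((v 2 : ℤ) : ℝ)| := by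
        rw [← Int.cast_abs]
        exact_mod_cast Int.one_le_abs h2
      have h4 : 1 ≤ exp u.2 := one_le_exp hu2
      nlinarith
    · have hc := crd_le_size α β u (cv v) 1
      rw [crd_one, abs_mul, abs_of_pos (exp_pos _)] at hc
      have e : |cv v 0 * α - cv v 1| = |((v 1 : ℤ) : ℝ)| := by
        simp [cv, h0]
      rw [e] at hc
      have h3 : (1 : ℝ) ≤ |((v 1 : ℤ) : ℝ)| := by
        rw [← Int.cast_abs]
        exact_mod_cast Int.one_le_abs h1
      have h4 : 1 ≤ exp u.1 := one_le_exp hu1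
      nlinarith
  · exact key v h0 u huQ

/-- the linear functional `a` in the coordinates at `u` -/
noncomputable def cof (α β : ℝ) (u : ℝ × ℝ) (a : Fin 3 → ℝ) (i : Fin 3) : ℝ :=
  exp (-wt u i) * (Matrix.vecMul a (H α β)) i

lemma cof_sum (α β : ℝ) (u : ℝ × ℝ) (a x : Fin 3 → ℝ) :
    ∑ i, cof α β u a i * crd α β u x i = ∑ i, a i * x i := by
  have h1 : ∀ i, cof α β u a i * crd α β u x i =
      (Matrix.vecMul a (H α β)) i * ((H α β).mulVec x) i := fun i => by
    rw [cof, crd, exp_neg]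
    have := exp_ne_zero (wt u i)
    field_simp
  rw [Finset.sum_congr rfl fun i _ => h1 i]
  change Matrix.vecMul a (H α β) ⬝ᵥ (H α β).mulVec x = a ⬝ᵥ x
  rw [← Matrix.dotProduct_mulVec, Matrix.mulVec_mulVec, H_mul_H, Matrix.one_mulVec]

lemma cof_ne {α β : ℝ} {u : ℝ × ℝ} {a : Fin 3 → ℝ} (ha : a ≠ 0) :
    ∃ k, cof α β u a k ≠ 0 := by
  by_contra hall
  push Not at hall
  apply ha
  have h1 : Matrix.vecMul a (H α β) = 0 := by
    ext i
    have := hall i
    rw [cof] at this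
    rcases mul_eq_zero.1 this with h | h
    · exact absurd h (exp_ne_zero _)
    · exact h
  have h2 : Matrix.vecMul (Matrix.vecMul a (H α β)) (H α β) = 0 := by
    rw [h1, Matrix.zero_vecMul]
  rwa [Matrix.vecMul_vecMul, H_mul_H, Matrix.vecMul_one] at h2

lemma sum_cyc (f : Fin 3 → ℝ) (k : Fin 3) : ∑ i, f i = f k + f (k + 1) + f (k + 2) := by
  fin_cases k
  · simp [Fin.sum_univ_three]
  · simp [Fin.sum_univ_three]
    ring
  · simp [Fin.sum_univ_three]
    ring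

lemma cases_cyc (P : Fin 3 → Prop) (k : Fin 3) (h0 : P k) (h1 : P (k + 1)) (h2 : P (k + 2)) :
    ∀ i, P i := by
  intro i
  fin_cases k <;> fin_cases i <;> first | exact h0 | exact h1 | exact h2

end Pool.Agent.H6.LW
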