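import Pool.Agent.H6.LW.Struct

open Real Matrix Polynomial

namespace Pool.Agent.H6.LW

/-- a pair whose vector `(1, α, β)` is an eigenvector of an integer matrix with irreducible
characteristic polynomial lies in one cubic field -/
theorem commonCubic_of_eigen {α β μ : ℝ} {γ : Matrix (Fin 3) (Fin 3) ℤ}
    (hirr : Irreducible (γ.charpoly.map (Int.castRingHom ℚ)))
    (h0 : (γ 0 0 : ℝ) + α * γ 0 1 + β * γ 0 2 = μ)
    (h1 : (γ 1 0 : ℝ) + α * γ 1 1 + β * γ 1 2 = μ * α)
    (h2 : (γ 2 0 : ℝ) + α * γ 2 1 + β * γ 2 2 = μ * β) : CommonCubic α β := by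
  have hmon := γ.charpoly_monic
  have hdeg : γ.charpoly.natDegree = 3 := by
    rw [Matrix.charpoly_natDegree_eq_dim]; simp
  -- `μ` is a root
  have hroot : aeval μ (γ.charpoly.map (Int.castRingHom ℚ)) = 0 := by
    have e1 : aeval μ (γ.charpoly.map (Int.castRingHom ℚ)) =
        (rm γ).charpoly.eval μ := by
      have : (rm γ).charpoly = γ.charpoly.map (Int.castRingHom ℝ) := by
        rw [← Matrix.charpoly_map]
        rfl
      rw [this, Polynomial.eval_map, Polynomial.aeval_def, Polynomial.eval₂_map]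
      congr 1
    rw [e1, Matrix.eval_charpoly]
    have hex : ∃ w : Fin 3 → ℝ, w ≠ 0 ∧ (Matrix.scalar (Fin 3) μ - rm γ).mulVec w = 0 := by
      refine ⟨![1, α, β], ?_, ?_⟩
      · intro h
        have := congrFun h 0
        simp at this
      · ext i
        have hcases : ∀ i : Fin 3, i = 0 ∨ i = 1 ∨ i = 2 := by decide
        rcases hcases i with h | h | h <;> rw [h] <;>
        · simp [Matrix.mulVec, dotProduct, Fin.sum_univ_three, rm, Matrix.scalar_apply,
            Matrix.diagonal_apply]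
          linarith
    exact Matrix.exists_mulVec_eq_zero_iff.1 hex
  have hmonQ : (γ.charpoly.map (Int.castRingHom ℚ)).Monic := hmon.map _
  have hmin : γ.charpoly.map (Int.castRingHom ℚ) = minpoly ℚ μ :=
    minpoly.eq_of_irreducible_of_monic hirr hroot hmonQ
  have hmdeg : (minpoly ℚ μ).natDegree = 3 := by
    rw [← hmin, hmon.natDegree_map, hdeg]
  have hint : IsIntegral ℚ μ := ⟨_, hmonQ, hroot⟩
  -- the span of `1, α, β` is stable under `μ`
  set V : Submodule ℚ ℝ := Submodule.span ℚ ({1, α, β} : Set ℝ) with hV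
  have m1 : (1 : ℝ) ∈ V := Submodule.subset_span (by simp)
  have mα : α ∈ V := Submodule.subset_span (by simp)
  have mβ : β ∈ V := Submodule.subset_span (by simp)
  have comb : ∀ a b c : ℤ, (a : ℝ) + α * b + β * c ∈ V := by
    intro a b c
    have e : (a : ℝ) + α * b + β * c = (a : ℚ) • (1 : ℝ) + (b : ℚ) • α + (c : ℚ) • β := by
      simp only [Rat.smul_def]
      push_cast
      ring
    rw [e]
    exact V.add_mem (V.add_mem (V.smul_mem _ m1) (V.smul_mem _ mα)) (V.smul_mem _ mβ)
  have hstab : ∀ x ∈ V, μ * x ∈ V := by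
    intro x hx
    induction hx using Submodule.span_induction with
    | mem x hx =>
      rcases hx with h | h | h
      · rw [h, mul_one, ← h0]; exact comb _ _ _
      · rw [h, ← h1]; exact comb _ _ _
      · rw [h, ← h2]; exact comb _ _ _
    | zero => rw [mul_zero]; exact V.zero_mem
    | add x y _ _ hx hy => rw [mul_add]; exact V.add_mem hx hy
    | smul a x _ hx =>
      rw [mul_smul_comm]; exact V.smul_mem _ hx
  have hpow : ∀ k : ℕ, μ ^ k ∈ V := by
    intro k
    induction k with
    | zero => rw [pow_zero]; exact m1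
    | succ k ih => rw [pow_succ, mul_comm]; exact hstab _ ih
  set W : Submodule ℚ ℝ :=
    Subalgebra.toSubmodule (IntermediateField.adjoin ℚ {μ}).toSubalgebra with hW
  have hWV : W ≤ V := by
    intro x hx
    rw [hW, IntermediateField.adjoin_simple_toSubalgebra_of_isAlgebraic hint.isAlgebraic,
      Algebra.adjoin_singleton_eq_range_aeval] at hx
    obtain ⟨f, hf⟩ := hx
    have hf' : aeval μ f = x := hf
    rw [← hf', Polynomial.aeval_eq_sum_range]
    exact V.sum_mem fun k _ => V.smul_mem _ (hpow k)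
  have hfW : Module.finrank ℚ W = 3 := by
    have : Module.finrank ℚ (IntermediateField.adjoin ℚ {μ}) = 3 := by
      rw [IntermediateField.adjoin.finrank hint, hmdeg]
    exact this
  have hfV : Module.finrank ℚ V ≤ 3 := by
    have h3 : V = Submodule.span ℚ (({1, α, β} : Finset ℝ) : Set ℝ) := by
      rw [hV]; simp
    rw [h3]
    exact (finrank_span_finset_le_card _).trans Finset.card_le_three
  have hfin : Module.Finite ℚ V := by
    rw [hV]
    exact Module.Finite.span_of_finite ℚ (by simp)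
  have heq : W = V := Submodule.eq_of_le_of_finrank_le hWV (by rw [hfW]; exact hfV)
  refine ⟨μ, hmdeg, ?_, ?_⟩
  · have : α ∈ W := by rw [heq]; exact mα
    exact this
  · have : β ∈ W := by rw [heq]; exact mβ
    exact this

lemma exists_region {N : ℝ} {p : ℕ → ℝ × ℝ} (hp0 : ∀ n, 0 ≤ (p n).1 ∧ 0 ≤ (p n).2) (m : ℕ) :
    ∃ M, N ≤ M ∧ ∀ n, n ≤ m → InRegion N M (p n) := by
  refine ⟨N + ∑ k ∈ Finset.range (m + 1), ((p k).1 + (p k).2), ?_, ?_⟩
  · have : 0 ≤ ∑ k ∈ Finset.range (m + 1), ((p k).1 + (p k).2) :=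
      Finset.sum_nonneg fun k _ => add_nonneg (hp0 k).1 (hp0 k).2
    linarith
  · intro n hn
    have h1 : (p n).1 + (p n).2 ≤ ∑ k ∈ Finset.range (m + 1), ((p k).1 + (p k).2) :=
      Finset.single_le_sum (f := fun k => (p k).1 + (p k).2)
        (fun k _ => add_nonneg (hp0 k).1 (hp0 k).2) (Finset.mem_range.2 (by omega))
    have h2 := hp0 n
    exact ⟨⟨h2.1, by linarith [h2.2]⟩, h2.2, by linarith [h2.1]⟩

/-- unbounded chains of near returns only exist for pairs in one cubic field -/
theorem infinite_chain {α β N δ C c : ℝ} (S : ∀ M, N ≤ M → Setup α β N M δ C c)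
    {p : ℕ → ℝ × ℝ} (hp : IsChain (N / 8) p) (hp0 : ∀ n, 0 ≤ (p n).1 ∧ 0 ≤ (p n).2)
    (hunb : ∀ B : ℝ, ∃ n, B ≤ (p n).1 + (p n).2)
    (hcub : ¬ CommonCubic α β) : ∃ n, Good α β N (p n) := by
  by_contra hno
  unfold Good at hno
  push Not at hno
  choose G hG using hno
  have hN := (S N le_rfl).Npos
  have hoff : ∀ n i j, i ≠ j → |fr α β (mid N (p n)) (rm (G 0)) i j| ≤ 1 := fun n i j hij => by
    obtain ⟨M, hM, hreg⟩ := exists_region (N := N) hp0 n
    exact chain_off (S M hM) hp (γ := G) (m := n) hreg (fun k _ => hG k) n le_rfl i j hij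
  obtain ⟨-, -, -, x10, x20, -, -⟩ := X_entries α β (G 0)
  have hsmall : ∀ x : ℝ, (∀ B : ℝ, 0 ≤ B → |x| ≤ exp (-B)) → x = 0 := by
    intro x hx
    by_contra hne
    have hpos : 0 < |x| := abs_pos.2 hne
    have h1 := hx (max 0 (-log |x| + 1)) (le_max_left _ _)
    have h2 : exp (-(max 0 (-log |x| + 1))) ≤ exp (log |x| - 1) := by
      apply exp_le_exp.2
      have := le_max_right 0 (-log |x| + 1)
      linarith
    have h3 : exp (log |x| - 1) < |x| := by
      calc exp (log |x| - 1) < exp (log |x|) := exp_lt_exp.2 (by linarith)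
        _ = |x| := exp_log hpos
    linarith
  have hX10 : (H α β * rm (G 0) * H α β) 1 0 = 0 := by
    apply hsmall
    intro B _
    obtain ⟨n, hn⟩ := hunb B
    have hpn := hp0 n
    have k := hoff n 1 0 (by decide)
    rw [fr_apply] at k
    have k := exp_bound k
    rw [wt_zero, wt_one] at k
    simp only [mid] at k
    refine k.trans (exp_le_exp.2 ?_)
    linarith [hpn.1, hpn.2]
  have hX20 : (H α β * rm (G 0) * H α β) 2 0 = 0 := by
    apply hsmall
    intro B _
    obtain ⟨n, hn⟩ := hunb B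
    have hpn := hp0 n
    have k := hoff n 2 0 (by decide)
    rw [fr_apply] at k
    have k := exp_bound k
    rw [wt_zero, wt_two] at k
    simp only [mid] at k
    refine k.trans (exp_le_exp.2 ?_)
    linarith [hpn.1, hpn.2]
  rw [x10] at hX10
  rw [x20] at hX20
  apply hcub
  obtain ⟨M, hM, hreg⟩ := exists_region (N := N) hp0 0
  refine commonCubic_of_eigen (near_irreducible (S M hM) (hreg 0 le_rfl) (hG 0)).1 rfl ?_ ?_
  · linarith
  · linarith

end Pool.Agent.H6.LW
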