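import Mathlib

/-!
# Windows of the two-parameter diagonal orbit of a pair of reals
-/

open Real

namespace Pool.Agent.H6.LW

/-- Littlewood's statement for the pair `(α, β)`. -/
def LittlewoodFor (α β : ℝ) : Prop :=
  ∀ ε : ℝ, 0 < ε → ∀ N : ℕ, ∃ q : ℕ, N ≤ q ∧ 0 < q ∧
    (q : ℝ) * |(q : ℝ) * α - (round ((q : ℝ) * α) : ℝ)|
      * |(q : ℝ) * β - (round ((q : ℝ) * β) : ℝ)| < ε

/-- `q ‖qα‖ ‖qβ‖ ≥ c` for all integers `1 ≤ q ≤ Q`. -/
def LowUpTo (α β c Q : ℝ) : Prop :=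
  ∀ q : ℕ, 0 < q → (q : ℝ) ≤ Q → ∀ p r : ℤ, c ≤ (q : ℝ) * |(q : ℝ) * α - p| * |(q : ℝ) * β - r|

/-- The size of `x ∈ ℝ³` seen from the position `u = (t, s)`: the sup norm of
`(e^{-(t+s)} x₀, e^t (x₀ α - x₁), e^s (x₀ β - x₂))`. -/
noncomputable def size (α β : ℝ) (u : ℝ × ℝ) (x : Fin 3 → ℝ) : ℝ :=
  max (|x 0| * exp (-(u.1 + u.2)))
    (max (|x 0 * α - x 1| * exp u.1) (|x 0 * β - x 2| * exp u.2))

/-- An integer matrix acting on real vectors. -/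
noncomputable def act (γ : Matrix (Fin 3) (Fin 3) ℤ) (x : Fin 3 → ℝ) : Fin 3 → ℝ :=
  (γ.map (fun n : ℤ => (n : ℝ))).mulVec x

/-- The unimodular integer matrix `γ` identifies the window `u + [0,N]²` with the window
`u' + [0,N]²` up to the factor `K`: for all positions `w ∈ [0,N]²` and all vectors `x` the size
of `γ x` seen from `u' + w` and the size of `x` seen from `u + w` differ at most by the
factor `K`. -/
def Matches (α β N K : ℝ) (u u' : ℝ × ℝ) (γ : Matrix (Fin 3) (Fin 3) ℤ) : Prop :=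
  IsUnit γ.det ∧ ∀ w : ℝ × ℝ, 0 ≤ w.1 → w.1 ≤ N → 0 ≤ w.2 → w.2 ≤ N → ∀ x : Fin 3 → ℝ,
    size α β (u' + w) (act γ x) ≤ K * size α β (u + w) x ∧
    size α β (u + w) x ≤ K * size α β (u' + w) (act γ x)

/-- Distance of two positions: `log` of the factor by which the sizes seen from `u` and from `u'`
differ (attained for the identity matrix). -/
noncomputable def posDist (u u' : ℝ × ℝ) : ℝ :=
  max |u.1 - u'.1| (max |u.2 - u'.2| |(u.1 - u'.1) + (u.2 - u'.2)|)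

/-- `u` lies in the square `u₀ + [0,r]²`. -/
def InBox (u₀ : ℝ × ℝ) (r : ℝ) (u : ℝ × ℝ) : Prop :=
  (u₀.1 ≤ u.1 ∧ u.1 ≤ u₀.1 + r) ∧ (u₀.2 ≤ u.2 ∧ u.2 ≤ u₀.2 + r)

/-- A near return of size `N` in the box `u₀ + [0,N/36]²`: a unimodular integer matrix which
identifies the windows of size `N` based at two points of the box better, by a factor `10`, than
the identity matrix does. -/
def NearReturn (α β N : ℝ) (u₀ : ℝ × ℝ) (γ : Matrix (Fin 3) (Fin 3) ℤ) : Prop :=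
  ∃ (u u' : ℝ × ℝ) (K : ℝ), InBox u₀ (N / 36) u ∧ InBox u₀ (N / 36) u' ∧
    Matches α β N K u u' γ ∧ 10 * K ≤ exp (posDist u u')

/-- A good box: no near return of size `N`. -/
def Good (α β N : ℝ) (u₀ : ℝ × ℝ) : Prop := ∀ γ, ¬ NearReturn α β N u₀ γ

/-- The windows of size `N` based at `u₀` lie in `[0,M]²`. -/
def InRegion (N M : ℝ) (u₀ : ℝ × ℝ) : Prop :=
  (0 ≤ u₀.1 ∧ u₀.1 + N ≤ M) ∧ (0 ≤ u₀.2 ∧ u₀.2 + N ≤ M)

/-- `p` is a chain of positions with steps at most `r` in both coordinates. -/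
def IsChain (r : ℝ) (p : ℕ → ℝ × ℝ) : Prop :=
  ∀ n, |(p (n + 1)).1 - (p n).1| ≤ r ∧ |(p (n + 1)).2 - (p n).2| ≤ r

/-- `α` and `β` lie in a common cubic number field. -/
def CommonCubic (α β : ℝ) : Prop :=
  ∃ μ : ℝ, (minpoly ℚ μ).natDegree = 3 ∧ α ∈ IntermediateField.adjoin ℚ {μ} ∧
    β ∈ IntermediateField.adjoin ℚ {μ}

end Pool.Agent.H6.LW
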