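import Mathlib

/-!
# Discriminants of integer cubics with constant term `±1`
-/

namespace Pool.Agent.H6.LW

/-- discriminant of `x³ - A x² + B x - C` -/
def disc {R : Type*} [CommRing R] (A B C : R) : R :=
  A ^ 2 * B ^ 2 - 4 * B ^ 3 - 4 * A ^ 3 * C + 18 * A * B * C - 27 * C ^ 2

lemma disc_roots (a b c : ℝ) :
    disc (a + b + c) (a * b + a * c + b * c) (a * b * c) =
      ((a - b) * (a - c) * (b - c)) ^ 2 := by
  unfold disc; ring

/-- a rational integer cubic with `C = ±1` and discriminant zero has only roots `±1` -/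
lemma disc_zero {A B C : ℤ} (hC : C = 1 ∨ C = -1) (h : disc A B C = 0) :
    ∃ ρ σ : ℤ, (ρ = 1 ∨ ρ = -1) ∧ (σ = 1 ∨ σ = -1) ∧ A = 2 * ρ + σ ∧ B = ρ ^ 2 + 2 * ρ * σ ∧
      C = ρ ^ 2 * σ := by
  set M := A ^ 2 - 3 * B with hM
  set L := 2 * A ^ 3 - 9 * A * B + 27 * C with hL
  have h4 : 4 * M ^ 3 = L ^ 2 := by
    have : 4 * M ^ 3 - L ^ 2 = 27 * disc A B C := by
      rw [hM, hL]; unfold disc; ring
    rw [h, mul_zero] at this
    linarith
  -- L is even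
  obtain ⟨l, hl⟩ : ∃ l, L = 2 * l := by
    have : (2 : ℤ) ∣ L ^ 2 := ⟨2 * M ^ 3, by rw [← h4]; ring⟩
    exact (Int.prime_two.dvd_of_dvd_pow this)
  have h5 : M ^ 3 = l ^ 2 := by
    rw [hl] at h4
    nlinarith
  obtain ⟨m, hm, hml⟩ : ∃ m, M = m ^ 2 ∧ l = m ^ 3 := by
    by_cases hM0 : M = 0
    · refine ⟨0, by rw [hM0]; ring, ?_⟩
      rw [hM0] at h5
      have : l ^ 2 = 0 := by rw [← h5]; ring
      have := pow_eq_zero_iff (two_ne_zero) |>.1 this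
      rw [this]; ring
    · have hd : M ∣ l := by
        have : M ^ 2 ∣ l ^ 2 := ⟨M, by rw [← h5]; ring⟩
        exact (Int.pow_dvd_pow_iff two_ne_zero).1 this
      obtain ⟨k, hk⟩ := hd
      have h6 : M = k ^ 2 := by
        have h7 : M ^ 2 * M = M ^ 2 * k ^ 2 := by
          rw [hk] at h5
          linear_combination h5
        exact mul_left_cancel₀ (pow_ne_zero 2 hM0) h7
      refine ⟨k, h6, ?_⟩
      rw [hk, h6]; ring
  -- 27 C = (A + m)² (A - 2 m) or with -m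
  have h27 : 27 * C = (A - m) ^ 2 * (A + 2 * m) ∨ 27 * C = (A + m) ^ 2 * (A - 2 * m) := by
    -- L = 2 m³ and 3B = A² - m²
    have e1 : 3 * B = A ^ 2 - m ^ 2 := by rw [← hm, hM]; ring
    have e2 : 2 * A ^ 3 - 9 * A * B + 27 * C = 2 * m ^ 3 := by rw [← hL, hl, hml]
    left
    linear_combination e2 + 3 * A * e1
  have e1 : 3 * B = A ^ 2 - m ^ 2 := by rw [← hm, hM]; ring
  -- reduce to the first case by m ↦ -m
  have main : ∀ n : ℤ, 3 * B = A ^ 2 - n ^ 2 → 27 * C = (A - n) ^ 2 * (A + 2 * n) →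
      ∃ ρ σ : ℤ, (ρ = 1 ∨ ρ = -1) ∧ (σ = 1 ∨ σ = -1) ∧ A = 2 * ρ + σ ∧
        B = ρ ^ 2 + 2 * ρ * σ ∧ C = ρ ^ 2 * σ := by
    intro n hn1 hn2
    -- (A - n)^2 divides 27
    have hbound : (A - n) ^ 2 ≤ 27 := by
      have hdv : (A - n) ^ 2 ∣ 27 := by
        rcases hC with hC | hC
        · exact ⟨A + 2 * n, by rw [← hn2, hC]; ring⟩
        · exact ⟨-(A + 2 * n), by rw [mul_neg, ← hn2, hC]; ring⟩
      exact Int.le_of_dvd (by norm_num) hdv
    have hx : -5 ≤ A - n ∧ A - n ≤ 5 := by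
      constructor <;> nlinarith
    obtain ⟨x, hxx⟩ : ∃ x, A - n = x := ⟨_, rfl⟩
    have hy : ∃ y, A + 2 * n = y := ⟨_, rfl⟩
    obtain ⟨y, hyy⟩ := hy
    rw [hxx, hyy] at hn2
    rw [hxx] at hx
    have hn3 : 3 * n = y - x := by rw [← hyy, ← hxx]; ring
    have hA3 : 3 * A = 2 * x + y := by rw [← hyy, ← hxx]; ring
    obtain ⟨hx1, hx2⟩ := hx
    have h9B : 9 * B = x ^ 2 + 2 * x * y := by
      have : 9 * B = 3 * (A ^ 2 - n ^ 2) := by rw [← hn1]; ring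
      rw [this, ← hxx, ← hyy]; ring
    interval_cases x <;> rcases hC with hC | hC <;> rw [hC] at hn2 ⊢ <;> norm_num at hn2 <;>
      first
      | omega
      | (refine ⟨1, 1, by norm_num, by norm_num, ?_, ?_, ?_⟩ <;> first | omega | norm_num; done)
      | (refine ⟨1, -1, by norm_num, by norm_num, ?_, ?_, ?_⟩ <;> first | omega | norm_num; done)
      | (refine ⟨-1, 1, by norm_num, by norm_num, ?_, ?_, ?_⟩ <;> first | omega | norm_num; done)
      | (refine ⟨-1, -1, by norm_num, by norm_num, ?_, ?_, ?_⟩ <;> omega)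
  rcases h27 with h27 | h27
  · exact main m e1 h27
  · exact main (-m) (by rw [e1]; ring) (by rw [h27]; ring)

/-- on `|x| ≥ 3` the polynomial is at least `8` when the discriminant vanishes -/
lemma eval_large {A B C : ℤ} (hC : C = 1 ∨ C = -1) (h : disc A B C = 0) {x : ℝ}
    (hx : 3 ≤ |x|) : 8 ≤ |x ^ 3 - A * x ^ 2 + B * x - C| := by
  obtain ⟨ρ, σ, hρ, hσ, hA, hB, hC'⟩ := disc_zero hC h
  have e : x ^ 3 - A * x ^ 2 + B * x - C = (x - ρ) ^ 2 * (x - σ) := by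
    rw [hA, hB, hC']; push_cast; ring
  have h1 : ∀ τ : ℤ, (τ = 1 ∨ τ = -1) → 2 ≤ |x - (τ : ℝ)| := by
    intro τ hτ
    have h2 : |(τ : ℝ)| = 1 := by
      rcases hτ with h | h <;> rw [h] <;> norm_num
    have := abs_sub_abs_le_abs_sub x (τ : ℝ)
    linarith
  rw [e, abs_mul, abs_pow]
  have h3 := h1 ρ hρ
  have h4 := h1 σ hσ
  have h5 : 4 ≤ |x - (ρ : ℝ)| ^ 2 := by nlinarith
  nlinarith

/-- perturbation of the discriminant -/
lemma disc_close {a b c A B C D ζ : ℝ} (hD : 1 ≤ D) (ha : |a| ≤ D) (hb : |b| ≤ D) (hc : |c| ≤ D)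
    (hζ : ζ ≤ 1) (hA : A = a + b + c) (hB : |B - (a * b + a * c + b * c)| ≤ ζ)
    (hCC : |C - a * b * c| ≤ ζ) :
    |disc A B C - ((a - b) * (a - c) * (b - c)) ^ 2| ≤ 2000 * D ^ 6 * ζ := by
  have hζ0 : 0 ≤ ζ := (abs_nonneg _).trans hB
  have hD0 : 0 ≤ D := by linarith
  set e2 := a * b + a * c + b * c with he2
  set e3 := a * b * c with he3
  have hA' : |A| ≤ 3 * D := by
    rw [hA]
    calc |a + b + c| ≤ |a| + |b| + |c| := abs_add_three _ _ _
      _ ≤ 3 * D := by linarith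
  have he2' : |e2| ≤ 3 * D ^ 2 := by
    have h1 : |a * b| ≤ D * D := by rw [abs_mul]; exact mul_le_mul ha hb (abs_nonneg _) hD0
    have h2 : |a * c| ≤ D * D := by rw [abs_mul]; exact mul_le_mul ha hc (abs_nonneg _) hD0
    have h3 : |b * c| ≤ D * D := by rw [abs_mul]; exact mul_le_mul hb hc (abs_nonneg _) hD0
    calc |e2| ≤ |a * b| + |a * c| + |b * c| := abs_add_three _ _ _
      _ ≤ 3 * D ^ 2 := by nlinarith
  have he3' : |e3| ≤ D ^ 3 := by
    rw [he3, abs_mul, abs_mul]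
    calc |a| * |b| * |c| ≤ D * D * D :=
          mul_le_mul (mul_le_mul ha hb (abs_nonneg _) hD0) hc (abs_nonneg _) (by positivity)
      _ = D ^ 3 := by ring
  have hD2 : 1 ≤ D ^ 2 := one_le_pow₀ hD
  have hD3 : 1 ≤ D ^ 3 := one_le_pow₀ hD
  have hB' : |B| ≤ 4 * D ^ 2 := by
    have : B = (B - e2) + e2 := by ring
    rw [this]
    calc |(B - e2) + e2| ≤ |B - e2| + |e2| := abs_add_le _ _
      _ ≤ 1 + 3 * D ^ 2 := by linarith
      _ ≤ 4 * D ^ 2 := by linarith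
  have hC' : |C| ≤ 2 * D ^ 3 := by
    have : C = (C - e3) + e3 := by ring
    rw [this]
    calc |(C - e3) + e3| ≤ |C - e3| + |e3| := abs_add_le _ _
      _ ≤ 1 + D ^ 3 := by linarith
      _ ≤ 2 * D ^ 3 := by linarith
  have hid : disc A B C - ((a - b) * (a - c) * (b - c)) ^ 2 =
      (B - e2) * (A ^ 2 * (B + e2) - 4 * (B ^ 2 + B * e2 + e2 ^ 2) + 18 * A * C) +
      (C - e3) * (-4 * A ^ 3 + 18 * A * e2 - 27 * (C + e3)) := by
    rw [← disc_roots, ← hA, ← he2, ← he3]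
    unfold disc; ring
  rw [hid]
  have p1 : |A ^ 2 * (B + e2) - 4 * (B ^ 2 + B * e2 + e2 ^ 2) + 18 * A * C| ≤ 400 * D ^ 4 := by
    have q1 : |A ^ 2 * (B + e2)| ≤ (3 * D) ^ 2 * (7 * D ^ 2) := by
      rw [abs_mul, abs_pow]
      apply mul_le_mul (pow_le_pow_left₀ (abs_nonneg _) hA' 2) _ (abs_nonneg _) (by positivity)
      calc |B + e2| ≤ |B| + |e2| := abs_add_le _ _
        _ ≤ _ := by linarith
    have q2 : |B ^ 2 + B * e2 + e2 ^ 2| ≤ 37 * D ^ 4 := by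
      calc |B ^ 2 + B * e2 + e2 ^ 2| ≤ |B ^ 2| + |B * e2| + |e2 ^ 2| := abs_add_three _ _ _
        _ ≤ (4 * D ^ 2) ^ 2 + (4 * D ^ 2) * (3 * D ^ 2) + (3 * D ^ 2) ^ 2 := by
            rw [abs_pow, abs_mul, abs_pow]
            gcongr
        _ = 37 * D ^ 4 := by ring
    have q3 : |18 * A * C| ≤ 108 * D ^ 4 := by
      rw [abs_mul, abs_mul, abs_of_pos (by norm_num : (0 : ℝ) < 18)]
      calc 18 * |A| * |C| ≤ 18 * (3 * D) * (2 * D ^ 3) := by gcongr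
        _ = 108 * D ^ 4 := by ring
    calc |A ^ 2 * (B + e2) - 4 * (B ^ 2 + B * e2 + e2 ^ 2) + 18 * A * C|
        ≤ |A ^ 2 * (B + e2) - 4 * (B ^ 2 + B * e2 + e2 ^ 2)| + |18 * A * C| := abs_add_le _ _
      _ ≤ |A ^ 2 * (B + e2)| + |4 * (B ^ 2 + B * e2 + e2 ^ 2)| + |18 * A * C| := by
          gcongr; exact abs_sub _ _
      _ ≤ (3 * D) ^ 2 * (7 * D ^ 2) + 4 * (37 * D ^ 4) + 108 * D ^ 4 := by
          rw [abs_mul 4, abs_of_pos (by norm_num : (0 : ℝ) < 4)]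
          linarith
      _ ≤ 400 * D ^ 4 := by
          have : 0 ≤ D ^ 4 := by positivity
          nlinarith
  have p2 : |-4 * A ^ 3 + 18 * A * e2 - 27 * (C + e3)| ≤ 400 * D ^ 3 := by
    have q1 : |(-4) * A ^ 3| ≤ 108 * D ^ 3 := by
      rw [abs_mul, abs_pow, abs_of_neg (by norm_num : (-4 : ℝ) < 0)]
      calc - -4 * |A| ^ 3 ≤ 4 * (3 * D) ^ 3 := by
            norm_num
            exact pow_le_pow_left₀ (abs_nonneg _) hA' 3
        _ = 108 * D ^ 3 := by ring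
    have q2 : |18 * A * e2| ≤ 162 * D ^ 3 := by
      rw [abs_mul, abs_mul, abs_of_pos (by norm_num : (0 : ℝ) < 18)]
      calc 18 * |A| * |e2| ≤ 18 * (3 * D) * (3 * D ^ 2) := by gcongr
        _ = 162 * D ^ 3 := by ring
    have q3 : |27 * (C + e3)| ≤ 81 * D ^ 3 := by
      rw [abs_mul, abs_of_pos (by norm_num : (0 : ℝ) < 27)]
      have : |C + e3| ≤ |C| + |e3| := abs_add_le _ _
      linarith
    calc |-4 * A ^ 3 + 18 * A * e2 - 27 * (C + e3)|
        ≤ |-4 * A ^ 3 + 18 * A * e2| + |27 * (C + e3)| := abs_sub _ _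
      _ ≤ |(-4) * A ^ 3| + |18 * A * e2| + |27 * (C + e3)| := by
          gcongr; exact abs_add_le _ _
      _ ≤ 400 * D ^ 3 := by
          have : 0 ≤ D ^ 3 := by positivity
          linarith
  have hD46 : D ^ 4 ≤ D ^ 6 := pow_le_pow_right₀ hD (by norm_num)
  have hD36 : D ^ 3 ≤ D ^ 6 := pow_le_pow_right₀ hD (by norm_num)
  calc _ ≤ |(B - e2) * (A ^ 2 * (B + e2) - 4 * (B ^ 2 + B * e2 + e2 ^ 2) + 18 * A * C)| +
      |(C - e3) * (-4 * A ^ 3 + 18 * A * e2 - 27 * (C + e3))| := abs_add_le _ _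
    _ ≤ ζ * (400 * D ^ 4) + ζ * (400 * D ^ 3) := by
        rw [abs_mul, abs_mul]
        gcongr
    _ ≤ 2000 * D ^ 6 * ζ := by nlinarith

end Pool.Agent.H6.LW
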