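import Pool.Agent.H6.LW.Approx

open Real Matrix

namespace Pool.Agent.H6.LW

/-- good boxes on every horizontal segment -/
theorem horizontal {α β N M δ C c t s : ℝ} (S : Setup α β N M δ C c) (ht : 0 ≤ t) (hs : 0 ≤ s)
    (hM : M = t + 3 * s + 4 * N) : ∃ t', t ≤ t' ∧ t' ≤ t + 3 * s + 3 * N ∧ Good α β N (t', s) := by
  have hN := S.Npos
  have hN8 : 0 < N / 8 := by positivity
  set m := ⌊(3 * s + 2 * N) / (N / 8)⌋₊ + 1 with hm
  have hm1 : 3 * s + 2 * N < m * (N / 8) := by
    rw [← div_lt_iff₀ hN8, hm]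
    push_cast
    exact Nat.lt_floor_add_one _
  have hm2 : m * (N / 8) ≤ 3 * s + 3 * N := by
    have h1 : (⌊(3 * s + 2 * N) / (N / 8)⌋₊ : ℝ) ≤ (3 * s + 2 * N) / (N / 8) :=
      Nat.floor_le (by positivity)
    rw [le_div_iff₀ hN8] at h1
    rw [hm]
    push_cast
    rw [add_mul]
    linarith
  have hn : ∀ n : ℕ, n ≤ m → (n : ℝ) * (N / 8) ≤ 3 * s + 3 * N := by
    intro n hn
    have : (n : ℝ) ≤ m := by exact_mod_cast hn
    exact (mul_le_mul_of_nonneg_right this hN8.le).trans hm2
  have hn' : ∀ n : ℕ, 0 ≤ (n : ℝ) * (N / 8) := fun n => by positivity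
  obtain ⟨n, hnm, hg⟩ := finite_chain S (p := fun n => (t + n * (N / 8), s)) (by
      intro n
      simp only
      push_cast
      constructor
      · rw [abs_le]; constructor <;> linarith
      · rw [sub_self, abs_zero]; exact hN8.le) m (by
      intro n hnm
      have h1 := hn n hnm
      have h2 := hn' n
      refine ⟨⟨?_, ?_⟩, ?_, ?_⟩ <;> simp only <;> linarith) (by
      left
      simp only
      push_cast
      linarith)
  exact ⟨_, by linarith [hn' n], by linarith [hn n hnm], hg⟩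

/-- good boxes on every vertical segment -/
theorem vertical {α β N M δ C c t s : ℝ} (S : Setup α β N M δ C c) (ht : 0 ≤ t) (hs : 0 ≤ s)
    (hM : M = s + 3 * t + 4 * N) : ∃ s', s ≤ s' ∧ s' ≤ s + 3 * t + 3 * N ∧ Good α β N (t, s') := by
  have hN := S.Npos
  have hN8 : 0 < N / 8 := by positivity
  set m := ⌊(3 * t + 2 * N) / (N / 8)⌋₊ + 1 with hm
  have hm1 : 3 * t + 2 * N < m * (N / 8) := by
    rw [← div_lt_iff₀ hN8, hm]
    push_cast
    exact Nat.lt_floor_add_one _
  have hm2 : m * (N / 8) ≤ 3 * t + 3 * N := by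
    have h1 : (⌊(3 * t + 2 * N) / (N / 8)⌋₊ : ℝ) ≤ (3 * t + 2 * N) / (N / 8) :=
      Nat.floor_le (by positivity)
    rw [le_div_iff₀ hN8] at h1
    rw [hm]
    push_cast
    rw [add_mul]
    linarith
  have hn : ∀ n : ℕ, n ≤ m → (n : ℝ) * (N / 8) ≤ 3 * t + 3 * N := by
    intro n hn
    have : (n : ℝ) ≤ m := by exact_mod_cast hn
    exact (mul_le_mul_of_nonneg_right this hN8.le).trans hm2
  have hn' : ∀ n : ℕ, 0 ≤ (n : ℝ) * (N / 8) := fun n => by positivity
  obtain ⟨n, hnm, hg⟩ := finite_chain S (p := fun n => (t, s + n * (N / 8))) (by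
      intro n
      simp only
      push_cast
      constructor
      · rw [sub_self, abs_zero]; exact hN8.le
      · rw [abs_le]; constructor <;> linarith) m (by
      intro n hnm
      have h1 := hn n hnm
      have h2 := hn' n
      refine ⟨⟨?_, ?_⟩, ?_, ?_⟩ <;> simp only <;> linarith) (by
      right
      simp only
      push_cast
      linarith)
  exact ⟨_, by linarith [hn' n], by linarith [hn n hnm], hg⟩

/-- the identity matrix matches any two windows, with the trivial factor -/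
theorem matches_one (α β N : ℝ) (u u' : ℝ × ℝ) :
    Matches α β N (exp (posDist u u')) u u' 1 := by
  have key : ∀ u u' w : ℝ × ℝ, ∀ x : Fin 3 → ℝ,
      size α β (u' + w) x ≤ exp (posDist u u') * size α β (u + w) x := by
    intro u u' w x
    rw [size_le_iff]
    intro i
    have e : crd α β (u' + w) x i = exp (wt (u' - u) i) * crd α β (u + w) x i := by
      rw [crd, crd, ← mul_assoc, ← exp_add]
      congr 2
      simp only [wt_add, wt_sub]
      ring
    rw [e, abs_mul, abs_of_pos (exp_pos _)]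
    apply mul_le_mul _ (crd_le_size _ _ _ _ _) (abs_nonneg _) (exp_pos _).le
    apply exp_le_exp.2
    rw [posDist_comm]
    exact (le_abs_self _).trans (wt_le_posDist u' u i)
  refine ⟨by simp, ?_⟩
  intro w _ _ _ _ x
  have e : act 1 x = x := by
    rw [act_eq, rm_one, Matrix.one_mulVec]
  rw [e]
  refine ⟨key u u' w x, ?_⟩
  rw [posDist_comm]
  exact key u' u w x

/-- many pairwise inequivalent windows -/
theorem exists_many {α β N K : ℝ} (hN : 0 < N) (hK : 1 ≤ K) {u₀ : ℝ × ℝ}
    (hgood : Good α β N u₀) :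
    ∃ S : Finset (ℝ × ℝ), (∀ u ∈ S, InBox u₀ (N / 36) u) ∧
      (N / (36 * log (10 * K))) ^ 2 ≤ (S.card : ℝ) ∧
      ∀ u ∈ S, ∀ u' ∈ S, u ≠ u' → ¬ ∃ γ, Matches α β N K u u' γ := by
  classical
  have h : ∀ u u' : ℝ × ℝ, InBox u₀ (N / 36) u → InBox u₀ (N / 36) u' →
      ∀ (γ : Matrix (Fin 3) (Fin 3) ℤ) (K : ℝ), Matches α β N K u u' γ →
        exp (posDist u u') < 10 * K := by
    intro u u' hu hu' γ K hm
    by_contra hlt
    push Not at hlt
    exact hgood γ ⟨u, u', K, hu, hu', hm, hlt⟩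
  set d := log (10 * K) with hd
  have hd0 : 0 < d := log_pos (by linarith)
  have hed : exp d = 10 * K := exp_log (by linarith)
  set m := ⌊N / (36 * d)⌋₊ with hm
  have hm1 : (m : ℝ) ≤ N / (36 * d) := Nat.floor_le (by positivity)
  have hm2 : N / (36 * d) < m + 1 := Nat.lt_floor_add_one _
  set f : ℕ × ℕ → ℝ × ℝ := fun p => (u₀.1 + p.1 * d, u₀.2 + p.2 * d) with hf
  have hinj : Function.Injective f := by
    intro p q hpq
    have h1 := congrArg Prod.fst hpq
    have h2 := congrArg Prod.snd hpq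
    simp only [hf] at h1 h2
    have e1 : (p.1 : ℝ) = q.1 := by
      have : (p.1 : ℝ) * d = q.1 * d := by linarith
      exact mul_right_cancel₀ hd0.ne' this
    have e2 : (p.2 : ℝ) = q.2 := by
      have : (p.2 : ℝ) * d = q.2 * d := by linarith
      exact mul_right_cancel₀ hd0.ne' this
    exact Prod.ext (by exact_mod_cast e1) (by exact_mod_cast e2)
  have hbox : ∀ p ∈ Finset.range (m + 1) ×ˢ Finset.range (m + 1), InBox u₀ (N / 36) (f p) := by
    intro p hp
    rw [Finset.mem_product, Finset.mem_range, Finset.mem_range] at hp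
    have hb : ∀ k : ℕ, k < m + 1 → 0 ≤ (k : ℝ) * d ∧ (k : ℝ) * d ≤ N / 36 := by
      intro k hk
      refine ⟨by positivity, ?_⟩
      have h1 : (k : ℝ) ≤ m := by exact_mod_cast Nat.lt_succ_iff.1 hk
      have h2 : (k : ℝ) ≤ N / (36 * d) := h1.trans hm1
      calc (k : ℝ) * d ≤ N / (36 * d) * d := mul_le_mul_of_nonneg_right h2 hd0.le
        _ = N / 36 := by field_simp
    have h1 := hb _ hp.1
    have h2 := hb _ hp.2
    refine ⟨⟨?_, ?_⟩, ?_, ?_⟩ <;> simp only [hf] <;> linarith [h1.1, h1.2, h2.1, h2.2]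
  refine ⟨(Finset.range (m + 1) ×ˢ Finset.range (m + 1)).image f, ?_, ?_, ?_⟩
  · intro u hu
    obtain ⟨p, hp, rfl⟩ := Finset.mem_image.1 hu
    exact hbox p hp
  · rw [Finset.card_image_of_injective _ hinj, Finset.card_product, Finset.card_range]
    push_cast
    rw [← sq]
    exact pow_le_pow_left₀ (by positivity) hm2.le 2
  · intro u hu u' hu' hne
    obtain ⟨p, hp, rfl⟩ := Finset.mem_image.1 hu
    obtain ⟨q, hq, rfl⟩ := Finset.mem_image.1 hu'
    rintro ⟨γ, hγ⟩
    have h1 := h _ _ (hbox p hp) (hbox q hq) γ K hγ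
    rw [← hed] at h1
    have h2 : posDist (f p) (f q) < d := exp_lt_exp.1 h1
    have hpq : p.1 ≠ q.1 ∨ p.2 ≠ q.2 := by
      by_contra hcon
      push Not at hcon
      exact hne (by rw [Prod.ext hcon.1 hcon.2])
    have hdist : ∀ a b : ℕ, a ≠ b → d ≤ |(a : ℝ) * d - b * d| := by
      intro a b hab
      rw [← sub_mul, abs_mul, abs_of_pos hd0]
      have : (1 : ℝ) ≤ |(a : ℝ) - b| := by
        have h3 : (1 : ℤ) ≤ |(a : ℤ) - b| := Int.one_le_abs (by omega)
        exact_mod_cast h3
      nlinarith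
    rcases hpq with hpq | hpq
    · have h3 : |(f p).1 - (f q).1| ≤ posDist (f p) (f q) := le_max_left _ _
      have h4 : (f p).1 - (f q).1 = (p.1 : ℝ) * d - q.1 * d := by simp only [hf]; ring
      rw [h4] at h3
      linarith [hdist _ _ hpq]
    · have h3 : |(f p).2 - (f q).2| ≤ posDist (f p) (f q) :=
        (le_max_left _ _).trans (le_max_right _ _)
      have h4 : (f p).2 - (f q).2 = (p.2 : ℝ) * d - q.2 * d := by simp only [hf]; ring
      rw [h4] at h3
      linarith [hdist _ _ hpq]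

end Pool.Agent.H6.LW
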