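import Pool.Agent.H6.LW.Defs

open Real Matrix

namespace Pool.Agent.H6.LW

/-- weights -/
def wt (u : ℝ × ℝ) : Fin 3 → ℝ := ![-(u.1 + u.2), u.1, u.2]

@[simp] lemma wt_zero (u : ℝ × ℝ) : wt u 0 = -(u.1 + u.2) := rfl
@[simp] lemma wt_one (u : ℝ × ℝ) : wt u 1 = u.1 := rfl
@[simp] lemma wt_two (u : ℝ × ℝ) : wt u 2 = u.2 := rfl

lemma wt_add (u v : ℝ × ℝ) (i : Fin 3) : wt (u + v) i = wt u i + wt v i := by
  fin_cases i
  · show wt (u + v) 0 = wt u 0 + wt v 0
    simp; ring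
  · show wt (u + v) 1 = wt u 1 + wt v 1
    simp
  · show wt (u + v) 2 = wt u 2 + wt v 2
    simp

lemma wt_sub (u v : ℝ × ℝ) (i : Fin 3) : wt (u - v) i = wt u i - wt v i := by
  fin_cases i
  · show wt (u - v) 0 = wt u 0 - wt v 0
    simp; ring
  · show wt (u - v) 1 = wt u 1 - wt v 1
    simp
  · show wt (u - v) 2 = wt u 2 - wt v 2
    simp

/-- the matrix of the three forms; it is an involution -/
noncomputable def H (α β : ℝ) : Matrix (Fin 3) (Fin 3) ℝ := !![1, 0, 0; α, -1, 0; β, 0, -1]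

lemma H_mul_H (α β : ℝ) : H α β * H α β = 1 := by
  ext i j
  fin_cases i <;> fin_cases j <;> simp [H, Matrix.mul_apply, Fin.sum_univ_three]

/-- the coordinates of `x` seen from `u` -/
noncomputable def crd (α β : ℝ) (u : ℝ × ℝ) (x : Fin 3 → ℝ) (i : Fin 3) : ℝ :=
  exp (wt u i) * (H α β).mulVec x i

lemma crd_zero (α β : ℝ) (u : ℝ × ℝ) (x : Fin 3 → ℝ) :
    crd α β u x 0 = exp (-(u.1 + u.2)) * x 0 := by
  simp [crd, H, Matrix.mulVec, dotProduct, Fin.sum_univ_three]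

lemma crd_one (α β : ℝ) (u : ℝ × ℝ) (x : Fin 3 → ℝ) :
    crd α β u x 1 = exp u.1 * (x 0 * α - x 1) := by
  simp [crd, H, Matrix.mulVec, dotProduct, Fin.sum_univ_three]
  ring

lemma crd_two (α β : ℝ) (u : ℝ × ℝ) (x : Fin 3 → ℝ) :
    crd α β u x 2 = exp u.2 * (x 0 * β - x 2) := by
  simp [crd, H, Matrix.mulVec, dotProduct, Fin.sum_univ_three]
  ring

lemma size_eq (α β : ℝ) (u : ℝ × ℝ) (x : Fin 3 → ℝ) :
    size α β u x = max |crd α β u x 0| (max |crd α β u x 1| |crd α β u x 2|) := by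
  rw [crd_zero, crd_one, crd_two, abs_mul, abs_mul, abs_mul, abs_of_pos (exp_pos _),
    abs_of_pos (exp_pos _), abs_of_pos (exp_pos _), size, mul_comm |x 0|, mul_comm |x 0 * α - x 1|,
    mul_comm |x 0 * β - x 2|]

lemma crd_le_size (α β : ℝ) (u : ℝ × ℝ) (x : Fin 3 → ℝ) (i : Fin 3) :
    |crd α β u x i| ≤ size α β u x := by
  rw [size_eq]
  fin_cases i
  · exact le_max_left _ _
  · exact (le_max_left _ _).trans (le_max_right _ _)
  · exact (le_max_right _ _).trans (le_max_right _ _)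

lemma size_le_iff (α β : ℝ) (u : ℝ × ℝ) (x : Fin 3 → ℝ) (c : ℝ) :
    size α β u x ≤ c ↔ ∀ i, |crd α β u x i| ≤ c := by
  constructor
  · intro h i
    exact (crd_le_size α β u x i).trans h
  · intro h
    rw [size_eq]
    exact max_le (h 0) (max_le (h 1) (h 2))

lemma size_nonneg (α β : ℝ) (u : ℝ × ℝ) (x : Fin 3 → ℝ) : 0 ≤ size α β u x :=
  (abs_nonneg _).trans (crd_le_size α β u x 0)

/-- the matrix `M` in the frame at `u` -/
noncomputable def fr (α β : ℝ) (u : ℝ × ℝ) (M : Matrix (Fin 3) (Fin 3) ℝ) :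
    Matrix (Fin 3) (Fin 3) ℝ :=
  Matrix.of fun i j => exp (wt u i - wt u j) * (H α β * M * H α β) i j

lemma fr_apply (α β : ℝ) (u : ℝ × ℝ) (M : Matrix (Fin 3) (Fin 3) ℝ) (i j : Fin 3) :
    fr α β u M i j = exp (wt u i - wt u j) * (H α β * M * H α β) i j := rfl

lemma fr_diag (α β : ℝ) (u : ℝ × ℝ) (M : Matrix (Fin 3) (Fin 3) ℝ) (i : Fin 3) :
    fr α β u M i i = (H α β * M * H α β) i i := by
  simp [fr_apply]

lemma fr_eq (α β : ℝ) (u : ℝ × ℝ) (M : Matrix (Fin 3) (Fin 3) ℝ) :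
    fr α β u M = Matrix.diagonal (fun i => exp (wt u i)) * (H α β * M * H α β)
      * Matrix.diagonal (fun i => exp (-wt u i)) := by
  ext i j
  rw [Matrix.mul_diagonal, Matrix.diagonal_mul, fr_apply, sub_eq_add_neg, exp_add]
  ring

lemma dd_one (u : ℝ × ℝ) : Matrix.diagonal (fun i => exp (-wt u i)) *
    Matrix.diagonal (fun i => exp (wt u i)) = (1 : Matrix (Fin 3) (Fin 3) ℝ) := by
  rw [Matrix.diagonal_mul_diagonal, ← Matrix.diagonal_one]
  congr 1
  ext i
  rw [← exp_add]; simp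

lemma fr_mul (α β : ℝ) (u : ℝ × ℝ) (M M' : Matrix (Fin 3) (Fin 3) ℝ) :
    fr α β u (M * M') = fr α β u M * fr α β u M' := by
  rw [fr_eq, fr_eq, fr_eq]
  set D := Matrix.diagonal (fun i => exp (wt u i)) with hD
  set D' := Matrix.diagonal (fun i => exp (-wt u i)) with hD'
  set h := H α β with hh
  have e1 : D' * D = 1 := dd_one u
  have e2 : h * h = 1 := H_mul_H α β
  calc D * (h * (M * M') * h) * D' = D * h * M * 1 * (M' * h * D') := by
        simp only [Matrix.mul_assoc, Matrix.one_mul]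
    _ = D * h * M * (h * h) * (M' * h * D') := by rw [e2]
    _ = D * h * M * (h * 1 * h) * (M' * h * D') := by rw [Matrix.mul_one]
    _ = D * h * M * (h * (D' * D) * h) * (M' * h * D') := by rw [e1]
    _ = _ := by simp only [Matrix.mul_assoc]

lemma fr_one (α β : ℝ) (u : ℝ × ℝ) : fr α β u 1 = 1 := by
  ext i j
  rw [fr_apply, Matrix.mul_one, H_mul_H]
  by_cases h : i = j
  · subst h; simp
  · simp [Matrix.one_apply_ne h]

lemma fr_sub (α β : ℝ) (u : ℝ × ℝ) (M M' : Matrix (Fin 3) (Fin 3) ℝ) :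
    fr α β u (M - M') = fr α β u M - fr α β u M' := by
  ext i j
  rw [Matrix.sub_apply, fr_apply, fr_apply, fr_apply, Matrix.mul_sub, Matrix.sub_mul,
    Matrix.sub_apply]
  ring

lemma det_fr (α β : ℝ) (u : ℝ × ℝ) (M : Matrix (Fin 3) (Fin 3) ℝ) :
    (fr α β u M).det = M.det := by
  rw [fr_eq, Matrix.det_mul, Matrix.det_mul, Matrix.det_mul, Matrix.det_mul]
  have h1 : (Matrix.diagonal (fun i => exp (-wt u i)) : Matrix (Fin 3) (Fin 3) ℝ).det *
      (Matrix.diagonal (fun i => exp (wt u i)) : Matrix (Fin 3) (Fin 3) ℝ).det = 1 := by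
    rw [← Matrix.det_mul, dd_one, Matrix.det_one]
  have h2 : (H α β).det * (H α β).det = 1 := by
    rw [← Matrix.det_mul, H_mul_H, Matrix.det_one]
  linear_combination (M.det * (H α β).det * (H α β).det) * h1 + M.det * h2

lemma trace_fr (α β : ℝ) (u : ℝ × ℝ) (M : Matrix (Fin 3) (Fin 3) ℝ) :
    (fr α β u M).trace = M.trace := by
  rw [fr_eq, Matrix.trace_mul_comm, ← Matrix.mul_assoc, dd_one, Matrix.one_mul,
    Matrix.trace_mul_comm, ← Matrix.mul_assoc, H_mul_H, Matrix.one_mul]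

lemma crd_mulVec (α β : ℝ) (u : ℝ × ℝ) (M : Matrix (Fin 3) (Fin 3) ℝ) (x : Fin 3 → ℝ)
    (i : Fin 3) :
    crd α β u (M.mulVec x) i = ∑ j, fr α β u M i j * crd α β u x j := by
  have e : (H α β).mulVec (M.mulVec x) = (H α β * M * H α β).mulVec ((H α β).mulVec x) := by
    rw [Matrix.mulVec_mulVec, Matrix.mulVec_mulVec, Matrix.mul_assoc _ (H α β) (H α β), H_mul_H,
      Matrix.mul_one]
  rw [crd, e, Matrix.mulVec, dotProduct, Finset.mul_sum]
  refine Finset.sum_congr rfl fun j _ => ?_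
  rw [fr_apply, crd, sub_eq_add_neg, exp_add, exp_neg]
  have := exp_ne_zero (wt u j)
  field_simp

lemma size_mulVec_le (α β : ℝ) (u : ℝ × ℝ) (M : Matrix (Fin 3) (Fin 3) ℝ) (x : Fin 3 → ℝ)
    {κ : ℝ} (hM : ∀ i j, |fr α β u M i j| ≤ κ) :
    size α β u (M.mulVec x) ≤ 3 * κ * size α β u x := by
  rw [size_le_iff]
  intro i
  rw [crd_mulVec]
  have h1 : ∀ j, |fr α β u M i j * crd α β u x j| ≤ κ * size α β u x := fun j => by
    rw [abs_mul]
    exact mul_le_mul (hM i j) (crd_le_size _ _ _ _ _) (abs_nonneg _)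
      ((abs_nonneg _).trans (hM i j))
  calc |∑ j, fr α β u M i j * crd α β u x j| ≤ ∑ j, |fr α β u M i j * crd α β u x j| :=
        Finset.abs_sum_le_sum_abs _ _
    _ ≤ ∑ _j : Fin 3, κ * size α β u x := Finset.sum_le_sum fun j _ => h1 j
    _ = 3 * κ * size α β u x := by simp; ring

/-- a vector with prescribed coordinates -/
lemma exists_crd (α β : ℝ) (u : ℝ × ℝ) (j : Fin 3) :
    ∃ x : Fin 3 → ℝ, ∀ i, crd α β u x i = if i = j then 1 else 0 := by
  refine ⟨(H α β).mulVec (fun i => if i = j then exp (-wt u i) else 0), fun i => ?_⟩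
  rw [crd, Matrix.mulVec_mulVec, H_mul_H, Matrix.one_mulVec]
  by_cases h : i = j
  · simp [h, ← exp_add]
  · simp [h]

/-- Half of a match, in matrix entries. -/
lemma entry_le (α β : ℝ) {v v' : ℝ × ℝ} {K : ℝ} (hK : 0 ≤ K) (M : Matrix (Fin 3) (Fin 3) ℝ)
    (h : ∀ x, size α β v' (M.mulVec x) ≤ K * size α β v x) (i j : Fin 3) :
    exp (wt v' i - wt v j) * |(H α β * M * H α β) i j| ≤ K := by
  obtain ⟨x, hx⟩ := exists_crd α β v j
  have h1 : size α β v x ≤ 1 := by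
    rw [size_le_iff]
    intro i
    rw [hx]
    split_ifs <;> simp
  have h2 := (crd_le_size α β v' (M.mulVec x) i).trans ((h x).trans
    (mul_le_mul_of_nonneg_left h1 hK))
  have h3 : crd α β v' (M.mulVec x) i = exp (wt v' i - wt v j) * (H α β * M * H α β) i j := by
    have e1 : crd α β v' (M.mulVec x) i = exp (wt v' i - wt v i) * crd α β v (M.mulVec x) i := by
      rw [crd, crd, sub_eq_add_neg, exp_add, exp_neg]
      have := exp_ne_zero (wt v i)
      field_simp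
    rw [e1, crd_mulVec]
    rw [Finset.sum_eq_single j]
    · rw [hx j, if_pos rfl, mul_one, fr_apply, ← mul_assoc, ← exp_add]
      congr 2
      ring
    · intro k _ hk
      rw [hx k, if_neg hk, mul_zero]
    · simp
  rw [h3, abs_mul, abs_of_pos (exp_pos _), mul_one] at h2
  exact h2

end Pool.Agent.H6.LW
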