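import Pool.Agent.H6.LW.Near

open Real Matrix Polynomial

namespace Pool.Agent.H6.LW

section ring

variable {R : Type*} [CommRing R]

/-- sum of the diagonal entries -/
def trM (M : Matrix (Fin 3) (Fin 3) R) : R := M 0 0 + M 1 1 + M 2 2

/-- sum of the principal minors -/
def secM (M : Matrix (Fin 3) (Fin 3) R) : R :=
  (M 0 0 * M 1 1 - M 0 1 * M 1 0) + (M 0 0 * M 2 2 - M 0 2 * M 2 0) +
    (M 1 1 * M 2 2 - M 1 2 * M 2 1)

/-- the adjugate, as a polynomial in the matrix -/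
def cm (M : Matrix (Fin 3) (Fin 3) R) : Matrix (Fin 3) (Fin 3) R :=
  M * M - trM M • M + secM M • (1 : Matrix (Fin 3) (Fin 3) R)

lemma mul_cm (M : Matrix (Fin 3) (Fin 3) R) :
    M * cm M = M.det • (1 : Matrix (Fin 3) (Fin 3) R) := by
  ext i j
  rw [Matrix.det_fin_three]
  fin_cases i <;> fin_cases j <;>
    simp [cm, trM, secM, Matrix.mul_apply, Fin.sum_univ_three] <;> ring

lemma cm_diag (M : Matrix (Fin 3) (Fin 3) R) (i : Fin 3) :
    cm M i i = M (i + 1) (i + 1) * M (i + 2) (i + 2) - M (i + 1) (i + 2) * M (i + 2) (i + 1) := by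
  fin_cases i <;>
    simp [cm, trM, secM, Matrix.mul_apply, Fin.sum_univ_three] <;> ring

lemma charpoly_three (M : Matrix (Fin 3) (Fin 3) R) :
    M.charpoly = X ^ 3 - C (trM M) * X ^ 2 + C (secM M) * X - C M.det := by
  rw [Matrix.charpoly, Matrix.det_fin_three, Matrix.det_fin_three]
  simp [trM, secM]
  ring

lemma cm_apply (M : Matrix (Fin 3) (Fin 3) R) (i j : Fin 3) :
    cm M i j = M i 0 * M 0 j + M i 1 * M 1 j + M i 2 * M 2 j - trM M * M i j +
      secM M * (if i = j then 1 else 0) := by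
  simp [cm, Matrix.mul_apply, Fin.sum_univ_three, Matrix.one_apply]

end ring

lemma rm_apply (M : Matrix (Fin 3) (Fin 3) ℤ) (i j : Fin 3) : rm M i j = (M i j : ℝ) := rfl

lemma trM_rm (M : Matrix (Fin 3) (Fin 3) ℤ) : trM (rm M) = ((trM M : ℤ) : ℝ) := by
  simp only [trM, rm_apply]; push_cast; ring

lemma secM_rm (M : Matrix (Fin 3) (Fin 3) ℤ) : secM (rm M) = ((secM M : ℤ) : ℝ) := by
  simp only [secM, rm_apply]; push_cast; ring

lemma rm_cm (M : Matrix (Fin 3) (Fin 3) ℤ) : rm (cm M) = cm (rm M) := by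
  ext i j
  rw [rm_apply, cm_apply, cm_apply, trM_rm, secM_rm]
  simp only [rm_apply]
  push_cast
  ring

lemma trM_fr (α β : ℝ) (z : ℝ × ℝ) (M : Matrix (Fin 3) (Fin 3) ℝ) :
    trM (fr α β z M) = trM M := by
  have := trace_fr α β z M
  rw [trace_three, trace_three] at this
  exact this

lemma secM_fr (α β : ℝ) (z : ℝ × ℝ) (M : Matrix (Fin 3) (Fin 3) ℝ) :
    secM (fr α β z M) = secM M := by
  rw [secM, sec_eq, ← fr_mul, trace_fr, trace_fr, ← sec_eq, secM]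

lemma fr_smul (α β : ℝ) (z : ℝ × ℝ) (c : ℝ) (M : Matrix (Fin 3) (Fin 3) ℝ) :
    fr α β z (c • M) = c • fr α β z M := by
  ext i j
  rw [Matrix.smul_apply, fr_apply, fr_apply, Matrix.mul_smul, Matrix.smul_mul, Matrix.smul_apply,
    smul_eq_mul, smul_eq_mul]
  ring

lemma fr_add (α β : ℝ) (z : ℝ × ℝ) (M M' : Matrix (Fin 3) (Fin 3) ℝ) :
    fr α β z (M + M') = fr α β z M + fr α β z M' := by
  ext i j
  rw [Matrix.add_apply, fr_apply, fr_apply, fr_apply, Matrix.mul_add, Matrix.add_mul,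
    Matrix.add_apply]
  ring

lemma fr_cm (α β : ℝ) (z : ℝ × ℝ) (M : Matrix (Fin 3) (Fin 3) ℝ) :
    fr α β z (cm M) = cm (fr α β z M) := by
  rw [cm, cm, fr_add, fr_sub, fr_mul, fr_smul, fr_smul, fr_one, trM_fr, secM_fr]

lemma cm_bound {M : Matrix (Fin 3) (Fin 3) ℝ} {D : ℝ} (hM : ∀ i j, |M i j| ≤ D) (i j : Fin 3) :
    |cm M i j| ≤ 12 * D ^ 2 := by
  have hD : 0 ≤ D := (abs_nonneg _).trans (hM 0 0)
  have p : ∀ a b c d, |M a b * M c d| ≤ D ^ 2 := fun a b c d => prod2 hD (hM a b) (hM c d)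
  have h1 : |(M * M) i j| ≤ 3 * D ^ 2 := by
    rw [Matrix.mul_apply, Fin.sum_univ_three]
    calc _ ≤ |M i 0 * M 0 j| + |M i 1 * M 1 j| + |M i 2 * M 2 j| := abs_add_three _ _ _
      _ ≤ _ := by linarith [p i 0 0 j, p i 1 1 j, p i 2 2 j]
  have h2 : |trM M * M i j| ≤ 3 * D ^ 2 := by
    have : |trM M| ≤ 3 * D := by
      rw [trM]
      calc _ ≤ |M 0 0| + |M 1 1| + |M 2 2| := abs_add_three _ _ _
        _ ≤ _ := by linarith [hM 0 0, hM 1 1, hM 2 2]
    rw [abs_mul]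
    calc |trM M| * |M i j| ≤ (3 * D) * D := mul_le_mul this (hM i j) (abs_nonneg _) (by positivity)
      _ = _ := by ring
  have h3 : |secM M| ≤ 6 * D ^ 2 := by
    have q := fun a b c d => abs_le.1 (p a b c d)
    rw [secM, abs_le]
    constructor <;>
    linarith [(q 0 0 1 1).1, (q 0 0 1 1).2, (q 0 1 1 0).1, (q 0 1 1 0).2, (q 0 0 2 2).1,
      (q 0 0 2 2).2, (q 0 2 2 0).1, (q 0 2 2 0).2, (q 1 1 2 2).1, (q 1 1 2 2).2, (q 1 2 2 1).1,
      (q 1 2 2 1).2]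
  have h4 : |secM M * (1 : Matrix (Fin 3) (Fin 3) ℝ) i j| ≤ 6 * D ^ 2 := by
    by_cases h : i = j
    · rw [h, Matrix.one_apply_eq, mul_one]; exact h3
    · rw [Matrix.one_apply_ne h, mul_zero, abs_zero]; positivity
  have e : cm M i j = (M * M) i j - trM M * M i j + secM M * (1 : Matrix (Fin 3) (Fin 3) ℝ) i j := by
    simp [cm]
  rw [e]
  calc _ ≤ |(M * M) i j - trM M * M i j| + |secM M * (1 : Matrix (Fin 3) (Fin 3) ℝ) i j| :=
        abs_add_le _ _
    _ ≤ |(M * M) i j| + |trM M * M i j| + |secM M * (1 : Matrix (Fin 3) (Fin 3) ℝ) i j| := by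
        gcongr; exact abs_sub _ _
    _ ≤ 12 * D ^ 2 := by linarith

end Pool.Agent.H6.LW
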