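import Pool.Agent.H6.LW.Short
import Pool.Agent.H6.LW.Disc

open Real Matrix

namespace Pool.Agent.H6.LW

/-- integer matrix as a real matrix -/
def rm (γ : Matrix (Fin 3) (Fin 3) ℤ) : Matrix (Fin 3) (Fin 3) ℝ := γ.map (fun n : ℤ => (n : ℝ))

lemma rm_mul (γ γ' : Matrix (Fin 3) (Fin 3) ℤ) : rm (γ * γ') = rm γ * rm γ' := by
  ext i j
  simp [rm, Matrix.mul_apply]

lemma rm_sub (γ γ' : Matrix (Fin 3) (Fin 3) ℤ) : rm (γ - γ') = rm γ - rm γ' := by
  ext i j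
  simp [rm]

lemma rm_one : rm 1 = 1 := by
  ext i j
  by_cases h : i = j
  · subst h; simp [rm]
  · simp [rm, h]

lemma det_rm (γ : Matrix (Fin 3) (Fin 3) ℤ) : (rm γ).det = (γ.det : ℝ) := by
  rw [Matrix.det_fin_three, Matrix.det_fin_three]
  simp [rm]

lemma rm_mulVec (γ : Matrix (Fin 3) (Fin 3) ℤ) (v : Fin 3 → ℤ) :
    (rm γ).mulVec (cv v) = cv (γ.mulVec v) := by
  ext i
  simp [rm, cv, Matrix.mulVec, dotProduct]

lemma act_eq (γ : Matrix (Fin 3) (Fin 3) ℤ) (x : Fin 3 → ℝ) : act γ x = (rm γ).mulVec x := rfl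

/-- the lattice seen from `z` has no vector shorter than `δ`, and its vectors of length at most
`C` span the space -/
structure Loc (α β δ C : ℝ) (z : ℝ × ℝ) : Prop where
  low : ∀ v : Fin 3 → ℤ, v ≠ 0 → δ ≤ size α β z (cv v)
  short : ∀ a : Fin 3 → ℝ, a ≠ 0 →
      ∃ v : Fin 3 → ℤ, size α β z (cv v) ≤ C ∧ ∑ i, a i * (v i : ℝ) ≠ 0

/-- an integer matrix which is tiny in one frame is zero -/
lemma eq_zero_of_small {α β δ C κ : ℝ} {u : ℝ × ℝ} (hloc : Loc α β δ C u)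
    (hκ : 3 * κ * C < δ) (M : Matrix (Fin 3) (Fin 3) ℤ)
    (hM : ∀ i j, |fr α β u (rm M) i j| ≤ κ) : M = 0 := by
  by_contra hne
  have : ∃ i, M i ≠ 0 := by
    by_contra hall
    push Not at hall
    exact hne (funext hall)
  obtain ⟨i, hi⟩ := this
  have ha : (fun j => (M i j : ℝ)) ≠ 0 := by
    intro h0
    apply hi
    ext j
    have := congrFun h0 j
    simpa using this
  obtain ⟨v, hv, hva⟩ := hloc.short _ ha
  have hne' : M.mulVec v ≠ 0 := by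
    intro h0
    apply hva
    have := congrFun h0 i
    simp only [Matrix.mulVec, dotProduct, Pi.zero_apply] at this
    exact_mod_cast this
  have h1 := hloc.low _ hne'
  rw [← rm_mulVec] at h1
  have h2 := size_mulVec_le α β u (rm M) (cv v) hM
  have hκ0 : 0 ≤ κ := (abs_nonneg _).trans (hM 0 0)
  have h3 : 3 * κ * size α β u (cv v) ≤ 3 * κ * C :=
    mul_le_mul_of_nonneg_left hv (by positivity)
  linarith

/-- A near return: in the frame at `z` the integer matrix is nearly diagonal. -/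
structure NearRet (α β η D : ℝ) (z : ℝ × ℝ) (γ : Matrix (Fin 3) (Fin 3) ℤ) : Prop where
  unit : IsUnit γ.det
  off : ∀ i j, i ≠ j → |fr α β z (rm γ) i j| ≤ η
  diag : ∀ i, |fr α β z (rm γ) i i| ≤ D
  big : ∃ i, 3 ≤ |fr α β z (rm γ) i i|

lemma unit_cases {γ : Matrix (Fin 3) (Fin 3) ℤ} (h : IsUnit γ.det) :
    γ.det = 1 ∨ γ.det = -1 := Int.isUnit_iff.1 h

/-- integer invariants of `γ` -/
def trI (γ : Matrix (Fin 3) (Fin 3) ℤ) : ℤ := γ 0 0 + γ 1 1 + γ 2 2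

def secI (γ : Matrix (Fin 3) (Fin 3) ℤ) : ℤ :=
  (γ 0 0 * γ 1 1 - γ 0 1 * γ 1 0) + (γ 0 0 * γ 2 2 - γ 0 2 * γ 2 0) +
    (γ 1 1 * γ 2 2 - γ 1 2 * γ 2 1)

lemma trace_three (M : Matrix (Fin 3) (Fin 3) ℝ) : M.trace = M 0 0 + M 1 1 + M 2 2 := by
  simp [Matrix.trace, Fin.sum_univ_three]

/-- second invariant -/
lemma sec_eq (M : Matrix (Fin 3) (Fin 3) ℝ) :
    (M 0 0 * M 1 1 - M 0 1 * M 1 0) + (M 0 0 * M 2 2 - M 0 2 * M 2 0) +
      (M 1 1 * M 2 2 - M 1 2 * M 2 1) = (M.trace ^ 2 - (M * M).trace) / 2 := by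
  rw [trace_three, trace_three]
  simp only [Matrix.mul_apply, Fin.sum_univ_three]
  ring

lemma tr_fr (α β : ℝ) (z : ℝ × ℝ) (γ : Matrix (Fin 3) (Fin 3) ℤ) :
    (trI γ : ℝ) = fr α β z (rm γ) 0 0 + fr α β z (rm γ) 1 1 + fr α β z (rm γ) 2 2 := by
  rw [← trace_three, trace_fr, trace_three]
  simp [trI, rm]

lemma sec_fr (α β : ℝ) (z : ℝ × ℝ) (γ : Matrix (Fin 3) (Fin 3) ℤ) :
    (secI γ : ℝ) = (fr α β z (rm γ) 0 0 * fr α β z (rm γ) 1 1 -
      fr α β z (rm γ) 0 1 * fr α β z (rm γ) 1 0) + (fr α β z (rm γ) 0 0 * fr α β z (rm γ) 2 2 -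
      fr α β z (rm γ) 0 2 * fr α β z (rm γ) 2 0) + (fr α β z (rm γ) 1 1 * fr α β z (rm γ) 2 2 -
      fr α β z (rm γ) 1 2 * fr α β z (rm γ) 2 1) := by
  rw [sec_eq, ← fr_mul, trace_fr, trace_fr, ← sec_eq]
  simp [secI, rm]

lemma det_fr' (α β : ℝ) (z : ℝ × ℝ) (γ : Matrix (Fin 3) (Fin 3) ℤ) :
    (γ.det : ℝ) = (fr α β z (rm γ)).det := by
  rw [det_fr, det_rm]

lemma prod2 {x y η : ℝ} (hη : 0 ≤ η) (hx : |x| ≤ η) (hy : |y| ≤ η) : |x * y| ≤ η ^ 2 := by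
  rw [abs_mul, sq]; exact mul_le_mul hx hy (abs_nonneg _) hη

lemma prod3 {x y w η D : ℝ} (hη : 0 ≤ η) (hD : 0 ≤ D) (hx : |x| ≤ η) (hy : |y| ≤ η)
    (hw : |w| ≤ D) : |w * x * y| ≤ D * η ^ 2 := by
  rw [mul_assoc, abs_mul]
  exact mul_le_mul hw (prod2 hη hx hy) (abs_nonneg _) hD

lemma sep_aux {D p q r : ℝ} (hD : 1 ≤ D) (hp : 0 ≤ p) (hr : 0 ≤ r)
    (hq2 : q ≤ 2 * D) (hr2 : r ≤ 2 * D) (h : 1 / 2 ≤ p * q * r) : 1 / (8 * D ^ 2) ≤ p := by
  have hD0 : 0 < D := by linarith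
  rw [div_le_iff₀ (by positivity)]
  have h1 : q * r ≤ (2 * D) * (2 * D) := mul_le_mul hq2 hr2 hr (by linarith)
  have h2 : p * (q * r) ≤ p * ((2 * D) * (2 * D)) := mul_le_mul_of_nonneg_left h1 hp
  have h3 : p * (8 * D ^ 2) = 2 * (p * ((2 * D) * (2 * D))) := by ring
  rw [h3]
  have h4 : p * q * r = p * (q * r) := by ring
  rw [h4] at h
  linarith

/-- separation, real variables -/
lemma sep_real {A B C : ℤ} (hC : C = 1 ∨ C = -1) {a b c o01 o10 o02 o20 o12 o21 η D : ℝ}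
    (hη : 0 ≤ η) (hD : 1 ≤ D) (hη1 : η ≤ 1) (hsmall : 20000 * D ^ 7 * η ^ 2 ≤ 1)
    (ha : |a| ≤ D) (hb : |b| ≤ D) (hc : |c| ≤ D)
    (h01 : |o01| ≤ η) (h10 : |o10| ≤ η) (h02 : |o02| ≤ η) (h20 : |o20| ≤ η) (h12 : |o12| ≤ η)
    (h21 : |o21| ≤ η)
    (hA : (A : ℝ) = a + b + c)
    (hB : (B : ℝ) = (a * b - o01 * o10) + (a * c - o02 * o20) + (b * c - o12 * o21))
    (hCd : (C : ℝ) = a * b * c - (a * o12 * o21) - (b * o02 * o20) - (c * o01 * o10)
      + o01 * o12 * o20 + o02 * o10 * o21)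
    (hbig : ∃ x, (x = a ∨ x = b ∨ x = c) ∧ 3 ≤ |x|) :
    0 < disc A B C ∧
    1 / (8 * D ^ 2) ≤ |a - b| ∧ 1 / (8 * D ^ 2) ≤ |a - c| ∧ 1 / (8 * D ^ 2) ≤ |b - c| := by
  have hD0 : 0 ≤ D := by linarith
  have hη2 : η ^ 2 ≤ D * η ^ 2 := by nlinarith [sq_nonneg η]
  have hη20 : 0 ≤ η ^ 2 := sq_nonneg η
  have r1 := prod3 hη hD0 h12 h21 ha
  have r2 := prod3 hη hD0 h02 h20 hb
  have r3 := prod3 hη hD0 h01 h10 hc
  have r4 : |o01 * o12 * o20| ≤ η ^ 2 := by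
    rw [mul_assoc, abs_mul]
    calc |o01| * |o12 * o20| ≤ 1 * η ^ 2 :=
          mul_le_mul (h01.trans hη1) (prod2 hη h12 h20) (abs_nonneg _) zero_le_one
      _ = η ^ 2 := one_mul _
  have r5 : |o02 * o10 * o21| ≤ η ^ 2 := by
    rw [mul_assoc, abs_mul]
    calc |o02| * |o10 * o21| ≤ 1 * η ^ 2 :=
          mul_le_mul (h02.trans hη1) (prod2 hη h10 h21) (abs_nonneg _) zero_le_one
      _ = η ^ 2 := one_mul _
  have hB' : |(B : ℝ) - (a * b + a * c + b * c)| ≤ 5 * D * η ^ 2 := by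
    have h1 := prod2 hη h01 h10
    have h2 := prod2 hη h02 h20
    have h3 := prod2 hη h12 h21
    rw [abs_le] at h1 h2 h3 ⊢
    rw [hB]
    constructor
    · linarith [h1.1, h1.2, h2.1, h2.2, h3.1, h3.2]
    · linarith [h1.1, h1.2, h2.1, h2.2, h3.1, h3.2]
  have hCC : |(C : ℝ) - a * b * c| ≤ 5 * D * η ^ 2 := by
    have r1' := r1
    have r2' := r2
    have r3' := r3
    have r4' := r4
    have r5' := r5
    rw [abs_le] at r1' r2' r3' r4' r5' ⊢
    rw [hCd]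
    constructor
    · linarith [r1'.1, r1'.2, r2'.1, r2'.2, r3'.1, r3'.2, r4'.1, r4'.2, r5'.1, r5'.2]
    · linarith [r1'.1, r1'.2, r2'.1, r2'.2, r3'.1, r3'.2, r4'.1, r4'.2, r5'.1, r5'.2]
  have hD6 : 1 ≤ D ^ 6 := one_le_pow₀ hD
  have hζ0 : 0 ≤ 5 * D * η ^ 2 := by positivity
  have hζs : 2000 * D ^ 6 * (5 * D * η ^ 2) ≤ 1 / 2 := by
    have : 2000 * D ^ 6 * (5 * D * η ^ 2) = (20000 * D ^ 7 * η ^ 2) / 2 := by ring
    rw [this]; linarith
  have hζ1 : 5 * D * η ^ 2 ≤ 1 / 2 := by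
    have : 5 * D * η ^ 2 * 1 ≤ 5 * D * η ^ 2 * (2000 * D ^ 6) :=
      mul_le_mul_of_nonneg_left (by linarith) hζ0
    linarith
  have hcl := disc_close hD ha hb hc (hζ1.trans (by norm_num)) hA hB' hCC
  have hdc : (disc (A : ℝ) (B : ℝ) (C : ℝ)) = ((disc A B C : ℤ) : ℝ) := by
    unfold disc; push_cast; ring
  -- the discriminant is not zero
  have hne : disc A B C ≠ 0 := by
    intro h0
    obtain ⟨x, hxx, hx3⟩ := hbig
    have hev := eval_large hC h0 hx3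
    have hval : x ^ 3 - (A : ℝ) * x ^ 2 + (B : ℝ) * x - (C : ℝ) =
        (x - a) * (x - b) * (x - c) - (x - a) * o12 * o21 - (x - b) * o02 * o20
        - (x - c) * o01 * o10 - o01 * o12 * o20 - o02 * o10 * o21 := by
      rw [hA, hB, hCd]; ring
    have hx' : |x| ≤ D := by
      rcases hxx with h | h | h <;> rw [h] <;> assumption
    have d1 : |x - a| ≤ 2 * D := (abs_sub _ _).trans (by linarith)
    have d2 : |x - b| ≤ 2 * D := (abs_sub _ _).trans (by linarith)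
    have d3 : |x - c| ≤ 2 * D := (abs_sub _ _).trans (by linarith)
    have hz : (x - a) * (x - b) * (x - c) = 0 := by
      rcases hxx with h | h | h <;> rw [h] <;> ring
    have s1 := prod3 hη (by linarith : (0:ℝ) ≤ 2 * D) h12 h21 d1
    have s2 := prod3 hη (by linarith : (0:ℝ) ≤ 2 * D) h02 h20 d2
    have s3 := prod3 hη (by linarith : (0:ℝ) ≤ 2 * D) h01 h10 d3
    rw [hz] at hval
    have h8 : |x ^ 3 - (A : ℝ) * x ^ 2 + (B : ℝ) * x - (C : ℝ)| < 8 := by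
      rw [hval, abs_lt]
      rw [abs_le] at s1 s2 s3 r4 r5
      constructor
      · linarith [s1.1, s1.2, s2.1, s2.2, s3.1, s3.2, r4.1, r4.2, r5.1, r5.2]
      · linarith [s1.1, s1.2, s2.1, s2.2, s3.1, s3.2, r4.1, r4.2, r5.1, r5.2]
    linarith
  have h1 : (1 : ℝ) ≤ |((disc A B C : ℤ) : ℝ)| := by
    rw [← Int.cast_abs]
    exact_mod_cast Int.one_le_abs hne
  rw [hdc] at hcl
  have hprod : 1 / 2 ≤ ((a - b) * (a - c) * (b - c)) ^ 2 := by
    have h2 := abs_sub_abs_le_abs_sub ((disc A B C : ℤ) : ℝ)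
      (((a - b) * (a - c) * (b - c)) ^ 2)
    rw [abs_of_nonneg (sq_nonneg ((a - b) * (a - c) * (b - c)))] at h2
    linarith
  have hprod' : 1 / 2 ≤ |a - b| * |a - c| * |b - c| := by
    rw [← abs_mul, ← abs_mul]
    by_contra hlt
    push Not at hlt
    have : ((a - b) * (a - c) * (b - c)) ^ 2 < (1 / 2) ^ 2 := by
      rw [← sq_abs ((a - b) * (a - c) * (b - c))]
      exact pow_lt_pow_left₀ hlt (abs_nonneg _) two_ne_zero
    norm_num at this hprod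
    linarith
  have t1 : |a - b| ≤ 2 * D := (abs_sub _ _).trans (by linarith)
  have t2 : |a - c| ≤ 2 * D := (abs_sub _ _).trans (by linarith)
  have t3 : |b - c| ≤ 2 * D := (abs_sub _ _).trans (by linarith)
  have hdpos : 0 < disc A B C := by
    have h2 : (0 : ℝ) ≤ ((disc A B C : ℤ) : ℝ) := by
      rw [abs_le] at hcl
      linarith [hcl.1, hcl.2]
    have h3 : 0 ≤ disc A B C := by exact_mod_cast h2
    exact lt_of_le_of_ne h3 (Ne.symm hne)
  refine ⟨hdpos, sep_aux hD (abs_nonneg _) (abs_nonneg _) t2 t3 hprod', ?_, ?_⟩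
  · refine sep_aux hD (abs_nonneg _) (abs_nonneg _) t1 t3 ?_
    calc 1 / 2 ≤ _ := hprod'
      _ = |a - c| * |a - b| * |b - c| := by ring
  · refine sep_aux hD (abs_nonneg _) (abs_nonneg _) t1 t2 ?_
    calc 1 / 2 ≤ _ := hprod'
      _ = |b - c| * |a - b| * |a - c| := by ring

/-- the diagonal entries of a near return are separated, and its discriminant is positive -/
lemma NearRet.sep' {α β η D : ℝ} {z : ℝ × ℝ} {γ : Matrix (Fin 3) (Fin 3) ℤ}
    (h : NearRet α β η D z γ) (hη : 0 ≤ η) (hD : 1 ≤ D) (hη1 : η ≤ 1)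
    (hsmall : 20000 * D ^ 7 * η ^ 2 ≤ 1) :
    0 < disc (trI γ) (secI γ) γ.det ∧
    ∀ i j, i ≠ j → 1 / (8 * D ^ 2) ≤ |fr α β z (rm γ) i i - fr α β z (rm γ) j j| := by
  have hdet : (γ.det : ℝ) = fr α β z (rm γ) 0 0 * fr α β z (rm γ) 1 1 * fr α β z (rm γ) 2 2
      - (fr α β z (rm γ) 0 0 * fr α β z (rm γ) 1 2 * fr α β z (rm γ) 2 1)
      - (fr α β z (rm γ) 1 1 * fr α β z (rm γ) 0 2 * fr α β z (rm γ) 2 0)
      - (fr α β z (rm γ) 2 2 * fr α β z (rm γ) 0 1 * fr α β z (rm γ) 1 0)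
      + fr α β z (rm γ) 0 1 * fr α β z (rm γ) 1 2 * fr α β z (rm γ) 2 0
      + fr α β z (rm γ) 0 2 * fr α β z (rm γ) 1 0 * fr α β z (rm γ) 2 1 := by
    rw [det_fr' α β z γ, Matrix.det_fin_three]; ring
  have hbig : ∃ x, (x = fr α β z (rm γ) 0 0 ∨ x = fr α β z (rm γ) 1 1 ∨
      x = fr α β z (rm γ) 2 2) ∧ 3 ≤ |x| := by
    obtain ⟨i, hi⟩ := h.big
    refine ⟨_, ?_, hi⟩
    have : i = 0 ∨ i = 1 ∨ i = 2 := by
      fin_cases i
      · left; rfl
      · right; left; rfl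
      · right; right; rfl
    rcases this with h | h | h
    · left; rw [h]
    · right; left; rw [h]
    · right; right; rw [h]
  obtain ⟨hdp, e01, e02, e12⟩ := sep_real (unit_cases h.unit) hη hD hη1 hsmall (h.diag 0) (h.diag 1)
    (h.diag 2) (h.off 0 1 (by decide)) (h.off 1 0 (by decide)) (h.off 0 2 (by decide))
    (h.off 2 0 (by decide)) (h.off 1 2 (by decide)) (h.off 2 1 (by decide))
    (tr_fr α β z γ) (sec_fr α β z γ) hdet hbig
  have hcases : ∀ i : Fin 3, i = 0 ∨ i = 1 ∨ i = 2 := by decide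
  refine ⟨hdp, ?_⟩
  intro i j hij
  rcases hcases i with h1 | h1 | h1 <;> rcases hcases j with h2 | h2 | h2 <;> rw [h1, h2]
  · exact absurd (h1.trans h2.symm) hij
  · exact e01
  · exact e02
  · rw [abs_sub_comm]; exact e01
  · exact absurd (h1.trans h2.symm) hij
  · exact e12
  · rw [abs_sub_comm]; exact e02
  · rw [abs_sub_comm]; exact e12
  · exact absurd (h1.trans h2.symm) hij

lemma NearRet.sep {α β η D : ℝ} {z : ℝ × ℝ} {γ : Matrix (Fin 3) (Fin 3) ℤ}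
    (h : NearRet α β η D z γ) (hη : 0 ≤ η) (hD : 1 ≤ D) (hη1 : η ≤ 1)
    (hsmall : 20000 * D ^ 7 * η ^ 2 ≤ 1) :
    ∀ i j, i ≠ j → 1 / (8 * D ^ 2) ≤ |fr α β z (rm γ) i i - fr α β z (rm γ) j j| :=
  (h.sep' hη hD hη1 hsmall).2

/-- a matrix commuting with a nearly diagonal separated matrix is nearly diagonal -/
lemma offdiag_of_comm {Γ X : Matrix (Fin 3) (Fin 3) ℝ} {η σ m : ℝ} (hη : 0 ≤ η)
    (hoff : ∀ i j, i ≠ j → |Γ i j| ≤ η) (hsep : ∀ i j, i ≠ j → σ ≤ |Γ i i - Γ j j|)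
    (hcomm : X * Γ = Γ * X) (hX : ∀ i j, |X i j| ≤ m) (i j : Fin 3) (hij : i ≠ j) :
    |X i j| * σ ≤ 4 * η * m := by
  have hm : 0 ≤ m := (abs_nonneg _).trans (hX 0 0)
  have h1 : ∀ p q r s : Fin 3, r ≠ s → |X p q * Γ r s| ≤ η * m := by
    intro p q r s hrs
    rw [abs_mul, mul_comm]
    exact mul_le_mul (hoff r s hrs) (hX p q) (abs_nonneg _) hη
  have h2 := congrFun (congrFun hcomm i) j
  rw [Matrix.mul_apply, Matrix.mul_apply] at h2
  have key : |X i j * (Γ i i - Γ j j)| ≤ 4 * η * m := by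
    have a1 := fun k (hk : k ≠ j) => h1 i k k j hk
    have a2 := fun k (hk : i ≠ k) => h1 k j i k hk
    simp only [Fin.sum_univ_three] at h2
    fin_cases i <;> fin_cases j <;> first
      | exact absurd rfl hij
      | skip
    · have b1 := a1 0 (by decide)
      have b2 := a1 2 (by decide)
      have b3 := a2 1 (by decide)
      have b4 := a2 2 (by decide)
      simp only [Fin.zero_eta, Fin.mk_one, Fin.isValue] at *
      rw [abs_le] at b1 b2 b3 b4 ⊢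
      constructor <;> nlinarith [b1.1, b1.2, b2.1, b2.2, b3.1, b3.2, b4.1, b4.2]
    · have b1 := a1 0 (by decide)
      have b2 := a1 1 (by decide)
      have b3 := a2 1 (by decide)
      have b4 := a2 2 (by decide)
      simp only [Fin.zero_eta, Fin.reduceFinMk, Fin.isValue] at *
      rw [abs_le] at b1 b2 b3 b4 ⊢
      constructor <;> nlinarith [b1.1, b1.2, b2.1, b2.2, b3.1, b3.2, b4.1, b4.2]
    · have b1 := a1 1 (by decide)
      have b2 := a1 2 (by decide)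
      have b3 := a2 0 (by decide)
      have b4 := a2 2 (by decide)
      simp only [Fin.zero_eta, Fin.mk_one, Fin.isValue] at *
      rw [abs_le] at b1 b2 b3 b4 ⊢
      constructor <;> nlinarith [b1.1, b1.2, b2.1, b2.2, b3.1, b3.2, b4.1, b4.2]
    · have b1 := a1 0 (by decide)
      have b2 := a1 1 (by decide)
      have b3 := a2 0 (by decide)
      have b4 := a2 2 (by decide)
      simp only [Fin.mk_one, Fin.reduceFinMk, Fin.isValue] at *
      rw [abs_le] at b1 b2 b3 b4 ⊢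
      constructor <;> nlinarith [b1.1, b1.2, b2.1, b2.2, b3.1, b3.2, b4.1, b4.2]
    · have b1 := a1 1 (by decide)
      have b2 := a1 2 (by decide)
      have b3 := a2 0 (by decide)
      have b4 := a2 1 (by decide)
      simp only [Fin.zero_eta, Fin.reduceFinMk, Fin.isValue] at *
      rw [abs_le] at b1 b2 b3 b4 ⊢
      constructor <;> nlinarith [b1.1, b1.2, b2.1, b2.2, b3.1, b3.2, b4.1, b4.2]
    · have b1 := a1 0 (by decide)
      have b2 := a1 2 (by decide)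
      have b3 := a2 0 (by decide)
      have b4 := a2 1 (by decide)
      simp only [Fin.mk_one, Fin.reduceFinMk, Fin.isValue] at *
      rw [abs_le] at b1 b2 b3 b4 ⊢
      constructor <;> nlinarith [b1.1, b1.2, b2.1, b2.2, b3.1, b3.2, b4.1, b4.2]
  rw [abs_mul] at key
  exact (mul_le_mul_of_nonneg_left (hsep i j hij) (abs_nonneg _)).trans key

end Pool.Agent.H6.LW
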