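import Pool.Agent.H6.LW.Near

open Real Matrix

namespace Pool.Agent.H6.LW

lemma fr_bound {α β N K : ℝ} {u u' : ℝ × ℝ} (hK : 0 ≤ K) (M : Matrix (Fin 3) (Fin 3) ℝ)
    (h : ∀ w : ℝ × ℝ, 0 ≤ w.1 → w.1 ≤ N → 0 ≤ w.2 → w.2 ≤ N → ∀ x : Fin 3 → ℝ,
      size α β (u' + w) (M.mulVec x) ≤ K * size α β (u + w) x) (z y : ℝ × ℝ)
    (h1 : 0 ≤ z.1 - u.1 - y.1) (h1' : z.1 - u.1 - y.1 ≤ N)
    (h2 : 0 ≤ z.2 - u.2 - y.2) (h2' : z.2 - u.2 - y.2 ≤ N) (i j : Fin 3) :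
    |fr α β z M i j| ≤ K * exp (wt (u - u') i) * exp (wt y i - wt y j) := by
  have hw := entry_le α β hK M (h (z - u - y) h1 h1' h2 h2') i j
  rw [fr_apply, abs_mul, abs_of_pos (exp_pos _)]
  have e : exp (wt z i - wt z j) = exp (wt (u' + (z - u - y)) i - wt (u + (z - u - y)) j) *
      (exp (wt (u - u') i) * exp (wt y i - wt y j)) := by
    rw [← exp_add, ← exp_add]
    congr 1
    simp only [wt_add, wt_sub]
    ring
  rw [e]
  calc exp (wt (u' + (z - u - y)) i - wt (u + (z - u - y)) j) *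
      (exp (wt (u - u') i) * exp (wt y i - wt y j)) * |(H α β * M * H α β) i j|
      = (exp (wt (u' + (z - u - y)) i - wt (u + (z - u - y)) j) * |(H α β * M * H α β) i j|) *
      (exp (wt (u - u') i) * exp (wt y i - wt y j)) := by ring
    _ ≤ K * (exp (wt (u - u') i) * exp (wt y i - wt y j)) :=
        mul_le_mul_of_nonneg_right hw (by positivity)
    _ = _ := by ring

lemma fr_diag_le {α β N K : ℝ} {u u' : ℝ × ℝ} (hK : 0 ≤ K) (hN : 0 ≤ N)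
    (M : Matrix (Fin 3) (Fin 3) ℝ)
    (h : ∀ w : ℝ × ℝ, 0 ≤ w.1 → w.1 ≤ N → 0 ≤ w.2 → w.2 ≤ N → ∀ x : Fin 3 → ℝ,
      size α β (u' + w) (M.mulVec x) ≤ K * size α β (u + w) x) (z : ℝ × ℝ) (i : Fin 3) :
    |fr α β z M i i| ≤ K * exp (wt (u - u') i) := by
  have h0 := fr_bound hK M h u (0 : ℝ × ℝ) (by simp) (by simpa using hN) (by simp)
    (by simpa using hN) i i
  rw [fr_diag] at h0 ⊢
  simpa using h0

lemma fr_off_le {α β N K : ℝ} {u u' : ℝ × ℝ} (hK : 0 ≤ K)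
    (M : Matrix (Fin 3) (Fin 3) ℝ)
    (h : ∀ w : ℝ × ℝ, 0 ≤ w.1 → w.1 ≤ N → 0 ≤ w.2 → w.2 ≤ N → ∀ x : Fin 3 → ℝ,
      size α β (u' + w) (M.mulVec x) ≤ K * size α β (u + w) x) {a : ℝ} (ha : 0 ≤ a) (z : ℝ × ℝ)
    (h1 : a ≤ z.1 - u.1) (h1' : z.1 - u.1 ≤ N - a)
    (h2 : a ≤ z.2 - u.2) (h2' : z.2 - u.2 ≤ N - a) (i j : Fin 3) (hij : i ≠ j) :
    |fr α β z M i j| ≤ K * exp (wt (u - u') i) * exp (-(2 * a)) := by
  have key : ∃ y : ℝ × ℝ, (-a ≤ y.1 ∧ y.1 ≤ a) ∧ (-a ≤ y.2 ∧ y.2 ≤ a) ∧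
      wt y i - wt y j ≤ -(2 * a) := by
    have hcases : ∀ i : Fin 3, i = 0 ∨ i = 1 ∨ i = 2 := by decide
    rcases hcases i with e1 | e1 | e1 <;> rcases hcases j with e2 | e2 | e2
    · exact absurd (e1.trans e2.symm) hij
    · refine ⟨(a, 0), ⟨by simp; linarith, by simp⟩, ⟨by simp; linarith, by simp; linarith⟩, ?_⟩
      rw [e1, e2, wt_zero, wt_one]; simp only; linarith
    · refine ⟨(0, a), ⟨by simp; linarith, by simp; linarith⟩, ⟨by simp; linarith, by simp⟩, ?_⟩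
      rw [e1, e2, wt_zero, wt_two]; simp only; linarith
    · refine ⟨(-a, 0), ⟨by simp, by simp; linarith⟩, ⟨by simp; linarith, by simp; linarith⟩,
        ?_⟩
      rw [e1, e2, wt_zero, wt_one]; simp only; linarith
    · exact absurd (e1.trans e2.symm) hij
    · refine ⟨(-a, a), ⟨by simp, by simp; linarith⟩, ⟨by simp; linarith, by simp⟩,
        ?_⟩
      rw [e1, e2, wt_two, wt_one]; simp only; linarith
    · refine ⟨(0, -a), ⟨by simp; linarith, by simp; linarith⟩, ⟨by simp, by simp; linarith⟩,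
        ?_⟩
      rw [e1, e2, wt_zero, wt_two]; simp only; linarith
    · refine ⟨(a, -a), ⟨by simp; linarith, by simp⟩, ⟨by simp, by simp; linarith⟩,
        ?_⟩
      rw [e1, e2, wt_two, wt_one]; simp only; linarith
    · exact absurd (e1.trans e2.symm) hij
  obtain ⟨y, hy1, hy2, hy⟩ := key
  refine (fr_bound hK M h z y (by linarith [hy1.2]) (by linarith [hy1.1]) (by linarith [hy2.2])
    (by linarith [hy2.1]) i j).trans ?_
  exact mul_le_mul_of_nonneg_left (exp_le_exp.2 hy) (by positivity)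

lemma wt_le_posDist (u u' : ℝ × ℝ) (i : Fin 3) : |wt (u - u') i| ≤ posDist u u' := by
  have hcases : ∀ i : Fin 3, i = 0 ∨ i = 1 ∨ i = 2 := by decide
  rw [posDist]
  rcases hcases i with e | e | e <;> rw [e]
  · rw [wt_zero, abs_neg, Prod.fst_sub, Prod.snd_sub]
    exact (le_max_right _ _).trans (le_max_right _ _)
  · rw [wt_one, Prod.fst_sub]
    exact le_max_left _ _
  · rw [wt_two, Prod.snd_sub]
    exact (le_max_left _ _).trans (le_max_right _ _)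

lemma exists_posDist (u u' : ℝ × ℝ) : ∃ i, |wt (u - u') i| = posDist u u' := by
  rw [posDist]
  rcases max_choice |u.1 - u'.1| (max |u.2 - u'.2| |(u.1 - u'.1) + (u.2 - u'.2)|) with h | h
  · exact ⟨1, by rw [h]; simp⟩
  · rw [h]
    rcases max_choice |u.2 - u'.2| |(u.1 - u'.1) + (u.2 - u'.2)| with h | h
    · exact ⟨2, by rw [h]; simp⟩
    · refine ⟨0, ?_⟩
      rw [h, wt_zero, abs_neg, Prod.fst_sub, Prod.snd_sub]

lemma posDist_comm (u u' : ℝ × ℝ) : posDist u u' = posDist u' u := by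
  rw [posDist, posDist, abs_sub_comm u.1, abs_sub_comm u.2]
  congr 2
  rw [← abs_neg]
  congr 1
  ring

lemma posDist_le {u u' : ℝ × ℝ} {R : ℝ} (h1 : |u.1 - u'.1| ≤ R) (h2 : |u.2 - u'.2| ≤ R) :
    posDist u u' ≤ 2 * R := by
  have hR : 0 ≤ R := (abs_nonneg _).trans h1
  rw [posDist]
  refine max_le (by linarith) (max_le (by linarith) ?_)
  calc _ ≤ |u.1 - u'.1| + |u.2 - u'.2| := abs_add_le _ _
    _ ≤ 2 * R := by linarith

/-- the inverse matrix over the integers -/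
lemma exists_inv {γ : Matrix (Fin 3) (Fin 3) ℤ} (h : IsUnit γ.det) :
    ∃ γ' : Matrix (Fin 3) (Fin 3) ℤ, γ * γ' = 1 ∧ γ' * γ = 1 :=
  ⟨γ⁻¹, Matrix.mul_nonsing_inv _ h, Matrix.nonsing_inv_mul _ h⟩

lemma match_pos {α β N K : ℝ} {u u' : ℝ × ℝ} {γ : Matrix (Fin 3) (Fin 3) ℤ} (hN : 0 ≤ N)
    (h : Matches α β N K u u' γ) : 0 < K := by
  obtain ⟨x, hx⟩ := exists_crd α β (u + 0) 0
  have h1 := (h.2 0 le_rfl hN le_rfl hN x).2
  have h2 : 1 ≤ size α β (u + 0) x := by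
    have := crd_le_size α β (u + 0) x 0
    rw [hx 0] at this
    simpa using this
  by_contra hK
  push Not at hK
  have h3 := size_nonneg α β (u' + 0) (act γ x)
  have h4 : K * size α β (u' + 0) (act γ x) ≤ 0 := mul_nonpos_of_nonpos_of_nonneg hK h3
  linarith

/-- the two half matches in terms of real matrices -/
lemma match_half {α β N K : ℝ} {u u' : ℝ × ℝ} {γ γ' : Matrix (Fin 3) (Fin 3) ℤ}
    (h : Matches α β N K u u' γ) (hγ : γ * γ' = 1) :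
    (∀ w : ℝ × ℝ, 0 ≤ w.1 → w.1 ≤ N → 0 ≤ w.2 → w.2 ≤ N → ∀ x : Fin 3 → ℝ,
      size α β (u' + w) ((rm γ).mulVec x) ≤ K * size α β (u + w) x) ∧
    (∀ w : ℝ × ℝ, 0 ≤ w.1 → w.1 ≤ N → 0 ≤ w.2 → w.2 ≤ N → ∀ x : Fin 3 → ℝ,
      size α β (u + w) ((rm γ').mulVec x) ≤ K * size α β (u' + w) x) := by
  constructor
  · intro w h1 h2 h3 h4 x
    exact (h.2 w h1 h2 h3 h4 x).1
  · intro w h1 h2 h3 h4 x
    have := (h.2 w h1 h2 h3 h4 ((rm γ').mulVec x)).2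
    rwa [act_eq, Matrix.mulVec_mulVec, ← rm_mul, hγ, rm_one, Matrix.one_mulVec] at this

end Pool.Agent.H6.LW
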