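import Pool.Agent.H6.LW.NearMatch

open Real Matrix

namespace Pool.Agent.H6.LW

lemma diag_prod {A B : Matrix (Fin 3) (Fin 3) ℝ} {η : ℝ} (hη : 0 ≤ η) (hη1 : η ≤ 1 / 1000)
    (hAB : A * B = 1) (hA : ∀ i j, i ≠ j → |A i j| ≤ η) (hB : ∀ i j, i ≠ j → |B i j| ≤ η)
    (i : Fin 3) : 99 / 100 ≤ |A i i| * |B i i| := by
  have hsq : η ^ 2 ≤ 1 / 1000 := by nlinarith
  have h1 : (A * B) i i = 1 := by rw [hAB, Matrix.one_apply_eq]
  rw [Matrix.mul_apply, sum_cyc _ i] at h1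
  have n1 : i ≠ i + 1 := by fin_cases i <;> decide
  have n2 : i ≠ i + 2 := by fin_cases i <;> decide
  have p1 := prod2 hη (hA i (i + 1) n1) (hB (i + 1) i n1.symm)
  have p2 := prod2 hη (hA i (i + 2) n2) (hB (i + 2) i n2.symm)
  rw [← abs_mul]
  have h2 : A i i * B i i = 1 - A i (i + 1) * B (i + 1) i - A i (i + 2) * B (i + 2) i := by
    linarith
  rw [h2]
  rw [abs_le] at p1 p2
  refine le_trans ?_ (le_abs_self _)
  linarith [p1.1, p1.2, p2.1, p2.2]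

lemma det_big {γ : Matrix (Fin 3) (Fin 3) ℤ} {A : Matrix (Fin 3) (Fin 3) ℝ} {η : ℝ}
    (hu : IsUnit γ.det) (hdet : (γ.det : ℝ) = A.det) (hη : 0 ≤ η) (hη1 : η ≤ 1 / 1000)
    (hA : ∀ i j, i ≠ j → |A i j| ≤ η) (h3 : ∀ i, |A i i| ≤ 3) (i : Fin 3)
    (hi : |A i i| ≤ 1 / 10) : False := by
  have hsq : η ^ 2 ≤ 1 / 1000 := by nlinarith
  have hsq0 : 0 ≤ η ^ 2 := sq_nonneg η
  have habs : |(γ.det : ℝ)| = 1 := by
    rcases unit_cases hu with h | h <;> rw [h] <;> norm_num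
  rw [hdet, Matrix.det_fin_three] at habs
  have o01 := hA 0 1 (by decide)
  have o10 := hA 1 0 (by decide)
  have o02 := hA 0 2 (by decide)
  have o20 := hA 2 0 (by decide)
  have o12 := hA 1 2 (by decide)
  have o21 := hA 2 1 (by decide)
  have r1 := prod3 hη (by norm_num : (0:ℝ) ≤ 3) o12 o21 (h3 0)
  have r2 := prod3 hη (by norm_num : (0:ℝ) ≤ 3) o02 o20 (h3 1)
  have r3 := prod3 hη (by norm_num : (0:ℝ) ≤ 3) o01 o10 (h3 2)
  have r4 := prod3 hη (by norm_num : (0:ℝ) ≤ 3) o12 o20 (o01.trans (by linarith : η ≤ 3))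
  have r5 := prod3 hη (by norm_num : (0:ℝ) ≤ 3) o10 o21 (o02.trans (by linarith : η ≤ 3))
  have hmain : |A 0 0 * A 1 1 * A 2 2| ≤ 9 / 10 := by
    rw [abs_mul, abs_mul]
    have hcases : ∀ i : Fin 3, i = 0 ∨ i = 1 ∨ i = 2 := by decide
    have a0 := abs_nonneg (A 0 0)
    have a1 := abs_nonneg (A 1 1)
    have a2 := abs_nonneg (A 2 2)
    rcases hcases i with e | e | e <;> rw [e] at hi
    · calc |A 0 0| * |A 1 1| * |A 2 2| ≤ 1 / 10 * 3 * 3 :=
            mul_le_mul (mul_le_mul hi (h3 1) a1 (by norm_num)) (h3 2) a2 (by norm_num)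
        _ = 9 / 10 := by norm_num
    · calc |A 0 0| * |A 1 1| * |A 2 2| ≤ 3 * (1 / 10) * 3 :=
            mul_le_mul (mul_le_mul (h3 0) hi a1 (by norm_num)) (h3 2) a2 (by norm_num)
        _ = 9 / 10 := by norm_num
    · calc |A 0 0| * |A 1 1| * |A 2 2| ≤ 3 * 3 * (1 / 10) :=
            mul_le_mul (mul_le_mul (h3 0) (h3 1) a1 (by norm_num)) hi a2 (by norm_num)
        _ = 9 / 10 := by norm_num
  have e : A 0 0 * A 1 1 * A 2 2 - A 0 0 * A 1 2 * A 2 1 - A 0 1 * A 1 0 * A 2 2 +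
      A 0 1 * A 1 2 * A 2 0 + A 0 2 * A 1 0 * A 2 1 - A 0 2 * A 1 1 * A 2 0 =
      A 0 0 * A 1 1 * A 2 2 - (A 0 0 * A 1 2 * A 2 1) - (A 2 2 * A 0 1 * A 1 0) +
      (A 0 1 * A 1 2 * A 2 0) + (A 0 2 * A 1 0 * A 2 1) - (A 1 1 * A 0 2 * A 2 0) := by ring
  rw [e] at habs
  have hlt : |A 0 0 * A 1 1 * A 2 2 - (A 0 0 * A 1 2 * A 2 1) - (A 2 2 * A 0 1 * A 1 0) +
      (A 0 1 * A 1 2 * A 2 0) + (A 0 2 * A 1 0 * A 2 1) - (A 1 1 * A 0 2 * A 2 0)| < 1 := by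
    rw [abs_lt]
    rw [abs_le] at r1 r2 r3 r4 r5 hmain
    constructor
    · linarith [r1.1, r1.2, r2.1, r2.2, r3.1, r3.2, r4.1, r4.2, r5.1, r5.2, hmain.1, hmain.2]
    · linarith [r1.1, r1.2, r2.1, r2.2, r3.1, r3.2, r4.1, r4.2, r5.1, r5.2, hmain.1, hmain.2]
  linarith

theorem near_of_match {α β N K : ℝ} {u u' z : ℝ × ℝ} {γ : Matrix (Fin 3) (Fin 3) ℤ}
    (hN : 0 < N) (hE : 1000 ≤ exp (N / 36)) (h : Matches α β N K u u' γ)
    (hbig : 10 * K ≤ exp (posDist u u')) (hd1 : |u.1 - u'.1| ≤ N / 36)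
    (hd2 : |u.2 - u'.2| ≤ N / 36)
    (h1 : 25 * N / 72 ≤ z.1 - u.1) (h1' : z.1 - u.1 ≤ N - 25 * N / 72)
    (h2 : 25 * N / 72 ≤ z.2 - u.2) (h2' : z.2 - u.2 ≤ N - 25 * N / 72)
    (g1 : 25 * N / 72 ≤ z.1 - u'.1) (g1' : z.1 - u'.1 ≤ N - 25 * N / 72)
    (g2 : 25 * N / 72 ≤ z.2 - u'.2) (g2' : z.2 - u'.2 ≤ N - 25 * N / 72) :
    NearRet α β ((exp (N / 36) ^ 21)⁻¹) (exp (N / 36) ^ 4) z γ := by
  have hK := match_pos hN.le h
  obtain ⟨γ', hγ1, hγ2⟩ := exists_inv h.1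
  obtain ⟨ha, hb⟩ := match_half h hγ1
  set E := exp (N / 36) with hEdef
  have hE0 : 0 < E := exp_pos _
  set P := posDist u u' with hP
  have hP2 : P ≤ 2 * (N / 36) := posDist_le hd1 hd2
  have hP0 : 0 ≤ P := (abs_nonneg _).trans (wt_le_posDist u u' 0)
  have hKP : K ≤ exp P / 10 := by linarith
  have hm : ∀ i, wt (u - u') i ≤ P := fun i => (le_abs_self _).trans (wt_le_posDist u u' i)
  have hm' : ∀ i, wt (u' - u) i ≤ P := fun i => (le_abs_self _).trans (by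
    rw [hP, posDist_comm]; exact wt_le_posDist u' u i)
  have hE4 : exp P * exp P ≤ E ^ 4 := by
    rw [← exp_add, hEdef, ← exp_nat_mul]
    apply exp_le_exp.2
    push_cast
    linarith
  have hx : ∀ t, t ≤ P → K * exp t ≤ E ^ 4 := by
    intro t ht
    calc K * exp t ≤ (exp P / 10) * exp P :=
          mul_le_mul hKP (exp_le_exp.2 ht) (exp_pos _).le (by positivity)
      _ ≤ exp P * exp P := by
          have := exp_pos P
          nlinarith
      _ ≤ E ^ 4 := hE4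
  have hη : ∀ t, t ≤ P → K * exp t * exp (-(2 * (25 * N / 72))) ≤ (E ^ 21)⁻¹ := by
    intro t ht
    calc K * exp t * exp (-(2 * (25 * N / 72))) ≤ E ^ 4 * exp (-(2 * (25 * N / 72))) :=
          mul_le_mul_of_nonneg_right (hx t ht) (exp_pos _).le
      _ = (E ^ 21)⁻¹ := by
          rw [hEdef, ← exp_nat_mul, ← exp_nat_mul, ← exp_neg, ← exp_add]
          congr 1
          push_cast
          ring
  have hη0 : 0 ≤ (E ^ 21)⁻¹ := by positivity
  have hη1 : (E ^ 21)⁻¹ ≤ 1 / 1000 := by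
    rw [one_div]
    apply inv_anti₀ (by norm_num)
    calc (1000 : ℝ) ≤ E := hE
      _ = E ^ 1 := (pow_one _).symm
      _ ≤ E ^ 21 := pow_le_pow_right₀ (by linarith) (by norm_num)
  have offA : ∀ i j, i ≠ j → |fr α β z (rm γ) i j| ≤ (E ^ 21)⁻¹ := fun i j hij =>
    (fr_off_le hK.le (rm γ) ha (by positivity) z h1 h1' h2 h2' i j hij).trans (hη _ (hm i))
  have offB : ∀ i j, i ≠ j → |fr α β z (rm γ') i j| ≤ (E ^ 21)⁻¹ := fun i j hij =>
    (fr_off_le hK.le (rm γ') hb (by positivity) z g1 g1' g2 g2' i j hij).trans (hη _ (hm' i))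
  have diA : ∀ i, |fr α β z (rm γ) i i| ≤ K * exp (wt (u - u') i) := fun i =>
    fr_diag_le hK.le hN.le (rm γ) ha z i
  have diB : ∀ i, |fr α β z (rm γ') i i| ≤ K * exp (wt (u' - u) i) := fun i =>
    fr_diag_le hK.le hN.le (rm γ') hb z i
  have hprod : fr α β z (rm γ) * fr α β z (rm γ') = 1 := by
    rw [← fr_mul, ← rm_mul, hγ1, rm_one, fr_one]
  refine ⟨h.1, offA, fun i => (diA i).trans (hx _ (hm i)), ?_⟩
  by_contra hno
  push Not at hno
  obtain ⟨i, hi⟩ := exists_posDist u u'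
  rw [← hP] at hi
  have hKe : K * exp (-P) ≤ 1 / 10 := by
    calc K * exp (-P) ≤ (exp P / 10) * exp (-P) :=
          mul_le_mul_of_nonneg_right hKP (exp_pos _).le
      _ = 1 / 10 := by
          rw [exp_neg]
          have := exp_ne_zero P
          field_simp
  rcases abs_choice (wt (u - u') i) with hc | hc
  · -- positive sign
    have e : wt (u' - u) i = -P := by
      rw [← hi, hc, wt_sub, wt_sub]; ring
    have hbi := diB i
    rw [e] at hbi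
    have h99 := diag_prod hη0 hη1 hprod offA offB i
    have h3 := hno i
    have hb1 : |fr α β z (rm γ') i i| ≤ 1 / 10 := hbi.trans hKe
    have : |fr α β z (rm γ) i i| * |fr α β z (rm γ') i i| ≤ 3 * (1 / 10) :=
      mul_le_mul h3.le hb1 (abs_nonneg _) (by norm_num)
    linarith
  · have e : wt (u - u') i = -P := by linarith
    have hai := diA i
    rw [e] at hai
    exact det_big h.1 (det_fr' α β z γ) hη0 hη1 offA (fun i => (hno i).le) i (hai.trans hKe)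

end Pool.Agent.H6.LW
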