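import Pool.Agent.H6.LW.Base

open Real Matrix

namespace Pool.Agent.H6.LW

lemma crd_sub (α β : ℝ) (u : ℝ × ℝ) (x y : Fin 3 → ℝ) (i : Fin 3) :
    crd α β u (x - y) i = crd α β u x i - crd α β u y i := by
  rw [crd, crd, crd, Matrix.mulVec_sub, Pi.sub_apply]; ring

lemma size_lt (α β : ℝ) (u : ℝ × ℝ) (x : Fin 3 → ℝ) (c : ℝ)
    (h : ∀ i, |crd α β u x i| < c) : size α β u x < c := by
  rw [size_eq]
  exact max_lt (h 0) (max_lt (h 1) (h 2))

lemma floor_close {x y : ℝ} (hx : 0 ≤ x) (hy : 0 ≤ y) (h : ⌊x⌋₊ = ⌊y⌋₊) : |x - y| < 1 := by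
  have h1 := Nat.floor_le hx
  have h2 := Nat.lt_floor_add_one x
  have h3 := Nat.floor_le hy
  have h4 := Nat.lt_floor_add_one y
  rw [h] at h1 h2
  rw [abs_lt]
  constructor <;> linarith

lemma fract_diff {A q q0 : ℕ} {α : ℝ} (hA : 0 < A)
    (h : ⌊(A : ℝ) * Int.fract ((q : ℝ) * α)⌋₊ = ⌊(A : ℝ) * Int.fract ((q0 : ℝ) * α)⌋₊) :
    |((q : ℝ) - q0) * α - ((⌊(q : ℝ) * α⌋ - ⌊(q0 : ℝ) * α⌋ : ℤ) : ℝ)| < 1 / A := by
  have hA' : (0 : ℝ) < A := by exact_mod_cast hA
  have h1 := floor_close (by positivity) (by positivity) h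
  have e : ((q : ℝ) - q0) * α - ((⌊(q : ℝ) * α⌋ - ⌊(q0 : ℝ) * α⌋ : ℤ) : ℝ)
      = Int.fract ((q : ℝ) * α) - Int.fract ((q0 : ℝ) * α) := by
    rw [Int.fract, Int.fract]; push_cast; ring
  rw [e, lt_div_iff₀ hA']
  rw [← mul_sub, abs_mul, abs_of_pos hA'] at h1
  linarith

/-- The vector built from two indices in one cell. -/
noncomputable def vv (α β : ℝ) (q0 q : ℕ) : Fin 3 → ℤ :=
  ![(q : ℤ) - q0, ⌊(q : ℝ) * α⌋ - ⌊(q0 : ℝ) * α⌋, ⌊(q : ℝ) * β⌋ - ⌊(q0 : ℝ) * β⌋]

lemma short_aux {α β δ : ℝ} (hδ0 : 0 < δ) (hδ1 : δ ≤ 1)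
    {u : ℝ × ℝ} (hδ : ∀ v : Fin 3 → ℤ, v ≠ 0 → δ ≤ size α β u (cv v))
    {K : ℝ} (hK : K = 200 / δ ^ 2) (h1 : K ≤ exp u.1) (h2 : K ≤ exp u.2)
    {a : Fin 3 → ℝ} (ha : a ≠ 0) :
    ∃ v : Fin 3 → ℤ, size α β u (cv v) ≤ K ∧ ∑ i, a i * (v i : ℝ) ≠ 0 := by
  classical
  have hδ2 : δ ^ 2 ≤ 1 := by nlinarith
  have hK200 : 200 ≤ K := by
    rw [hK, le_div_iff₀ (by positivity)]; nlinarith
  have hK0 : 0 < K := by linarith
  have hu1 : 0 ≤ u.1 := by
    by_contra h
    push Not at h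
    have := exp_lt_exp.2 h
    rw [exp_zero] at this
    linarith
  have hu2 : 0 ≤ u.2 := by
    by_contra h
    push Not at h
    have := exp_lt_exp.2 h
    rw [exp_zero] at this
    linarith
  set A := ⌈exp u.1 / K⌉₊ with hA
  set B := ⌈exp u.2 / K⌉₊ with hB
  have hA1 : exp u.1 / K ≤ A := Nat.le_ceil _
  have hB1 : exp u.2 / K ≤ B := Nat.le_ceil _
  have hAge : 1 ≤ exp u.1 / K := by rw [le_div_iff₀ hK0]; linarith
  have hBge : 1 ≤ exp u.2 / K := by rw [le_div_iff₀ hK0]; linarith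
  have hA2 : (A : ℝ) ≤ 2 * (exp u.1 / K) := by
    have := Nat.ceil_lt_add_one (show 0 ≤ exp u.1 / K by positivity)
    linarith
  have hB2 : (B : ℝ) ≤ 2 * (exp u.2 / K) := by
    have := Nat.ceil_lt_add_one (show 0 ≤ exp u.2 / K by positivity)
    linarith
  have hApos : 0 < A := by
    have : (0 : ℝ) < A := by linarith
    exact_mod_cast this
  have hBpos : 0 < B := by
    have : (0 : ℝ) < B := by linarith
    exact_mod_cast this
  have hAr : (0 : ℝ) < A := by exact_mod_cast hApos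
  have hBr : (0 : ℝ) < B := by exact_mod_cast hBpos
  set Q := ⌊K * exp (u.1 + u.2)⌋₊ with hQ
  set b := ⌊K ^ 3 / 4⌋₊ with hb
  have hb1 : (b : ℝ) ≤ K ^ 3 / 4 := Nat.floor_le (by positivity)
  have hb2 : K ^ 3 / 4 < b + 1 := Nat.lt_floor_add_one _
  set f : ℕ → ℕ × ℕ := fun q => (⌊(A : ℝ) * Int.fract ((q : ℝ) * α)⌋₊,
    ⌊(B : ℝ) * Int.fract ((q : ℝ) * β)⌋₊) with hf
  have hmaps : ∀ q ∈ Finset.range (Q + 1), f q ∈ Finset.range A ×ˢ Finset.range B := by
    intro q _
    rw [Finset.mem_product, Finset.mem_range, Finset.mem_range]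
    constructor
    · rw [hf, Nat.floor_lt (by positivity)]
      have := Int.fract_lt_one ((q : ℝ) * α)
      nlinarith
    · rw [hf, Nat.floor_lt (by positivity)]
      have := Int.fract_lt_one ((q : ℝ) * β)
      nlinarith
  have hcard : (Finset.range A ×ˢ Finset.range B).card * b ≤ (Finset.range (Q + 1)).card := by
    rw [Finset.card_product, Finset.card_range, Finset.card_range, Finset.card_range]
    have hQ2 : K * exp (u.1 + u.2) < Q + 1 := Nat.lt_floor_add_one _
    have : ((A * B * b : ℕ) : ℝ) < ((Q + 1 : ℕ) : ℝ) := by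
      push_cast
      have hAB : (A : ℝ) * B ≤ (2 * (exp u.1 / K)) * (2 * (exp u.2 / K)) :=
        mul_le_mul hA2 hB2 hBr.le (by positivity)
      calc (A : ℝ) * B * b ≤ (2 * (exp u.1 / K)) * (2 * (exp u.2 / K)) * (K ^ 3 / 4) :=
            mul_le_mul hAB hb1 (Nat.cast_nonneg _) (by positivity)
        _ = K * exp (u.1 + u.2) := by rw [exp_add]; field_simp; ring
        _ < _ := hQ2
    exact_mod_cast this.le
  obtain ⟨y, hy, hyc⟩ := Finset.exists_le_card_fiber_of_mul_le_card_of_maps_to hmaps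
    (by
      refine ⟨(0, 0), ?_⟩
      rw [Finset.mem_product, Finset.mem_range, Finset.mem_range]
      exact ⟨hApos, hBpos⟩) hcard
  set F := (Finset.range (Q + 1)).filter (fun q => f q = y) with hF
  set m := ⌊4 * K / δ⌋₊ with hm
  have hmb : (m + 1) * (m + 1) < F.card := by
    refine lt_of_lt_of_le ?_ hyc
    have hm1 : (m : ℝ) ≤ 4 * K / δ := Nat.floor_le (by positivity)
    have e1 : (1 : ℝ) ≤ K / δ := by
      rw [le_div_iff₀ hδ0]; nlinarith
    have h5 : (m : ℝ) + 1 ≤ 5 * (K / δ) := by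
      have : 4 * K / δ = 4 * (K / δ) := by ring
      linarith
    have h6 : ((m : ℝ) + 1) * (m + 1) ≤ (5 * (K / δ)) * (5 * (K / δ)) :=
      mul_le_mul h5 h5 (by positivity) (by positivity)
    have h7 : (5 * (K / δ)) * (5 * (K / δ)) = 25 * K ^ 2 / δ ^ 2 := by ring
    have h8 : K ^ 3 / 4 = 50 * K ^ 2 / δ ^ 2 := by
      have : K ^ 3 = K ^ 2 * K := by ring
      rw [this]
      nth_rewrite 2 [hK]
      ring
    have h9 : (1 : ℝ) < 25 * K ^ 2 / δ ^ 2 := by
      rw [lt_div_iff₀ (by positivity)]; nlinarith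
    have h10 : 50 * K ^ 2 / δ ^ 2 = 25 * K ^ 2 / δ ^ 2 + 25 * K ^ 2 / δ ^ 2 := by ring
    have : (((m + 1) * (m + 1) : ℕ) : ℝ) < (b : ℝ) := by
      push_cast
      linarith
    exact_mod_cast this
  have hFne : F.Nonempty := by
    rw [← Finset.card_pos]; omega
  obtain ⟨q0, hq0⟩ := hFne
  have hq0' := (Finset.mem_filter.1 hq0)
  -- all vectors are short
  have hshort : ∀ q ∈ F, size α β u (cv (vv α β q0 q)) ≤ K := by
    intro q hq
    have hq' := (Finset.mem_filter.1 hq)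
    have hff : f q = f q0 := by rw [hq'.2, hq0'.2]
    have hf1 := congrArg Prod.fst hff
    have hf2 := congrArg Prod.snd hff
    have c1 := fract_diff hApos hf1
    have c2 := fract_diff hBpos hf2
    rw [size_le_iff]
    refine cases_cyc (fun i => |crd α β u (cv (vv α β q0 q)) i| ≤ K) 0 ?_ ?_ ?_
    · rw [crd_zero, abs_mul, abs_of_pos (exp_pos _)]
      have e : cv (vv α β q0 q) 0 = (q : ℝ) - q0 := by simp [cv, vv]
      rw [e]
      have l1 : (q : ℝ) ≤ Q := by
        have := Finset.mem_range.1 hq'.1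
        exact_mod_cast Nat.lt_succ_iff.1 this
      have l2 : (q0 : ℝ) ≤ Q := by
        have := Finset.mem_range.1 hq0'.1
        exact_mod_cast Nat.lt_succ_iff.1 this
      have l3 : (Q : ℝ) ≤ K * exp (u.1 + u.2) := Nat.floor_le (by positivity)
      have l4 : |(q : ℝ) - q0| ≤ K * exp (u.1 + u.2) := by
        rw [abs_le]
        constructor
        · have : (0 : ℝ) ≤ q := Nat.cast_nonneg _
          linarith
        · have : (0 : ℝ) ≤ q0 := Nat.cast_nonneg _
          linarith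
      calc exp (-(u.1 + u.2)) * |(q : ℝ) - q0| ≤ exp (-(u.1 + u.2)) * (K * exp (u.1 + u.2)) :=
            mul_le_mul_of_nonneg_left l4 (exp_pos _).le
        _ = K := by
            rw [mul_left_comm, ← exp_add]; simp
    · change |crd α β u (cv (vv α β q0 q)) 1| ≤ K
      rw [crd_one, abs_mul, abs_of_pos (exp_pos _)]
      have e : |cv (vv α β q0 q) 0 * α - cv (vv α β q0 q) 1| ≤ 1 / A := by
        have e1 : cv (vv α β q0 q) 0 = (q : ℝ) - q0 := by simp [cv, vv]
        have e2 : cv (vv α β q0 q) 1 = ((⌊(q : ℝ) * α⌋ - ⌊(q0 : ℝ) * α⌋ : ℤ) : ℝ) := rfl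
        rw [e1, e2]
        exact c1.le
      calc exp u.1 * |cv (vv α β q0 q) 0 * α - cv (vv α β q0 q) 1| ≤ exp u.1 * (1 / A) :=
            mul_le_mul_of_nonneg_left e (exp_pos _).le
        _ ≤ K := by
            rw [mul_one_div, div_le_iff₀ hAr]
            rw [div_le_iff₀ hK0] at hA1
            linarith
    · change |crd α β u (cv (vv α β q0 q)) 2| ≤ K
      rw [crd_two, abs_mul, abs_of_pos (exp_pos _)]
      have e : |cv (vv α β q0 q) 0 * β - cv (vv α β q0 q) 2| ≤ 1 / B := by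
        have e1 : cv (vv α β q0 q) 0 = (q : ℝ) - q0 := by simp [cv, vv]
        have e2 : cv (vv α β q0 q) 2 = ((⌊(q : ℝ) * β⌋ - ⌊(q0 : ℝ) * β⌋ : ℤ) : ℝ) := rfl
        rw [e1, e2]
        exact c2.le
      calc exp u.2 * |cv (vv α β q0 q) 0 * β - cv (vv α β q0 q) 2| ≤ exp u.2 * (1 / B) :=
            mul_le_mul_of_nonneg_left e (exp_pos _).le
        _ ≤ K := by
            rw [mul_one_div, div_le_iff₀ hBr]
            rw [div_le_iff₀ hK0] at hB1
            linarith
  by_contra hno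
  push Not at hno
  have hplane : ∀ q ∈ F, ∑ i, cof α β u a i * crd α β u (cv (vv α β q0 q)) i = 0 := by
    intro q hq
    rw [cof_sum]
    exact hno _ (hshort q hq)
  obtain ⟨k, -, hk⟩ := Finset.exists_max_image (Finset.univ : Finset (Fin 3))
    (fun i => |cof α β u a i|) ⟨0, Finset.mem_univ _⟩
  have hkpos : 0 < |cof α β u a k| := by
    obtain ⟨k', hk'⟩ := cof_ne (α := α) (β := β) (u := u) ha
    exact lt_of_lt_of_le (abs_pos.2 hk') (hk k' (Finset.mem_univ _))
  -- second pigeonhole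
  set g : ℕ → ℕ × ℕ := fun q =>
    (⌊(crd α β u (cv (vv α β q0 q)) (k + 1) + K) * (2 / δ)⌋₊,
      ⌊(crd α β u (cv (vv α β q0 q)) (k + 2) + K) * (2 / δ)⌋₊) with hg
  have hcr : ∀ q ∈ F, ∀ i, 0 ≤ crd α β u (cv (vv α β q0 q)) i + K ∧
      crd α β u (cv (vv α β q0 q)) i + K ≤ 2 * K := by
    intro q hq i
    have := (crd_le_size α β u (cv (vv α β q0 q)) i).trans (hshort q hq)
    rw [abs_le] at this
    constructor <;> linarith [this.1, this.2]
  have hgmaps : Set.MapsTo g (F : Set ℕ)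
      ((Finset.range (m + 1) ×ˢ Finset.range (m + 1) : Finset (ℕ × ℕ)) : Set (ℕ × ℕ)) := by
    intro q hq
    rw [Finset.mem_coe, Finset.mem_product, Finset.mem_range, Finset.mem_range]
    have hb : ∀ i, ⌊(crd α β u (cv (vv α β q0 q)) i + K) * (2 / δ)⌋₊ < m + 1 := by
      intro i
      rw [Nat.lt_succ_iff, hm]
      apply Nat.floor_le_floor
      have := (hcr q hq i).2
      calc (crd α β u (cv (vv α β q0 q)) i + K) * (2 / δ) ≤ 2 * K * (2 / δ) :=
            mul_le_mul_of_nonneg_right this (by positivity)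
        _ = 4 * K / δ := by ring
    exact ⟨hb _, hb _⟩
  have hgc : (Finset.range (m + 1) ×ˢ Finset.range (m + 1) : Finset (ℕ × ℕ)).card < F.card := by
    rw [Finset.card_product, Finset.card_range]
    exact hmb
  obtain ⟨q, hq, q', hq', hne, hgg⟩ := Finset.exists_ne_map_eq_of_card_lt_of_maps_to hgc hgmaps
  have hg1 := congrArg Prod.fst hgg
  have hg2 := congrArg Prod.snd hgg
  have hclose : ∀ i, ⌊(crd α β u (cv (vv α β q0 q)) i + K) * (2 / δ)⌋₊ =
      ⌊(crd α β u (cv (vv α β q0 q')) i + K) * (2 / δ)⌋₊ →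
      |crd α β u (cv (vv α β q0 q)) i - crd α β u (cv (vv α β q0 q')) i| < δ / 2 := by
    intro i hi
    have p1 := (hcr q hq i).1
    have p2 := (hcr q' hq' i).1
    have := floor_close (by positivity) (by positivity) hi
    rw [← sub_mul, abs_mul, abs_of_pos (show 0 < 2 / δ by positivity)] at this
    rw [show crd α β u (cv (vv α β q0 q)) i + K - (crd α β u (cv (vv α β q0 q')) i + K) =
      crd α β u (cv (vv α β q0 q)) i - crd α β u (cv (vv α β q0 q')) i by ring] at this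
    rw [lt_div_iff₀ two_pos]
    have h3 : |crd α β u (cv (vv α β q0 q)) i - crd α β u (cv (vv α β q0 q')) i| * (2 / δ) =
      (|crd α β u (cv (vv α β q0 q)) i - crd α β u (cv (vv α β q0 q')) i| * 2) / δ := by ring
    rw [h3, div_lt_one hδ0] at this
    exact this
  set w : Fin 3 → ℤ := vv α β q0 q - vv α β q0 q' with hw
  have hwne : w ≠ 0 := by
    intro h0
    have := congrFun h0 0
    simp [hw, vv] at this
    apply hne
    omega
  have hwc : ∀ i, crd α β u (cv w) i =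
      crd α β u (cv (vv α β q0 q)) i - crd α β u (cv (vv α β q0 q')) i := fun i => by
    rw [hw, cv_sub, crd_sub]
  have w1 : |crd α β u (cv w) (k + 1)| < δ / 2 := by rw [hwc]; exact hclose _ hg1
  have w2 : |crd α β u (cv w) (k + 2)| < δ / 2 := by rw [hwc]; exact hclose _ hg2
  have wk : |crd α β u (cv w) k| < δ := by
    have hs : ∑ i, cof α β u a i * crd α β u (cv w) i = 0 := by
      have : ∀ i, cof α β u a i * crd α β u (cv w) i =
        cof α β u a i * crd α β u (cv (vv α β q0 q)) i -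
        cof α β u a i * crd α β u (cv (vv α β q0 q')) i := fun i => by rw [hwc]; ring
      rw [Finset.sum_congr rfl fun i _ => this i, Finset.sum_sub_distrib, hplane q hq,
        hplane q' hq', sub_zero]
    rw [sum_cyc _ k] at hs
    have hk1 := hk (k + 1) (Finset.mem_univ _)
    have hk2 := hk (k + 2) (Finset.mem_univ _)
    have e : |cof α β u a k| * |crd α β u (cv w) k| ≤
        |cof α β u a (k + 1)| * |crd α β u (cv w) (k + 1)| +
        |cof α β u a (k + 2)| * |crd α β u (cv w) (k + 2)| := by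
      rw [← abs_mul, ← abs_mul, ← abs_mul]
      rw [show cof α β u a k * crd α β u (cv w) k =
        -(cof α β u a (k + 1) * crd α β u (cv w) (k + 1) +
          cof α β u a (k + 2) * crd α β u (cv w) (k + 2)) by linarith, abs_neg]
      exact abs_add_le _ _
    have e2 : |cof α β u a (k + 1)| * |crd α β u (cv w) (k + 1)| ≤
        |cof α β u a k| * |crd α β u (cv w) (k + 1)| :=
      mul_le_mul_of_nonneg_right hk1 (abs_nonneg _)
    have e3 : |cof α β u a (k + 2)| * |crd α β u (cv w) (k + 2)| ≤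
        |cof α β u a k| * |crd α β u (cv w) (k + 2)| :=
      mul_le_mul_of_nonneg_right hk2 (abs_nonneg _)
    have e4 : |cof α β u a k| * |crd α β u (cv w) k| < |cof α β u a k| * δ := by
      have : |cof α β u a k| * |crd α β u (cv w) (k + 1)| +
        |cof α β u a k| * |crd α β u (cv w) (k + 2)| < |cof α β u a k| * δ := by
        rw [← mul_add]
        exact mul_lt_mul_of_pos_left (by linarith) hkpos
      linarith
    exact lt_of_mul_lt_mul_left e4 (abs_nonneg _)
  have hfin : size α β u (cv w) < δ := by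
    apply size_lt
    exact cases_cyc (fun i => |crd α β u (cv w) i| < δ) k wk (w1.trans (by linarith)) (w2.trans (by linarith))
  exact absurd (hδ w hwne) (not_le.2 hfin)

theorem exists_short {α β δ : ℝ} (hδ0 : 0 < δ) (hδ1 : δ ≤ 1) {u : ℝ × ℝ} (hu1 : 0 ≤ u.1)
    (hu2 : 0 ≤ u.2)
    (hδ : ∀ v : Fin 3 → ℤ, v ≠ 0 →
      δ ≤ size α β (u + (log (200 / δ ^ 2), log (200 / δ ^ 2))) (cv v))
    {a : Fin 3 → ℝ} (ha : a ≠ 0) :
      ∃ v : Fin 3 → ℤ, size α β u (cv v) ≤ (200 / δ ^ 2) ^ 3 ∧ ∑ i, a i * (v i : ℝ) ≠ 0 := by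
  set K := 200 / δ ^ 2 with hK
  have hδ2 : δ ^ 2 ≤ 1 := by nlinarith
  have hK200 : 200 ≤ K := by
    rw [hK, le_div_iff₀ (by positivity)]; nlinarith
  have hK0 : 0 < K := by linarith
  set T := log K with hT
  have hTK : exp T = K := exp_log hK0
  have hT0 : 0 ≤ T := log_nonneg (by linarith)
  set c : ℝ × ℝ := (T, T) with hc
  have h1 : K ≤ exp (u + c).1 := by
    rw [Prod.fst_add, exp_add, hc, hTK]
    have := one_le_exp hu1
    nlinarith
  have h2 : K ≤ exp (u + c).2 := by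
    rw [Prod.snd_add, exp_add, hc, hTK]
    have := one_le_exp hu2
    nlinarith
  obtain ⟨v, hv, hva⟩ := short_aux hδ0 hδ1 hδ hK h1 h2 ha
  refine ⟨v, ?_, hva⟩
  rw [size_le_iff] at hv ⊢
  intro i
  have e : crd α β u (cv v) i = exp (-wt c i) * crd α β (u + c) (cv v) i := by
    rw [crd, crd, wt_add, ← mul_assoc, ← exp_add]
    congr 2
    ring
  have hw : exp (-wt c i) ≤ K ^ 2 := by
    have : -wt c i ≤ T + T := by
      fin_cases i
      · show -wt c 0 ≤ T + T
        simp [hc]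
      · show -wt c 1 ≤ T + T
        simp [hc]; linarith
      · show -wt c 2 ≤ T + T
        simp [hc]; linarith
    calc exp (-wt c i) ≤ exp (T + T) := exp_le_exp.2 this
      _ = K ^ 2 := by rw [exp_add, hTK]; ring
  rw [e, abs_mul, abs_of_pos (exp_pos _)]
  calc exp (-wt c i) * |crd α β (u + c) (cv v) i| ≤ K ^ 2 * K :=
        mul_le_mul hw (hv i) (abs_nonneg _) (by positivity)
    _ = K ^ 3 := by ring

end Pool.Agent.H6.LW
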