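import Pool.Agent.H6.LW.Irr2

open Real Matrix

namespace Pool.Agent.H6.LW

lemma badly {α β : ℝ} {c Q : ℝ} (hcq : LowUpTo α β c Q) :
    ∀ q : ℤ, q ≠ 0 → |(q : ℝ)| ≤ Q → ∀ p : ℤ,
      c ≤ |(q : ℝ)| * |(q : ℝ) * α - p| ∧ c ≤ |(q : ℝ)| * |(q : ℝ) * β - p| := by
  have key : ∀ q : ℕ, 0 < q → (q : ℝ) ≤ Q → ∀ p : ℤ,
      c ≤ (q : ℝ) * |(q : ℝ) * α - p| ∧ c ≤ (q : ℝ) * |(q : ℝ) * β - p| := by
    intro q hq hqQ p
    have h0 : (0 : ℝ) ≤ q := Nat.cast_nonneg q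
    constructor
    · have h1 := hcq q hq hqQ p (round ((q : ℝ) * β))
      have h2 := abs_sub_round ((q : ℝ) * β)
      have h3 : 0 ≤ (q : ℝ) * |(q : ℝ) * α - p| := by positivity
      have h4 : (q : ℝ) * |(q : ℝ) * α - p| * |(q : ℝ) * β - (round ((q : ℝ) * β) : ℤ)| ≤
          (q : ℝ) * |(q : ℝ) * α - p| * (1 / 2) := mul_le_mul_of_nonneg_left h2 h3
      linarith
    · have h1 := hcq q hq hqQ (round ((q : ℝ) * α)) p
      have h2 := abs_sub_round ((q : ℝ) * α)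
      have h3 : 0 ≤ (q : ℝ) * |(q : ℝ) * β - p| := by positivity
      have h4 : (q : ℝ) * |(q : ℝ) * β - p| * |(q : ℝ) * α - (round ((q : ℝ) * α) : ℤ)| ≤
          (q : ℝ) * |(q : ℝ) * β - p| * (1 / 2) := mul_le_mul_of_nonneg_left h2 h3
      have h5 : (q : ℝ) * |(q : ℝ) * α - (round ((q : ℝ) * α) : ℤ)| * |(q : ℝ) * β - p| =
        (q : ℝ) * |(q : ℝ) * β - p| * |(q : ℝ) * α - (round ((q : ℝ) * α) : ℤ)| := by ring
      linarith
  intro q hq hqQ p
  rcases lt_or_gt_of_ne hq with h0 | h0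
  · obtain ⟨n, hn⟩ := Int.eq_ofNat_of_zero_le (show 0 ≤ -q by omega)
    have hn0 : 0 < n := by omega
    have hq' : (q : ℝ) = -(n : ℝ) := by
      have : q = -(n : ℤ) := by omega
      rw [this]; push_cast; ring
    rw [hq', abs_neg, abs_of_nonneg (Nat.cast_nonneg n)] at hqQ
    have := key n hn0 hqQ (-p)
    rw [hq', abs_neg, abs_of_nonneg (Nat.cast_nonneg n)]
    have e1 : ∀ x : ℝ, |-(n : ℝ) * x - p| = |(n : ℝ) * x - ((-p : ℤ) : ℝ)| := by
      intro x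
      rw [← abs_neg]
      congr 1
      push_cast
      ring
    rw [e1, e1]
    exact this
  · obtain ⟨n, hn⟩ := Int.eq_ofNat_of_zero_le h0.le
    have hn0 : 0 < n := by omega
    rw [hn] at hqQ
    push_cast at hqQ
    rw [abs_of_nonneg (Nat.cast_nonneg n)] at hqQ
    have := key n hn0 hqQ p
    rw [hn]
    push_cast
    rw [abs_of_nonneg (Nat.cast_nonneg n)]
    exact this

lemma X_entries (α β : ℝ) (γ : Matrix (Fin 3) (Fin 3) ℤ) :
    (H α β * rm γ * H α β) 0 0 = (γ 0 0 : ℝ) + α * γ 0 1 + β * γ 0 2 ∧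
    (H α β * rm γ * H α β) 0 1 = -(γ 0 1 : ℝ) ∧
    (H α β * rm γ * H α β) 0 2 = -(γ 0 2 : ℝ) ∧
    (H α β * rm γ * H α β) 1 0 = α * ((γ 0 0 : ℝ) + α * γ 0 1 + β * γ 0 2) -
      ((γ 1 0 : ℝ) + α * γ 1 1 + β * γ 1 2) ∧
    (H α β * rm γ * H α β) 2 0 = β * ((γ 0 0 : ℝ) + α * γ 0 1 + β * γ 0 2) -
      ((γ 2 0 : ℝ) + α * γ 2 1 + β * γ 2 2) ∧
    (H α β * rm γ * H α β) 1 2 = (γ 1 2 : ℝ) - α * γ 0 2 ∧
    (H α β * rm γ * H α β) 2 1 = (γ 2 1 : ℝ) - β * γ 0 1 := by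
  refine ⟨?_, ?_, ?_, ?_, ?_, ?_, ?_⟩ <;>
  · simp only [Matrix.mul_apply, Fin.sum_univ_three]
    simp [H, rm]
    try ring

/-- all the constants attached to a lower bound `c`, and `N` large -/
structure Setup (α β N M δ C c : ℝ) : Prop where
  C1 : 1 ≤ C
  loc : ∀ z : ℝ × ℝ, 0 ≤ z.1 → z.1 ≤ M → 0 ≤ z.2 → z.2 ≤ M → Loc α β δ C z
  cpos : 0 < c
  prod : LowUpTo α β c (exp (4 * M))
  Npos : 0 < N
  E1000 : 1000 ≤ exp (N / 36)
  E1 : 3 * (192 / exp (N / 36) ^ 5) * C < δ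
  E2 : exp (-(N / 2)) < c
  E3 : 144 * C < exp (N / 36)
  E4 : 4000000000 * C ^ 3 < c * exp (N / 36) ^ 2

theorem exists_setup {c : ℝ} (hc : 0 < c) :
    ∃ C₀ δ C : ℝ, 0 < C₀ ∧ ∀ α β N M : ℝ, C₀ ≤ N → N ≤ M → LowUpTo α β c (exp (4 * M)) →
      Setup α β N M δ C c := by
  set δ := min 1 c with hδ
  have hδ0 : 0 < δ := by positivity
  have hδ1 : δ ≤ 1 := min_le_left _ _
  set K := 200 / δ ^ 2 with hK
  have hδ2 : δ ^ 2 ≤ 1 := by nlinarith
  have hK200 : 200 ≤ K := by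
    rw [hK, le_div_iff₀ (by positivity)]; nlinarith
  set C₁ := K ^ 3 with hC₁
  have hC₁1 : 1 ≤ C₁ := one_le_pow₀ (by linarith)
  have hKC : K ≤ C₁ := by
    calc K = K ^ 1 := (pow_one K).symm
      _ ≤ K ^ 3 := pow_le_pow_right₀ (by linarith) (by norm_num)
  set E₀ := 1000 + 576 * C₁ / δ + 1 / c + 144 * C₁ + 4000000000 * C₁ ^ 3 / c + 1 with hE₀
  have p1 : 0 ≤ 576 * C₁ / δ := by positivity
  have p2 : 0 ≤ 1 / c := by positivity
  have p3 : 0 ≤ 144 * C₁ := by positivity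
  have p4 : 0 ≤ 4000000000 * C₁ ^ 3 / c := by positivity
  have hE₀1 : 1000 < E₀ := by linarith
  refine ⟨36 * log E₀, δ, C₁, mul_pos (by norm_num) (log_pos (by linarith)), ?_⟩
  intro α β N M hN hNM hlow
  have hEE : E₀ ≤ exp (N / 36) := by
    calc E₀ = exp (log E₀) := (exp_log (by linarith)).symm
      _ ≤ exp (N / 36) := exp_le_exp.2 (by linarith)
  have hN0 : 0 < N := by
    have : 0 < log E₀ := log_pos (by linarith)
    linarith
  have hlogK0 : 0 ≤ log K := log_nonneg (by linarith)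
  have hlogK : log K ≤ M := by
    have : log K ≤ log E₀ := log_le_log (by linarith) (by linarith)
    have h2 : 0 ≤ log E₀ := log_nonneg (by linarith)
    linarith
  set E := exp (N / 36) with hE
  have hE1 : 1 ≤ E := by linarith
  have hE0 : 0 < E := by linarith
  have hEsq : E ≤ E ^ 2 := by nlinarith
  refine ⟨hC₁1, ?_, hc, hlow, hN0, by linarith, ?_, ?_, by linarith, ?_⟩
  · intro z hz1 hz1' hz2 hz2'
    refine ⟨fun v hv => delta_low hc hlow v hv z hz1 hz2 (exp_le_exp.2 (by linarith)), ?_⟩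
    intro a ha
    refine exists_short hδ0 hδ1 hz1 hz2 (fun v hv => ?_) ha
    refine delta_low hc hlow v hv _ ?_ ?_ (exp_le_exp.2 ?_)
    · rw [Prod.fst_add]; simp only; linarith
    · rw [Prod.snd_add]; simp only; linarith
    · rw [Prod.fst_add, Prod.snd_add]; simp only; linarith
  · have h1 : 576 * C₁ / δ < E := by linarith
    rw [div_lt_iff₀ hδ0] at h1
    have h2 : E ≤ E ^ 5 := by
      calc E = E ^ 1 := (pow_one E).symm
        _ ≤ E ^ 5 := pow_le_pow_right₀ (by linarith) (by norm_num)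
    have h3 : 3 * (192 / E ^ 5) * C₁ = 576 * C₁ / E ^ 5 := by ring
    rw [h3, div_lt_iff₀ (by positivity)]
    have h4 : E * δ ≤ E ^ 5 * δ := mul_le_mul_of_nonneg_right h2 hδ0.le
    linarith
  · have e1 : exp (-(N / 2)) ≤ E⁻¹ := by
      rw [hE, ← exp_neg]
      apply exp_le_exp.2
      linarith
    have e2 : E⁻¹ < c := by
      have h1 : 1 / c < E := by linarith
      rw [div_lt_iff₀ hc] at h1
      rw [inv_eq_one_div, div_lt_iff₀ hE0]
      linarith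
    linarith
  · have h1 : 4000000000 * C₁ ^ 3 / c < E := by linarith
    rw [div_lt_iff₀ hc] at h1
    have h2 : E * c ≤ E ^ 2 * c := mul_le_mul_of_nonneg_right hEsq hc.le
    linarith

lemma NearReturn.near {α β N : ℝ} {u₀ : ℝ × ℝ} {γ : Matrix (Fin 3) (Fin 3) ℤ}
    (h : NearReturn α β N u₀ γ) (hN : 0 < N) (hE : 1000 ≤ exp (N / 36)) {z : ℝ × ℝ}
    (h1 : 3 * N / 8 ≤ z.1 - u₀.1) (h1' : z.1 - u₀.1 ≤ 5 * N / 8)
    (h2 : 3 * N / 8 ≤ z.2 - u₀.2) (h2' : z.2 - u₀.2 ≤ 5 * N / 8) :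
    NearRet α β ((exp (N / 36) ^ 21)⁻¹) (exp (N / 36) ^ 4) z γ := by
  obtain ⟨u, u', K, ⟨⟨a1, a2⟩, a3, a4⟩, ⟨⟨b1, b2⟩, b3, b4⟩, hm, hK⟩ := h
  refine near_of_match hN hE hm hK ?_ ?_ ?_ ?_ ?_ ?_ ?_ ?_ ?_ ?_
  · rw [abs_le]; constructor <;> linarith
  · rw [abs_le]; constructor <;> linarith
  all_goals linarith

/-- the middle of the window based at `p` -/
noncomputable def mid (N : ℝ) (p : ℝ × ℝ) : ℝ × ℝ := (p.1 + N / 2, p.2 + N / 2)

lemma small_sep {E : ℝ} (hE : 1000 ≤ E) :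
    20000 * (E ^ 4) ^ 7 * ((E ^ 21)⁻¹) ^ 2 ≤ 1 := by
  have hE0 : 0 < E := by linarith
  have e : 20000 * (E ^ 4) ^ 7 * ((E ^ 21)⁻¹) ^ 2 = 20000 / E ^ 14 := by
    field_simp
  rw [e, div_le_one (by positivity)]
  calc (20000 : ℝ) ≤ 1000 ^ 2 := by norm_num
    _ ≤ E ^ 2 := pow_le_pow_left₀ (by norm_num) hE 2
    _ ≤ E ^ 14 := pow_le_pow_right₀ (by linarith) (by norm_num)

lemma Setup.mid {α β N M δ C c : ℝ} (S : Setup α β N M δ C c) {u₀ : ℝ × ℝ}
    (hu : InRegion N M u₀) : Loc α β δ C (mid N u₀) := by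
  obtain ⟨⟨h1, h2⟩, h3, h4⟩ := hu
  have hN := S.Npos
  exact S.loc _ (by simp only [LW.mid]; linarith) (by simp only [LW.mid]; linarith)
    (by simp only [LW.mid]; linarith) (by simp only [LW.mid]; linarith)

lemma no_unit {α β N M δ C c : ℝ} (S : Setup α β N M δ C c) {u₀ : ℝ × ℝ}
    (hu : InRegion N M u₀) {γ : Matrix (Fin 3) (Fin 3) ℤ} (h : NearReturn α β N u₀ γ) {ν : ℤ}
    (hν : ν = 1 ∨ ν = -1) : (γ - ν • (1 : Matrix (Fin 3) (Fin 3) ℤ)).det ≠ 0 := by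
  intro hdet
  have hN := S.Npos
  have hnear := h.near S.Npos S.E1000 (z := mid N u₀) (by simp only [mid]; linarith)
    (by simp only [mid]; linarith) (by simp only [mid]; linarith) (by simp only [mid]; linarith)
  have hE9 : ∀ x : ℝ, 0 ≤ x → exp (N / 36) ^ 9 ≤ exp (x + N / 2) := by
    intro x hx
    rw [← exp_nat_mul]
    apply exp_le_exp.2
    push_cast
    linarith
  refine no_unit_eigen S.prod S.C1 (S.mid hu) ?_ S.E1000 S.E3 S.E4 (hE9 _ hu.1.1)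
    (hE9 _ hu.2.1) hnear hν hdet
  rw [← exp_nat_mul, ← exp_add]
  apply exp_le_exp.2
  simp only [mid]
  push_cast
  linarith [hu.1.1, hu.1.2, hu.2.1, hu.2.2]

theorem near_irreducible {α β N M δ C c : ℝ} (S : Setup α β N M δ C c) {u₀ : ℝ × ℝ}
    (hu : InRegion N M u₀) {γ : Matrix (Fin 3) (Fin 3) ℤ}
    (h : NearReturn α β N u₀ γ) :
    Irreducible (γ.charpoly.map (Int.castRingHom ℚ)) ∧ 0 < γ.discr := by
  have hN := S.Npos
  have hnear := h.near S.Npos S.E1000 (z := mid N u₀) (by simp only [mid]; linarith)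
    (by simp only [mid]; linarith) (by simp only [mid]; linarith) (by simp only [mid]; linarith)
  refine ⟨irreducible_charpoly hnear.unit fun ν hν => no_unit S hu h hν, ?_⟩
  have hE1 : 1 ≤ exp (N / 36) := by linarith [S.E1000]
  rw [discr_three]
  exact (hnear.sep' (by positivity) (one_le_pow₀ hE1) (inv_le_one_of_one_le₀ (one_le_pow₀ hE1))
    (small_sep S.E1000)).1

theorem near_commute {α β N M δ C c : ℝ} (S : Setup α β N M δ C c) {u₀ u₁ : ℝ × ℝ}
    (hu : InRegion N M u₀) (hd1 : |u₁.1 - u₀.1| ≤ N / 8) (hd2 : |u₁.2 - u₀.2| ≤ N / 8)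
    {γ γ' : Matrix (Fin 3) (Fin 3) ℤ} (h : NearReturn α β N u₀ γ)
    (h' : NearReturn α β N u₁ γ') : γ * γ' = γ' * γ := by
  have hN := S.Npos
  rw [abs_le] at hd1 hd2
  have n0 := h.near S.Npos S.E1000 (z := mid N u₀) (by simp only [mid]; linarith)
    (by simp only [mid]; linarith) (by simp only [mid]; linarith) (by simp only [mid]; linarith)
  have n1 := h'.near S.Npos S.E1000 (z := mid N u₀) (by simp only [mid]; linarith [hd1.1, hd1.2])
    (by simp only [mid]; linarith [hd1.1, hd1.2]) (by simp only [mid]; linarith [hd2.1, hd2.2])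
    (by simp only [mid]; linarith [hd2.1, hd2.2])
  exact comm_step (S.mid hu) S.E1000 S.E1 n0 n1 n0.diag rfl

/-- A chain of near returns: off-diagonal entries of the first one in all frames. -/
lemma chain_off {α β N M δ C c : ℝ} (S : Setup α β N M δ C c) {p : ℕ → ℝ × ℝ}
    (hp : IsChain (N / 8) p) {γ : ℕ → Matrix (Fin 3) (Fin 3) ℤ} {m : ℕ}
    (hpM : ∀ n, n ≤ m → InRegion N M (p n))
    (h : ∀ n, n ≤ m → NearReturn α β N (p n) (γ n)) :
    ∀ n, n ≤ m → ∀ i j, i ≠ j → |fr α β (mid N (p n)) (rm (γ 0)) i j| ≤ 1 := by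
  have hN := S.Npos
  refine off_all (z := fun n => mid N (p n)) (γ := γ) (n₀ := m) ?_ S.E1000 S.E1 ?_ ?_
  · intro n hn
    exact S.mid (hpM n hn)
  · intro n hn
    exact (h n hn).near S.Npos S.E1000 (by simp only [mid]; linarith)
      (by simp only [mid]; linarith) (by simp only [mid]; linarith) (by simp only [mid]; linarith)
  · intro n hn
    have h1 := (hp n).1
    have h2 := (hp n).2
    rw [abs_le] at h1 h2
    exact (h n hn.le).near S.Npos S.E1000 (by simp only [mid]; linarith [h1.1, h1.2])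
      (by simp only [mid]; linarith [h1.1, h1.2]) (by simp only [mid]; linarith [h2.1, h2.2])
      (by simp only [mid]; linarith [h2.1, h2.2])

lemma exp_bound {x t : ℝ} (h : |exp t * x| ≤ 1) : |x| ≤ exp (-t) := by
  rw [abs_mul, abs_of_pos (exp_pos _)] at h
  rw [exp_neg, inv_eq_one_div, le_div_iff₀ (exp_pos _)]
  linarith

/-- an integer relation `|b - a x| < e^{-L}` with `|a| ≤ e^{T}` and `L > T + N/2` is trivial -/
lemma int_rel {N M c x : ℝ} (hE2 : exp (-(N / 2)) < c)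
    (hbad : ∀ q : ℤ, q ≠ 0 → |(q : ℝ)| ≤ exp (4 * M) → ∀ p : ℤ,
      c ≤ |(q : ℝ)| * |(q : ℝ) * x - p|) {a b : ℤ} {T L : ℝ}
    (hL : 0 < L) (hTM : T ≤ 4 * M) (ha : |(a : ℝ)| ≤ exp T) (hb : |(b : ℝ) - x * a| ≤ exp (-L))
    (hTL : T + N / 2 ≤ L) : a = 0 ∧ b = 0 := by
  have ha0 : a = 0 := by
    by_contra hne
    have h1 := hbad _ hne (ha.trans (exp_le_exp.2 hTM)) b
    rw [show (a : ℝ) * x - b = -((b : ℝ) - x * a) by ring, abs_neg] at h1
    have h2 : |(a : ℝ)| * |(b : ℝ) - x * a| ≤ exp T * exp (-L) :=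
      mul_le_mul ha hb (abs_nonneg _) (exp_pos _).le
    rw [← exp_add] at h2
    have h3 : exp (T + -L) ≤ exp (-(N / 2)) := exp_le_exp.2 (by linarith)
    linarith
  refine ⟨ha0, ?_⟩
  by_contra hne
  rw [ha0] at hb
  have h1 : (1 : ℝ) ≤ |(b : ℝ)| := by
    rw [← Int.cast_abs]
    exact_mod_cast Int.one_le_abs hne
  have h2 : exp (-L) < 1 := exp_lt_one_iff.2 (by linarith)
  have h3 : (b : ℝ) - x * ((0 : ℤ) : ℝ) = (b : ℝ) := by push_cast; ring
  rw [h3] at hb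
  linarith

lemma det_col2 {γ : Matrix (Fin 3) (Fin 3) ℤ} (hu : IsUnit γ.det) (h0 : γ 0 2 = 0)
    (h1 : γ 1 2 = 0) : (γ 2 2 = 1 ∨ γ 2 2 = -1) ∧
      (γ - γ 2 2 • (1 : Matrix (Fin 3) (Fin 3) ℤ)).det = 0 := by
  constructor
  · have hd : γ 2 2 ∣ γ.det := by
      rw [Matrix.det_fin_three, h0, h1]
      exact ⟨γ 0 0 * γ 1 1 - γ 0 1 * γ 1 0, by ring⟩
    exact Int.isUnit_iff.1 (isUnit_of_dvd_unit hd hu)
  · apply Matrix.det_eq_zero_of_column_eq_zero (2 : Fin 3)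
    intro i
    rw [Matrix.sub_apply, Matrix.smul_apply, smul_eq_mul, Matrix.one_apply]
    have hcases : ∀ i : Fin 3, i = 0 ∨ i = 1 ∨ i = 2 := by decide
    rcases hcases i with h | h | h <;> rw [h]
    · rw [h0]; simp
    · rw [h1]; simp
    · simp

lemma det_col1 {γ : Matrix (Fin 3) (Fin 3) ℤ} (hu : IsUnit γ.det) (h0 : γ 0 1 = 0)
    (h1 : γ 2 1 = 0) : (γ 1 1 = 1 ∨ γ 1 1 = -1) ∧
      (γ - γ 1 1 • (1 : Matrix (Fin 3) (Fin 3) ℤ)).det = 0 := by
  constructor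
  · have hd : γ 1 1 ∣ γ.det := by
      rw [Matrix.det_fin_three, h0, h1]
      exact ⟨γ 0 0 * γ 2 2 - γ 0 2 * γ 2 0, by ring⟩
    exact Int.isUnit_iff.1 (isUnit_of_dvd_unit hd hu)
  · apply Matrix.det_eq_zero_of_column_eq_zero (1 : Fin 3)
    intro i
    rw [Matrix.sub_apply, Matrix.smul_apply, smul_eq_mul, Matrix.one_apply]
    have hcases : ∀ i : Fin 3, i = 0 ∨ i = 1 ∨ i = 2 := by decide
    rcases hcases i with h | h | h <;> rw [h]
    · rw [h0]; simp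
    · simp
    · rw [h1]; simp

/-- chains of near returns do not spread far in the direction of one axis -/
theorem finite_chain {α β N M δ C c : ℝ} (S : Setup α β N M δ C c) {p : ℕ → ℝ × ℝ}
    (hp : IsChain (N / 8) p) (m : ℕ) (hpM : ∀ n, n ≤ m → InRegion N M (p n))
    (hfar : (p 0).1 + 2 * (p 0).2 + 2 * N < (p m).1 - (p m).2 ∨
      2 * (p 0).1 + (p 0).2 + 2 * N < (p m).2 - (p m).1) :
    ∃ n, n ≤ m ∧ Good α β N (p n) := by
  by_contra hno
  unfold Good at hno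
  push Not at hno
  choose! G hG using hno
  have hN := S.Npos
  have hoff := chain_off S hp (γ := G) (m := m) hpM hG
  have hbad := badly S.prod
  have hp0 := hpM 0 (Nat.zero_le _)
  have hp1 := hp0.1
  have hp2 := hp0.2
  obtain ⟨-, x01, x02, -, -, x12, x21⟩ := X_entries α β (G 0)
  have hu := (hG 0 (Nat.zero_le _)).choose_spec.choose_spec.choose_spec.2.2.1.1
  have hnu := fun ν hν => no_unit S hp0 (hG 0 (Nat.zero_le _)) (ν := ν) hν
  rcases hfar with hfar | hfar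
  · have k02 := hoff 0 (Nat.zero_le _) 0 2 (by decide)
    have k12 := hoff m le_rfl 1 2 (by decide)
    rw [fr_apply] at k02 k12
    have k02 := exp_bound k02
    have k12 := exp_bound k12
    rw [x02, abs_neg, wt_zero, wt_two] at k02
    rw [x12, wt_two, wt_one] at k12
    simp only [mid] at k02 k12
    obtain ⟨g0, g1⟩ := int_rel (M := M) S.E2 (fun q hq hqM p => (hbad q hq hqM p).1)
      (T := -(-((p 0).1 + N / 2 + ((p 0).2 + N / 2)) - ((p 0).2 + N / 2)))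
      (L := (p m).1 + N / 2 - ((p m).2 + N / 2)) (by linarith [hp1.1, hp2.1])
      (by linarith [hp1.1, hp1.2, hp2.1, hp2.2]) k02 k12 (by linarith)
    obtain ⟨d1, d2⟩ := det_col2 hu g0 g1
    exact hnu _ d1 d2
  · have k01 := hoff 0 (Nat.zero_le _) 0 1 (by decide)
    have k21 := hoff m le_rfl 2 1 (by decide)
    rw [fr_apply] at k01 k21
    have k01 := exp_bound k01
    have k21 := exp_bound k21
    rw [x01, abs_neg, wt_zero, wt_one] at k01
    rw [x21, wt_two, wt_one] at k21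
    simp only [mid] at k01 k21
    obtain ⟨g0, g1⟩ := int_rel (M := M) S.E2 (fun q hq hqM p => (hbad q hq hqM p).2)
      (T := -(-((p 0).1 + N / 2 + ((p 0).2 + N / 2)) - ((p 0).1 + N / 2)))
      (L := (p m).2 + N / 2 - ((p m).1 + N / 2)) (by linarith [hp1.1, hp2.1])
      (by linarith [hp1.1, hp1.2, hp2.1, hp2.2]) k01 k21 (by linarith)
    obtain ⟨d1, d2⟩ := det_col1 hu g0 g1
    exact hnu _ d1 d2

end Pool.Agent.H6.LW
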